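import Pool.Agent.Lib.CMT.Iface

/-!
# PROJECT CMT, part I (rank two invariance `S_Inv2`, product form) : definitions and statements

PLAN.  For `ψ` Schwartz-Bruhat on `V²`, `V = F³`, and majorants `E, E'`
`ker E ψ z · conj (ker E' ψ z) = C(E,E') ∑_{v ∈ (K³)²} Φ(v) AA(E,E',z,v)`        (`S_PF`)
with `Φ` Schwartz-Bruhat on `(K³)² = F¹²` INDEPENDENT of `z, E, E'` and `AA` an explicit function,
invariant under the unitary group (`S_EqA`).  As `Φ ∘ γ = Φ` for `γ` in a congruence subgroup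
(`S_PhiG`), `S_Inv2` follows (reorder the sum).

(1) `S_Prod`: (Weil, Wigner) `(∑_x ψ(x) G(x)) conj (∑_x ψ(x) G'(x))
   = ∑_{(R,η)} Φ(R,η) ∫ G(x+R/2) conj G'(x-R/2) e(-⟨η,x⟩) dx`: substitute `p = S+R/2, p' = S-R/2`
   and apply Poisson summation (`S_Pois`) in `S` for each fixed `R`.
(2) the integral is a product of local integrals (Fubini, `S_LocInt`);  at the places `t ≠ t0`
   `S_LocT`, at `t0` `S_Loc0` (both numerically verified).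
(3) decay (`S_EDg`, `S_EDa`) for the absolute convergence.

`k` is a finite type: number of vectors (`k = Fin 2` for the kernel).
-/

open scoped BigOperators ComplexConjugate
open MeasureTheory

noncomputable section

namespace CMT
namespace IP

variable {F : Type} [Field F] [NumberField F] {k : Type} [Fintype k]

/-! ## Poisson summation and the product formula -/

/-- The real space `(F ⊗ ℝ)^{3k}`. -/
abbrev XR (F : Type) [Field F] (k : Type) : Type := (F →+* ℝ) → k → Fin 3 → ℝ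

/-- `F^{3k} → (F ⊗ ℝ)^{3k}`. -/
def emb (x : k → Fin 3 → F) : XR F k := fun t a i => t (x a i)

/-- Schwartz-Bruhat functions of level `n` on `F^{3k}`. -/
def SBk (n : ℕ) (φ : (k → Fin 3 → F) → ℂ) : Prop :=
  (∀ x, φ x ≠ 0 → ∀ a i, IsIntegral ℤ ((n : F) * x a i)) ∧
  ∀ x y : k → Fin 3 → F, (∀ a i, IsIntegral ℤ (y a i)) →
    φ (fun a i => x a i + (n : F) * y a i) = φ x

/-- The same on `F^{3k} × F^{3k}`. -/
def SBk2 (n : ℕ) (Φ : (k → Fin 3 → F) × (k → Fin 3 → F) → ℂ) : Prop :=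
  (∀ p, Φ p ≠ 0 → (∀ a i, IsIntegral ℤ ((n : F) * p.1 a i)) ∧
    ∀ a i, IsIntegral ℤ ((n : F) * p.2 a i)) ∧
  ∀ (p : (k → Fin 3 → F) × (k → Fin 3 → F)) (x y : k → Fin 3 → F),
    (∀ a i, IsIntegral ℤ (x a i)) → (∀ a i, IsIntegral ℤ (y a i)) →
    Φ (fun a i => p.1 a i + (n : F) * x a i, fun a i => p.2 a i + (n : F) * y a i) = Φ p

/-- Exponential decay. -/
def ED {E : Type} [NormedAddCommGroup E] (f : E → ℂ) : Prop :=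
  ∃ C ε : ℝ, 0 < ε ∧ ∀ x, ‖f x‖ ≤ C * Real.exp (-(ε * ‖x‖))

/-- The real pairing on `(F ⊗ ℝ)^{3k}`. -/
def pr (η x : XR F k) : ℝ := ∑ t, ∑ a, ∑ i, η t a i * x t a i

/-- Fourier transform. -/
def ft (G : XR F k → ℂ) (η : XR F k) : ℂ :=
  ∫ x, G x * Complex.exp (-(2 * (Real.pi : ℂ) * Complex.I * ((pr η x : ℝ) : ℂ)))

/-- `x ↦ G (x + R/2) conj G' (x - R/2)`. -/
def amb (G G' : XR F k → ℂ) (R : XR F k) (x : XR F k) : ℂ :=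
  G (x + (1 / 2 : ℝ) • R) * conj (G' (x - (1 / 2 : ℝ) • R))

/-- POISSON SUMMATION on `F^{3k}` with Schwartz-Bruhat functions. -/
def S_Pois : Prop :=
  ∀ (F : Type) [Field F] [NumberField F] [NumberField.IsTotallyReal F] (k : Type) [Fintype k]
    [DecidableEq k] (n : ℕ), 0 < n → ∃ M : ℕ, 0 < M ∧
    ∀ φ : (k → Fin 3 → F) → ℂ, SBk n φ → ∃ φ' : (k → Fin 3 → F) → ℂ, SBk M φ' ∧
      ∀ G : XR F k → ℂ, Continuous G → ED G → ED (ft G) →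
        ∑' x : k → Fin 3 → F, φ x * G (emb x) = ∑' y : k → Fin 3 → F, φ' y * ft G (emb y)

/-- THE PRODUCT FORMULA. -/
def S_Prod : Prop :=
  ∀ (F : Type) [Field F] [NumberField F] [NumberField.IsTotallyReal F] (k : Type) [Fintype k]
    [DecidableEq k] (n : ℕ), 0 < n → ∀ ψ : (k → Fin 3 → F) → ℂ, SBk n ψ →
    ∃ M : ℕ, 0 < M ∧ ∃ Φ : (k → Fin 3 → F) × (k → Fin 3 → F) → ℂ, SBk2 M Φ ∧
      ∀ G G' : XR F k → ℂ, Continuous G → Continuous G' → ED G → ED G' →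
        ED (fun p : XR F k × XR F k => ft (amb G G' p.1) p.2) →
        (∑' x : k → Fin 3 → F, ψ x * G (emb x)) * conj (∑' x : k → Fin 3 → F, ψ x * G' (emb x)) =
          ∑' p : (k → Fin 3 → F) × (k → Fin 3 → F), Φ p * ft (amb G G' (emb p.1)) (emb p.2)

/-- Summability (rank of the lattice): used for `S_Pois`, `S_Prod` and `S_PF`. -/
def S_Lsum : Prop :=
  ∀ (F : Type) [Field F] [NumberField F] [NumberField.IsTotallyReal F] (k : Type) [Fintype k]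
    (n : ℕ), 0 < n → ∀ φ : (k → Fin 3 → F) → ℂ, SBk n φ →
      ∀ G : XR F k → ℂ, ED G → Summable fun x : k → Fin 3 → F => ‖φ x * G (emb x)‖

/-- Summability on pairs. -/
def S_Lsum2 : Prop :=
  ∀ (F : Type) [Field F] [NumberField F] [NumberField.IsTotallyReal F] (k : Type) [Fintype k]
    (n : ℕ), 0 < n → ∀ Φ : (k → Fin 3 → F) × (k → Fin 3 → F) → ℂ, SBk2 n Φ →
      ∀ G : XR F k × XR F k → ℂ, ED G →
        Summable fun p : (k → Fin 3 → F) × (k → Fin 3 → F) => ‖Φ p * G (emb p.1, emb p.2)‖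

/-! ## Gaussian integrals, free of coordinates -/

/-- `∫ exp (-B(x,x) - B(x,u) - i B(x,w))`. -/
def S_Gau : Prop :=
  ∀ (E : Type) [NormedAddCommGroup E] [NormedSpace ℝ E] [FiniteDimensional ℝ E]
    [MeasurableSpace E] [BorelSpace E] (μ : Measure E) [μ.IsAddHaarMeasure]
    (B : E →ₗ[ℝ] E →ₗ[ℝ] ℝ) (_ : ∀ x y, B x y = B y x) (_ : ∀ x, x ≠ 0 → 0 < B x x)
    (u w : E),
    ∫ x, Complex.exp (-(((B x x : ℝ) : ℂ) + ((B x u : ℝ) : ℂ) + Complex.I * ((B x w : ℝ) : ℂ))) ∂μ =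
      Complex.exp ((1 / 4 : ℂ) * (((B u u : ℝ) : ℂ) - ((B w w : ℝ) : ℂ) +
        2 * Complex.I * ((B u w : ℝ) : ℂ))) * ∫ x, Complex.exp (-((B x x : ℝ) : ℂ)) ∂μ

/-- The same with two linear factors; `l x = B(x, k1 + i k2)`. -/
def S_GauQ : Prop :=
  ∀ (E : Type) [NormedAddCommGroup E] [NormedSpace ℝ E] [FiniteDimensional ℝ E]
    [MeasurableSpace E] [BorelSpace E] (μ : Measure E) [μ.IsAddHaarMeasure]
    (B : E →ₗ[ℝ] E →ₗ[ℝ] ℝ) (_ : ∀ x y, B x y = B y x) (_ : ∀ x, x ≠ 0 → 0 < B x x)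
    (l l' : E →ₗ[ℝ] ℂ) (k1 k2 w : E)
    (_ : ∀ x, l x = ((B x k1 : ℝ) : ℂ) + Complex.I * ((B x k2 : ℝ) : ℂ)) (α α' : ℂ),
    ∫ x, (l x + α) * (l' x + α') *
        Complex.exp (-(((B x x : ℝ) : ℂ) + Complex.I * ((B x w : ℝ) : ℂ))) ∂μ =
      ((α - Complex.I / 2 * l w) * (α' - Complex.I / 2 * l' w) +
        (1 / 2 : ℂ) * (l' k1 + Complex.I * l' k2)) *
      Complex.exp (-((1 / 4 : ℂ) * ((B w w : ℝ) : ℂ))) * ∫ x, Complex.exp (-((B x x : ℝ) : ℂ)) ∂μ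

/-- Three variables: the constant is `√(π³ / det A)`. -/
def S_GauD : Prop :=
  ∀ (A : Matrix (Fin 3) (Fin 3) ℝ), A.PosDef →
    ∫ x : Fin 3 → ℝ, Complex.exp (-((∑ i, ∑ j, A i j * x i * x j : ℝ) : ℂ)) =
      ((Real.sqrt (Real.pi ^ 3 / A.det) : ℝ) : ℂ)

/-! ## the closed form -/

/-- `h(v,w) = v₀w̄₀ + v₁w̄₁ - b v₂w̄₂`. -/
def hh (b : ℝ) (v w : Fin 3 → ℂ) : ℂ :=
  v 0 * conj (w 0) + v 1 * conj (w 1) - (b : ℂ) * (v 2 * conj (w 2))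

/-- `H(z) = - h(z,z)`. -/
def HH (b : ℝ) (z : Fin 3 → ℂ) : ℝ := b * ‖z 2‖ ^ 2 - ‖z 0‖ ^ 2 - ‖z 1‖ ^ 2

/-- The form `h` of the components orthogonal to `z`. -/
def hz (b : ℝ) (z p q : Fin 3 → ℂ) : ℂ := hh b p q + hh b p z * hh b z q / ((HH b z : ℝ) : ℂ)

/-- The majorant of `h` at `z`. -/
def Nz (b : ℝ) (z v : Fin 3 → ℂ) : ℝ :=
  ‖v 0‖ ^ 2 + ‖v 1‖ ^ 2 - b * ‖v 2‖ ^ 2 + 2 * ‖hh b v z‖ ^ 2 / HH b z

/-- The local factor at `t0` (one line). -/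
def W1 (b c : ℝ) (z v p p' : Fin 3 → ℂ) : ℂ :=
  ((HH b z : ℝ) : ℂ)⁻¹ * (hz b z p p' / (4 * (c : ℂ)) - hz b z p v * hz b z v p' / 4) *
    Complex.exp (-((c / 2 * Nz b z v : ℝ) : ℂ))

/-- The tangent vectors. -/
def ee (j : Fin 2) : Fin 3 → ℂ := ![if j = 0 then 1 else 0, if j = 1 then 1 else 0, 0]

/-- The local factor at `t0` of the product of the 2-form kernel and a conjugate one. -/
def DD (b c1 c2 : ℝ) (z v1 v2 : Fin 3 → ℂ) : ℂ :=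
  W1 b c1 z v1 (ee 0) (ee 0) * W1 b c2 z v2 (ee 1) (ee 1) -
  W1 b c1 z v1 (ee 0) (ee 1) * W1 b c2 z v2 (ee 1) (ee 0) -
  W1 b c1 z v1 (ee 1) (ee 0) * W1 b c2 z v2 (ee 0) (ee 1) +
  W1 b c1 z v1 (ee 1) (ee 1) * W1 b c2 z v2 (ee 0) (ee 0)

/-- `P - T/2`, `P = q (E+E')⁻¹ q`, `T = (E-E') (E+E')⁻¹ q`, `q = diag (α₁,α₂)`. -/
def PT (α1 α2 : ℝ) (E E' : Matrix (Fin 2) (Fin 2) ℝ) : Matrix (Fin 2) (Fin 2) ℝ :=
  Matrix.diagonal ![α1, α2] * (E + E')⁻¹ * Matrix.diagonal ![α1, α2] -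
    (1 / 2 : ℝ) • ((E - E') * (E + E')⁻¹ * Matrix.diagonal ![α1, α2])

/-- The local factor at `t ≠ t0`. -/
def TT (b κ : ℝ) (M : Matrix (Fin 2) (Fin 2) ℝ) (v : Fin 2 → Fin 3 → ℂ) : ℂ :=
  Complex.exp (-((κ : ℂ) * ∑ j, ∑ k, ((M j k : ℝ) : ℂ) * hh b (v k) (v j)))

/-- The closed form, `v : T → Fin 2 → Fin 3 → ℂ`. -/
def AR (D : Dat F) (a1 a2 : F) (E E' : (F →+* ℝ) → Matrix (Fin 2) (Fin 2) ℝ) (z : ℂ × ℂ)
    (v : (F →+* ℝ) → Fin 2 → Fin 3 → ℂ) : ℂ :=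
  (∏ t ∈ Finset.univ.erase D.t0,
    TT (t D.bet) (kap D t) (PT (t a1) (t a2) (E t) (E' t)) (v t)) *
  DD (D.t0 D.bet) (kap D D.t0 * D.t0 a1) (kap D D.t0 * D.t0 a2) (hat z) (v D.t0 0) (v D.t0 1)

/-- The images of `v ∈ (K³)²` at the places. -/
def evv (D : Dat F) (v : Fin 2 → Fin 3 → KD D) : (F →+* ℝ) → Fin 2 → Fin 3 → ℂ :=
  fun t a i => ev D t (v a i)

/-- The closed form on `(K³)²`. -/
def AA (D : Dat F) (a1 a2 : F) (E E' : (F →+* ℝ) → Matrix (Fin 2) (Fin 2) ℝ) (z : ℂ × ℂ)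
    (v : Fin 2 → Fin 3 → KD D) : ℂ := AR D a1 a2 E E' z (evv D v)

/-- Schwartz-Bruhat functions of level `n` on `(K³)²`. -/
def SBK (D : Dat F) (n : ℕ) (Φ : (Fin 2 → Fin 3 → KD D) → ℂ) : Prop :=
  (∀ v, Φ v ≠ 0 → ∀ a i, RInt D ((n : KD D) * v a i)) ∧
  ∀ v w : Fin 2 → Fin 3 → KD D, (∀ a i, RInt D (w a i)) →
    Φ (fun a i => v a i + (n : KD D) * w a i) = Φ v

/-- The action of `g` on `(K³)²`. -/
def gv (D : Dat F) (g : SG D) (v : Fin 2 → Fin 3 → KD D) : Fin 2 → Fin 3 → KD D :=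
  fun a => g.1.mulVec (v a)

/-! ## the real version of the terms of the kernel -/

/-- The term of the kernel as a function of a real vector (`tm2 * wedge` at `emb`). -/
def gK (D : Dat F) (a1 a2 : F) (E : (F →+* ℝ) → Matrix (Fin 2) (Fin 2) ℝ) (z : ℂ × ℂ)
    (x : XR F (Fin 2)) : ℂ :=
  Complex.exp (-(((∑ t ∈ Finset.univ.erase D.t0, kap D t *
      (E t 0 0 * qf (t D.bet) (x t 0) (x t 0) + (E t 0 1 + E t 1 0) * qf (t D.bet) (x t 0) (x t 1)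
        + E t 1 1 * qf (t D.bet) (x t 1) (x t 1)) : ℝ) : ℂ) +
    ((kap D D.t0 * |D.t0 a1| : ℝ) : ℂ) *
      (((qf (D.t0 D.bet) (x D.t0 0) (x D.t0 0) : ℝ) : ℂ) + 2 * uu (D.t0 D.bet) (x D.t0 0) z ^ 2) +
    ((kap D D.t0 * |D.t0 a2| : ℝ) : ℂ) *
      (((qf (D.t0 D.bet) (x D.t0 1) (x D.t0 1) : ℝ) : ℂ) + 2 * uu (D.t0 D.bet) (x D.t0 1) z ^ 2)))
  * wedge (du (D.t0 D.bet) (x D.t0 0) z) (du (D.t0 D.bet) (x D.t0 1) z)

/-- `ker` is the sum of `gK`. -/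
def S_KerG : Prop :=
  ∀ (F : Type) [Field F] [NumberField F] (D : Dat F) (a1 a2 : F)
    (E : (F →+* ℝ) → Matrix (Fin 2) (Fin 2) ℝ) (ψ : (Fin 3 → F) × (Fin 3 → F) → ℂ) (z : ℂ × ℂ),
    ker D a1 a2 E ψ z = ∑' x : Fin 2 → Fin 3 → F, ψ (x 0, x 1) * gK D a1 a2 E z (emb x)

/-- Decay of the terms of the kernel. -/
def S_EDg : Prop :=
  ∀ (F : Type) [Field F] [NumberField F] (D : Dat F) (a1 a2 : F), a1 ≠ 0 → a2 ≠ 0 →
    ∀ E : (F →+* ℝ) → Matrix (Fin 2) (Fin 2) ℝ, (∀ t, t ≠ D.t0 → (E t).PosDef) →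
    ∀ z ∈ Ball D, Continuous (gK D a1 a2 E z) ∧ ED (gK D a1 a2 E z)

/-- `v = R + i √Δ Y`, `η = a h Y`: the vector `Y` attached to `η`. -/
def yy (D : Dat F) (a1 a2 : F) (η : XR F (Fin 2)) : XR F (Fin 2) :=
  fun t a i => η t a i / (t (![a1, a2] a) * ![1, 1, -(t D.bet)] i)

/-- The complex vector `R + i √Δ Y`. -/
def vv (D : Dat F) (R Y : XR F (Fin 2)) : (F →+* ℝ) → Fin 2 → Fin 3 → ℂ :=
  fun t a i => ((R t a i : ℝ) : ℂ) +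
    Complex.I * ((Real.sqrt (t D.del) : ℝ) : ℂ) * ((Y t a i : ℝ) : ℂ)

/-- Decay of the closed form. -/
def S_EDa : Prop :=
  ∀ (F : Type) [Field F] [NumberField F] (D : Dat F) (a1 a2 : F),
    0 < D.t0 a1 → 0 < D.t0 a2 → ∀ E E' : (F →+* ℝ) → Matrix (Fin 2) (Fin 2) ℝ,
    (∀ t, t ≠ D.t0 → IsMaj (t a1) (t a2) (E t)) → (∀ t, t ≠ D.t0 → IsMaj (t a1) (t a2) (E' t)) →
    ∀ z ∈ Ball D,
      ED (fun p : XR F (Fin 2) × XR F (Fin 2) => AR D a1 a2 E E' z (vv D p.1 (yy D a1 a2 p.2)))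

/-! ## the local integrals -/

/-- The exponent at `t0`, one line, real vector: `(x,x) + 2 uu²`. -/
def ex0 (b : ℝ) (x : Fin 3 → ℝ) (z : ℂ × ℂ) : ℂ := ((qf b x x : ℝ) : ℂ) + 2 * uu b x z ^ 2

/-- A component of `du`. -/
def duc (b : ℝ) (x : Fin 3 → ℝ) (z : ℂ × ℂ) (j : Fin 2) : ℂ :=
  if j = 0 then (du b x z).1 else (du b x z).2

/-- The local integral at `t0`, one line.  `sd = √Δ`, `κ = π/sd`, `c = κ α`. -/
def S_Loc0 : Prop :=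
  ∀ (b α sd : ℝ), 0 < b → 0 < α → 0 < sd → ∃ C : ℂ,
    ∀ z : ℂ × ℂ, ‖z.1‖ ^ 2 + ‖z.2‖ ^ 2 < b → ∀ (R Y : Fin 3 → ℝ) (j j' : Fin 2),
    ∫ x : Fin 3 → ℝ, (duc b (x + (1 / 2 : ℝ) • R) z j * conj (duc b (x - (1 / 2 : ℝ) • R) z j')) *
        (Complex.exp (-(((Real.pi / sd * α : ℝ) : ℂ) * ex0 b (x + (1 / 2 : ℝ) • R) z)) *
          conj (Complex.exp (-(((Real.pi / sd * α : ℝ) : ℂ) * ex0 b (x - (1 / 2 : ℝ) • R) z)))) *
        Complex.exp (-(2 * (Real.pi : ℂ) * Complex.I * ((α * qf b Y x : ℝ) : ℂ))) =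
      C * W1 b (Real.pi / sd * α) (hat z)
        (fun i => ((R i : ℝ) : ℂ) + Complex.I * (sd : ℂ) * ((Y i : ℝ) : ℂ)) (ee j) (ee j')

/-- Integrability for `S_Loc0`. -/
def S_Loc0I : Prop :=
  ∀ (b α sd : ℝ), 0 < b → 0 < α → 0 < sd →
    ∀ z : ℂ × ℂ, ‖z.1‖ ^ 2 + ‖z.2‖ ^ 2 < b → ∀ (R Y : Fin 3 → ℝ) (j j' : Fin 2),
    Integrable fun x : Fin 3 → ℝ =>
      (duc b (x + (1 / 2 : ℝ) • R) z j * conj (duc b (x - (1 / 2 : ℝ) • R) z j')) *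
        (Complex.exp (-(((Real.pi / sd * α : ℝ) : ℂ) * ex0 b (x + (1 / 2 : ℝ) • R) z)) *
          conj (Complex.exp (-(((Real.pi / sd * α : ℝ) : ℂ) * ex0 b (x - (1 / 2 : ℝ) • R) z)))) *
        Complex.exp (-(2 * (Real.pi : ℂ) * Complex.I * ((α * qf b Y x : ℝ) : ℂ)))

/-- The quadratic exponent at `t ≠ t0`. -/
def exT (b : ℝ) (E : Matrix (Fin 2) (Fin 2) ℝ) (x : Fin 2 → Fin 3 → ℝ) : ℝ :=
  E 0 0 * qf b (x 0) (x 0) + (E 0 1 + E 1 0) * qf b (x 0) (x 1) + E 1 1 * qf b (x 1) (x 1)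

/-- The local integral at `t ≠ t0`. -/
def S_LocT : Prop :=
  ∀ (b α1 α2 sd : ℝ), b < 0 → α1 ≠ 0 → α2 ≠ 0 → 0 < sd →
    ∀ E E' : Matrix (Fin 2) (Fin 2) ℝ, IsMaj α1 α2 E → IsMaj α1 α2 E' → ∃ C : ℂ,
    ∀ R Y : Fin 2 → Fin 3 → ℝ,
    ∫ x : Fin 2 → Fin 3 → ℝ,
        Complex.exp (-((Real.pi / sd * (exT b E (x + (1 / 2 : ℝ) • R) +
          exT b E' (x - (1 / 2 : ℝ) • R)) : ℝ) : ℂ)) *
        Complex.exp (-(2 * (Real.pi : ℂ) * Complex.I *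
          ((α1 * qf b (Y 0) (x 0) + α2 * qf b (Y 1) (x 1) : ℝ) : ℂ))) =
      C * TT b (Real.pi / sd) (PT α1 α2 E E')
        (fun a i => ((R a i : ℝ) : ℂ) + Complex.I * (sd : ℂ) * ((Y a i : ℝ) : ℂ))

/-- The global integral. -/
def S_LocInt : Prop :=
  ∀ (F : Type) [Field F] [NumberField F] (D : Dat F) (a1 a2 : F),
    0 < D.t0 a1 → 0 < D.t0 a2 → ∀ E E' : (F →+* ℝ) → Matrix (Fin 2) (Fin 2) ℝ,
    (∀ t, t ≠ D.t0 → IsMaj (t a1) (t a2) (E t)) → (∀ t, t ≠ D.t0 → IsMaj (t a1) (t a2) (E' t)) →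
    ∃ C : ℂ, ∀ z ∈ Ball D, ∀ R η : XR F (Fin 2),
      ft (amb (gK D a1 a2 E z) (gK D a1 a2 E' z) R) η =
        C * AR D a1 a2 E E' z (vv D R (yy D a1 a2 η))

/-! ## the formula on `(K³)²`, equivariance -/

/-- THE FORMULA. -/
def S_PF : Prop :=
  ∀ (F : Type) [Field F] [NumberField F] [NumberField.IsTotallyReal F] (D : Dat F) (a1 a2 : F),
    0 < D.t0 a1 → 0 < D.t0 a2 → ∀ ψ : (Fin 3 → F) × (Fin 3 → F) → ℂ, IsSB2 ψ →
    ∃ M : ℕ, 0 < M ∧ ∃ Φ : (Fin 2 → Fin 3 → KD D) → ℂ, SBK D M Φ ∧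
      ∀ E E' : (F →+* ℝ) → Matrix (Fin 2) (Fin 2) ℝ,
      (∀ t, t ≠ D.t0 → IsMaj (t a1) (t a2) (E t)) →
      (∀ t, t ≠ D.t0 → IsMaj (t a1) (t a2) (E' t)) → ∃ C : ℂ, ∀ z ∈ Ball D,
        ker D a1 a2 E ψ z * conj (ker D a1 a2 E' ψ z) =
          C * ∑' v : Fin 2 → Fin 3 → KD D, Φ v * AA D a1 a2 E E' z v

/-- Equivariance of the local factor at `t0`, for a complex matrix `g` of determinant one
preserving `h`. -/
def S_EqD : Prop :=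
  ∀ (b c1 c2 : ℝ) (g : Matrix (Fin 3) (Fin 3) ℂ), 0 < b → 0 < c1 → 0 < c2 → g.det = 1 →
    (∀ v w : Fin 3 → ℂ, hh b (g.mulVec v) (g.mulVec w) = hh b v w) →
    ∀ z : ℂ × ℂ, ‖z.1‖ ^ 2 + ‖z.2‖ ^ 2 < b → ∀ v1 v2 : Fin 3 → ℂ,
      DD b c1 c2 (hat (g.mulVec (hat z) 0 / g.mulVec (hat z) 2,
          g.mulVec (hat z) 1 / g.mulVec (hat z) 2)) (g.mulVec v1) (g.mulVec v2) =
        ((‖g.mulVec (hat z) 2‖ ^ 6 : ℝ) : ℂ) * DD b c1 c2 (hat z) v1 v2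

/-- Equivariance of the closed form. -/
def S_EqA : Prop :=
  ∀ (F : Type) [Field F] [NumberField F] (D : Dat F) (a1 a2 : F),
    0 < D.t0 a1 → 0 < D.t0 a2 → ∀ (E E' : (F →+* ℝ) → Matrix (Fin 2) (Fin 2) ℝ) (g : SG D),
    IsIso D g → ∀ z ∈ Ball D, ∀ v : Fin 2 → Fin 3 → KD D,
      AA D a1 a2 E E' (act D g z) (gv D g v) =
        ((‖num D g z 2‖ ^ 6 : ℝ) : ℂ) * AA D a1 a2 E E' z v

/-- Schwartz-Bruhat functions on `(K³)²` are invariant under a congruence subgroup. -/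
def S_PhiG : Prop :=
  ∀ (F : Type) [Field F] [NumberField F] (D : Dat F) (M : ℕ), 0 < M →
    ∀ Φ : (Fin 2 → Fin 3 → KD D) → ℂ, SBK D M Φ → ∀ g ∈ Gam D (M ^ 2), ∀ v, Φ (gv D g v) = Φ v

end IP
end CMT

/-!
# PROOFS (numerically verified: `S_Loc0`, `S_LocT`)

`S_KerG`: `tm2 * wedge` at `p = (x 0, x 1)` is `gK (emb x)` (unfold); `finTwoArrowEquiv`.

`S_Lsum`, `S_Lsum2`: `C/Bd.lean` (helper34: `SBg.exists_bound`, `summable_of_supp`, any finite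
index set `ι`, here `ι = k × Fin 3` resp. a sum of two copies).

`S_Pois`: `d = [F:ℚ]`, `ω_j` an integral basis (index `J`), `ω'_j` the dual basis for the trace
form: `∑_t t(ω_i) t(ω'_j) = δ_ij` (trace = sum over the real embeddings, `F` totally real), so the
square matrices `(t ω_j)`, `(t ω'_j)` are inverse transposes.  `ι = k × Fin 3 × J`,
`e u = n ∑_j t(ω_j) u(a,i,j)`, `e' u = n⁻¹ ∑_j t(ω'_j) u(a,i,j)` : linear equivalences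
`(ι → ℝ) ≃ XR`, `pr (e' m) (e u) = ∑ m u`.  A point of `(1/n)O^{3k}` is `emb x = e (m/n²)`,
`m ∈ ℤ^ι`; `φ x = f (m mod n²)`.  Write `m = r + n² q`:
`∑_x φ(x)G(x) = ∑_r f(r) ∑_q G(e(r/n² + q))`; helper31's `tPois` for `g = G ∘ e` (measure: `e` maps
Lebesgue measure to a constant multiple of the volume) gives
`∑_q g(r/n²+q) = c ∑_m exp(2πi m·r/n²) ft G (e' m)`.  So `φ'(y) = c ∑_r f(r) exp(2πi m·r/n²)` if
`emb y = e' m` for some (unique) `m ∈ ℤ^ι`, else `0`.  `SBk M φ'` with `M = n·d₀`, `d₀ ω'_j`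
integral: support clear; periodic mod `n O^{3k}`: if `y` is integral then `emb (n y) = e' m` with
`m = (Tr (n y ω_j) n)_j`, so `m ∈ n² ℤ^ι` and the exponentials do not change.
`DomPi` from `ED G` (`‖e u‖ ≥ ε₁ ‖u‖`), summability from `ED (ft G)`.

`S_Prod` (from `S_Pois`, `S_Lsum`, `S_Lsum2`): the product of the two absolutely convergent sums is
the sum over pairs `(p,p')` of `ψ p conj ψ p' G p conj G' p'`; substitute `p = S + R/2`,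
`p' = S - R/2` (an `Equiv` of pairs); `Θ_R(S) = ψ(S+R/2) conj ψ(S-R/2)` satisfies `SBk (2n)` in `S`
for fixed `R`, is `0` for all `S` unless `2n R` is integral, and `Θ_{R+2n r} = Θ_R` (as functions)
for integral `r`.  Let `M₁` be the `M` of `S_Pois` for `2n`; choose for every function `θ` with
`SBk (2n) θ` a `θ'` as in `S_Pois`, `0' = 0`; `Φ(R,y) = (Θ_R)' (y)`, `M = 2n M₁` works
(no linearity is needed: equal functions have equal choices).  For fixed `R` apply `S_Pois` to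
`G_R = amb G G' (emb R)`: continuous, `ED` (`G'` is bounded), `ED (ft G_R)` from the joint decay.
`tsum_prod` and back with the summability of `S_Lsum`, `S_Lsum2`.

`S_Gau`: choose a `B`-orthonormal basis, i.e. a linear equivalence `e : (Fin n → ℝ) ≃ E`,
`B (e x) (e y) = ∑ x_i y_i` (`LinearMap.BilinForm.exists_orthogonal_basis`, normalise); `μ` is a
constant multiple of the image of Lebesgue measure; `GaussianFourier.integral_cexp_neg_mul_sum_add`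
with `b = 1`, `c_i = -(u_i + i w_i)`.

`S_GauQ`: `g x = exp(-(B(x,x) + i B(x,w)))`, derivative in direction `k`: `-(2B(x,k)+iB(k,w)) g`.
Integration by parts (`∫ ∂_k f = 0`, Mathlib `integral_bilinear_hasFDerivAt...` or in coordinates)
for `f = g` and `f = (l' + α') g`: `∫ B(x,k) g = -(i/2) B(k,w) ∫ g`,
`∫ (l'+α') (B(x,k) + (i/2)B(k,w)) g = ½ l'(k) ∫ g`; combine with `l = B(·,k1) + iB(·,k2)`,
`∫ l' g = -(i/2) l'(w) ∫ g` (`l'` is also of the form `B(·,k') + i B(·,k'')`), `S_Gau` with `u = 0`.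
(Or in coordinates with one dimensional moments.)

`S_GauD`: `A = Mᵀ M`, substitute `y = M x`.

`S_Loc0`: `(x,y) = qf b x y` extended bilinearly to `ℂ³`, `l(x) = (x,ẑ) = ll`, `m = mm = -(ẑ,ẑ)`,
`H = HH b ẑ`, `c = π α/sd`, `v = R + i sd Y`.
(i) `q(x,y) = (x,y) + 2 Re (l(x)l(y)/m)`, `B = 2c q`.  Positive definite: with `λ = -2l(x)/m`,
`p = 2x - λẑ` one has `(p,ẑ) = 0` and `4 q(x,x) = |λ|²H + |p₀|²+|p₁|²-b|p₂|²`; Cauchy-Schwarz with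
`p₀z₁+p₁z₂ = b p₂`, `|z|² < b` (helper34's `C/Pos.lean` has it: `re_q_ge`).
`det` of the matrix of `B` is `(2c)³ b H²/|m|²`: with independent variables `z₁,z₂,w₁,w₂,b`,
`ζ = (z₁,z₂,-b)`, `ω = (w₁,w₂,-b)`, `m = b-z₁²-z₂²`, `n = b-w₁²-w₂²`:
`det(diag(1,1,-b) + ζζᵀ/m + ωωᵀ/n) = b(b-z₁w₁-z₂w₂)²/(mn)`.
(ii) put `α₀ = -hh b v ẑ/H`, `w = v - α₀ẑ` (so `hh b w ẑ = 0`), `S* = -Im(α₀ẑ + w̄)
 = sd·Y - 2 Im(α₀ ẑ)` (real vector), then `R - iS* = α₀ẑ + w̄`, and for real `x`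
`q(x,S*) = 2 Im(l(x)l(R)/m) + sd (Y,x)`.
[`l(ẑ) = -m`, `l(ẑ̄) = -H`, `l(w̄) = hh ẑ w = 0`, so `2 l(R) = -α₀m - ᾱ₀H + l(w)`; compare
`(1/i)(l(R)ẑ/m - c.c.) + sd Y = (1/2i)(w - w̄ + (l(w)-ᾱ₀H)ẑ/m - c.c.)` with
`S* + l(S*)ẑ/m + conj(l(S*)ẑ/m)`, `S* = -(1/2i)(α₀ẑ + w̄ - ᾱ₀ẑ̄ - w)`.]
(iii) exponent: `c ex0(x+R/2) + c conj ex0(x-R/2) + 2πi α (Y,x) = B(x,x) + i B(x,S*) + (c/2) q(R,R)`
and `q(R,R) + q(S*,S*) = hh v v + 2|hh v ẑ|²/H = Nz b ẑ v` (both `= hh w w + |α₀|²H`).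
(iv) `duc(x)_j · ss = ℓ_p(x) := (x,p) + l(x)(ẑ,p)/m`, `p = ee j`; `ℓ_p(ẑ) = 0`, and with
`p' = p + hh p ẑ/H ẑ`:  `ℓ_p(x) = q(x,p')` (bilinear), so in `S_GauQ` `k1 + i k2 = p'/(2c)`.
`l' = conj ℓ_{p'}` for the second index.  Centre values: `ℓ_p(R/2) - (i/2)ℓ_p(S*) = ½ℓ_p(R - iS*)
 = ½ ℓ_p(w̄) = ½ hh p w = ½ hz p v`; `conj ℓ_q(-R/2) - (i/2) (conj ℓ_q)(S*) = -½ conj (ℓ_q(R-iS*))
 = -½ hz v q`;  `½ (conj ℓ_q)(k) = (1/4c) hz p q`.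
(v) `∫ exp(-B) = √(π³/det) = (π/2c)^{3/2} |m|/(√b H)`, `|ss|² = |m|`.  So
`C = (π/2c)^{3/2}/√b`.  Verified numerically to 13 digits.

`S_LocT` (from `S_Gau`, `E = Fin 2 → Fin 3 → ℝ`): `A = E+E'`, `B' = E-E'`, `κ = π/sd`,
`B(x,y) = κ ∑ A_jk (x_j,y_k)_b` (positive definite: `A` and `(,)_b` are).  The exponent is
`B(x,x) + B(x,u) + iB(x,w) + (κ/4) A(R,R)`, `u = A⁻¹B'R`, `w = 2 sd A⁻¹ q Y`, `q = diag(α₁,α₂)`.
`B(u,u) = κ R B'A⁻¹B' R`, `B(w,w) = 4κ sd² Y qA⁻¹q Y`, `B(u,w) = 2κ sd R B'A⁻¹q Y`.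
Matrices: from `Eq⁻¹E = q = E'q⁻¹E'`: `Aq⁻¹B' = -B'q⁻¹A`, `Aq⁻¹A + B'q⁻¹B' = 4q`, hence
`B'A⁻¹q` is antisymmetric and `A - B'A⁻¹B' = 4qA⁻¹q`.  `C = ∫ exp(-B(x,x))`.

`S_LocInt` (from `S_Loc0`, `S_Loc0I`, `S_LocT`): the integrand is `∏_t f_t(x_t)`; `f_t` as in
`S_LocT` for `t ≠ t0`, at `t0` it is a sum of four products over the two lines, since
`wedge(p,q) conj wedge(p',q') = ∑ ± p_i p̄'_j q_{i'} q̄'_{j'}`;  `pr η x = ∑_t ∑_a t(a_a) (Y_a,x_a)_t`.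
`integral_fintype_prod_eq_prod` (over `t`, then over `Fin 2`).

`S_EDg`: `‖du x‖ ≤ C‖x‖` and the real part of the exponent is a positive definite quadratic form
on `XR` (helper34's `C/Term.lean`, `LB`, `re_q_ge`), so `≥ ε‖x‖²`.
`S_EDa`: `|TT| = exp(-κ∑P_jk hh(v_k,v_j))` (`T` antisymmetric: its part is imaginary),
`P = qA⁻¹q` positive definite; `Nz b ẑ v = hh w w + |α₀|²H` is positive definite; `|W1|` is
`≤ C(1+‖v‖²) exp(-(c/2)Nz)`; `(R,η) ↦ v` is real linear and injective.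

`S_PF` (from `S_Prod`, `S_LocInt`, `S_EDg`, `S_EDa`, `S_KerG`): `S_Prod` with `k = Fin 2`,
`ψ(x 0, x 1)`, gives `M₀, Φ₀`; `Φ(v) = Φ₀(re v, a h im v)` with `(a h Y)_{a,i} = a_a h_i Y_{a,i}`,
`h = (1,1,-β)`; `vv D (emb re) (emb im) = evv D v`, `yy D (emb (a h Y)) = emb Y`.
`M = M₀ d d'`, `d/(a_a h_i)`, `d' a_a h_i` integral.

`S_EqD`: for fixed `g, z`: `w = gẑ`, `(gz)^ = w/w₂`.  `W1` is linear in `p`, conjugate linear in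
`p'`, unchanged under `p → p + μ z`, `W1(λz, ...) = |λ|⁻² W1(z, ...)`, invariant under `g` acting on
`z, v, p, p'` (`HH`, `hz`, `Nz` are expressed by `hh`).  `g (ee i) = g₂ᵢ (gz)^ + w₂ ∑_j J_ji ee j`,
`J_ji = (g_ji w₂ - w_j g₂ᵢ)/w₂²`, so `W1(v;ẑ,ee i,ee k) = ∑ J_ji J̄_lk W1(gv;(gz)^,ee j,ee l)`;
`DD` is multiplied by `|det J|²`, `det J = det g/w₂³`.
`S_EqA` (from `S_EqD`): `IsIso` gives invariance of `hh (t β)` under `mt D t g` at every place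
(helper1's `Br.lean`); `evv D (gv D g v) t = mt D t g (evv D v t)`.
`S_PhiG`: `g = 1 + M² X`, `v` in the support: `gv = v + M·(X (M v))`, `X(Mv)` integral; if
`Φ v = 0` apply this to `g⁻¹` and `gv`.

FINAL `S_Inv2` (from `S_PF`, `S_EqA`, `S_PhiG`): `n = M²`; `v ↦ gv` is a bijection, reorder the sum.
-/
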