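import Pool.Agent.Lib.CMT.I.Def

/-!
# PROJECT CMT, part I: exponential decay of the closed form (`S_EDa`)
-/

open scoped BigOperators ComplexConjugate
open MeasureTheory

noncomputable section

namespace CMT
namespace IP

namespace EDaAux

/-! ### Positive homogeneous functions of degree two -/

theorem hom_lb {E : Type} [NormedAddCommGroup E] [NormedSpace ℝ E] [FiniteDimensional ℝ E]
    (f : E → ℝ) (hc : Continuous f) (hf : ∀ (c : ℝ) (x : E), f (c • x) = c ^ 2 * f x)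
    (hp : ∀ x, x ≠ 0 → 0 < f x) : ∃ ε : ℝ, 0 < ε ∧ ∀ x, ε * ‖x‖ ^ 2 ≤ f x := by
  have : ProperSpace E := FiniteDimensional.proper_real E
  obtain ⟨ε, hε, h⟩ := (isCompact_sphere (0 : E) 1).exists_forall_le' hc.continuousOn (a := 0)
    (fun x hx => hp x (ne_zero_of_mem_unit_sphere ⟨x, hx⟩))
  refine ⟨ε, hε, fun x => ?_⟩
  by_cases hx : x = 0
  · have h0 := hf 0 x
    rw [zero_smul, zero_pow two_ne_zero, zero_mul] at h0
    rw [hx, h0, norm_zero, zero_pow two_ne_zero, mul_zero]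
  · have hn : ‖x‖ ≠ 0 := norm_ne_zero_iff.2 hx
    have h1 := h (‖x‖⁻¹ • x) (by
      rw [mem_sphere_zero_iff_norm, norm_smul, norm_inv, norm_norm, inv_mul_cancel₀ hn])
    have h2 : f x = ‖x‖ ^ 2 * f (‖x‖⁻¹ • x) := by
      rw [← hf, smul_smul, mul_inv_cancel₀ hn, one_smul]
    rw [h2, mul_comm]
    exact mul_le_mul_of_nonneg_left h1 (by positivity)

/-- The growth estimate. -/
theorem gauss_le {ε s : ℝ} (hε : 0 < ε) (hs : 0 ≤ s) :
    (1 + s ^ 2) ^ 2 * Real.exp (-(ε * s ^ 2)) ≤ 4 * Real.exp (9 / (4 * ε)) * Real.exp (-(1 * s)) := by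
  have h1 : 1 + s ^ 2 ≤ 2 * Real.exp s := by
    have h := Real.quadratic_le_exp_of_nonneg hs
    nlinarith
  have h2 : (1 + s ^ 2) ^ 2 ≤ (2 * Real.exp s) ^ 2 := pow_le_pow_left₀ (by positivity) h1 2
  have h3 : (2 * Real.exp s) ^ 2 = 4 * Real.exp (2 * s) := by
    rw [mul_pow, ← Real.exp_nat_mul]
    norm_num
  rw [h3] at h2
  have h4 : 2 * s - ε * s ^ 2 ≤ 9 / (4 * ε) - 1 * s := by
    have h5 : 3 * s - ε * s ^ 2 ≤ 9 / (4 * ε) := by
      rw [le_div_iff₀ (by positivity)]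
      nlinarith [sq_nonneg (2 * ε * s - 3)]
    linarith
  calc (1 + s ^ 2) ^ 2 * Real.exp (-(ε * s ^ 2))
      ≤ 4 * Real.exp (2 * s) * Real.exp (-(ε * s ^ 2)) :=
        mul_le_mul_of_nonneg_right h2 (Real.exp_pos _).le
    _ = 4 * Real.exp (2 * s - ε * s ^ 2) := by rw [mul_assoc, ← Real.exp_add]; rfl
    _ ≤ 4 * Real.exp (9 / (4 * ε) - 1 * s) :=
        mul_le_mul_of_nonneg_left (Real.exp_le_exp.2 h4) (by norm_num)
    _ = 4 * Real.exp (9 / (4 * ε)) * Real.exp (-(1 * s)) := by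
        rw [mul_assoc, ← Real.exp_add]; rfl

/-! ### The places `t ≠ t0` -/

/-- The quadratic form of a `2 × 2` matrix. -/
def mq (M : Matrix (Fin 2) (Fin 2) ℝ) (x y : ℝ) : ℝ :=
  M 0 0 * x ^ 2 + (M 0 1 + M 1 0) * (x * y) + M 1 1 * y ^ 2

/-- The matrix `P - T/2` is positive definite. -/
theorem mq_pos {α1 α2 : ℝ} (h1 : α1 ≠ 0) (h2 : α2 ≠ 0) {E E' : Matrix (Fin 2) (Fin 2) ℝ}
    (hE : IsMaj α1 α2 E) (hE' : IsMaj α1 α2 E') (x : Fin 2 → ℝ) (hx : x ≠ 0) :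
    0 < mq (PT α1 α2 E E') (x 0) (x 1) := by
  have hA : (E + E').PosDef := hE.1.add hE'.1
  have hdet : IsUnit (E + E').det := hA.det_pos.ne'.isUnit
  have e10 : E 1 0 = E 0 1 := by
    have h := hE.1.isHermitian.apply 0 1
    simpa using h
  have f10 : E' 1 0 = E' 0 1 := by
    have h := hE'.1.isHermitian.apply 0 1
    simpa using h
  have r1 := hE.2
  have r2 := hE'.2
  have a00 := congrFun (congrFun r1 0) 0
  have a01 := congrFun (congrFun r1 0) 1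
  have a11 := congrFun (congrFun r1 1) 1
  have b00 := congrFun (congrFun r2 0) 0
  have b01 := congrFun (congrFun r2 0) 1
  have b11 := congrFun (congrFun r2 1) 1
  simp only [Matrix.mul_apply, Fin.sum_univ_two, Matrix.diagonal_apply_eq, Matrix.cons_val_zero,
    Matrix.cons_val_one, Matrix.diagonal_apply_ne _ (zero_ne_one' (Fin 2)),
    Matrix.diagonal_apply_ne _ (one_ne_zero' (Fin 2)), mul_zero, add_zero, zero_add, e10, f10]
    at a00 a01 a11 b00 b01 b11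
  set q : Matrix (Fin 2) (Fin 2) ℝ := Matrix.diagonal ![α1, α2] with hq
  set y : Fin 2 → ℝ := (E + E')⁻¹.mulVec (q.mulVec x) with hy
  have hAy : (E + E').mulVec y = q.mulVec x := by
    rw [hy, Matrix.mulVec_mulVec, Matrix.mul_nonsing_inv _ hdet, Matrix.one_mulVec]
  have hy0 : y ≠ 0 := by
    intro h
    rw [h, Matrix.mulVec_zero] at hAy
    apply hx
    funext i
    have h3 := (congrFun hAy i).symm
    rw [hq, Matrix.mulVec_diagonal] at h3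
    fin_cases i
    · exact (mul_eq_zero.1 h3).resolve_left h1
    · exact (mul_eq_zero.1 h3).resolve_left h2
  have hpos := hA.dotProduct_mulVec_pos hy0
  have hM : (PT α1 α2 E E').mulVec x = q.mulVec y - (1 / 2 : ℝ) • (E - E').mulVec y := by
    unfold PT
    rw [Matrix.sub_mulVec, Matrix.smul_mulVec, ← Matrix.mulVec_mulVec, ← Matrix.mulVec_mulVec,
      ← Matrix.mulVec_mulVec, ← Matrix.mulVec_mulVec]
  have c0 := congrFun hAy 0
  have c1 := congrFun hAy 1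
  have d0 := congrFun hM 0
  have d1 := congrFun hM 1
  rw [hq, Matrix.mulVec_diagonal] at c0 c1
  rw [Pi.sub_apply, Pi.smul_apply, hq, Matrix.mulVec_diagonal] at d0 d1
  simp only [Matrix.mulVec, dotProduct, Fin.sum_univ_two, Matrix.add_apply, Matrix.sub_apply,
    Matrix.cons_val_zero, Matrix.cons_val_one, smul_eq_mul, star_trivial, e10, f10, Pi.star_apply]
    at c0 c1 d0 d1 hpos
  have e1 : mq (PT α1 α2 E E') (x 0) (x 1) =
      x 0 * (PT α1 α2 E E' 0 0 * x 0 + PT α1 α2 E E' 0 1 * x 1) +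
        x 1 * (PT α1 α2 E E' 1 0 * x 0 + PT α1 α2 E E' 1 1 * x 1) := by
    unfold mq
    ring
  rw [e1, d0, d1]
  have g0 : x 0 = α1⁻¹ * ((E 0 0 + E' 0 0) * y 0 + (E 0 1 + E' 0 1) * y 1) := by
    rw [c0, ← mul_assoc, inv_mul_cancel₀ h1, one_mul]
  have g1 : x 1 = α2⁻¹ * ((E 0 1 + E' 0 1) * y 0 + (E 1 1 + E' 1 1) * y 1) := by
    rw [c1, ← mul_assoc, inv_mul_cancel₀ h2, one_mul]
  have key : x 0 * ((E 0 0 - E' 0 0) * y 0 + (E 0 1 - E' 0 1) * y 1) +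
      x 1 * ((E 0 1 - E' 0 1) * y 0 + (E 1 1 - E' 1 1) * y 1) = 0 := by
    rw [g0, g1]
    linear_combination y 0 ^ 2 * (a00 - b00) + 2 * (y 0 * y 1) * (a01 - b01) + y 1 ^ 2 * (a11 - b11)
  have key2 : x 0 * (α1 * y 0) + x 1 * (α2 * y 1) =
      y 0 * ((E 0 0 + E' 0 0) * y 0 + (E 0 1 + E' 0 1) * y 1) +
        y 1 * ((E 0 1 + E' 0 1) * y 0 + (E 1 1 + E' 1 1) * y 1) := by
    rw [c0, c1]
    ring
  have e2 : x 0 * (α1 * y 0 - 1 / 2 * ((E 0 0 - E' 0 0) * y 0 + (E 0 1 - E' 0 1) * y 1)) +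
      x 1 * (α2 * y 1 - 1 / 2 * ((E 0 1 - E' 0 1) * y 0 + (E 1 1 - E' 1 1) * y 1)) =
      y 0 * ((E 0 0 + E' 0 0) * y 0 + (E 0 1 + E' 0 1) * y 1) +
        y 1 * ((E 0 1 + E' 0 1) * y 0 + (E 1 1 + E' 1 1) * y 1) := by
    linear_combination key2 - 1 / 2 * key
  rw [e2]
  exact hpos

/-- The exponent at `t ≠ t0`. -/
def QT (b : ℝ) (M : Matrix (Fin 2) (Fin 2) ℝ) (v : Fin 2 → Fin 3 → ℂ) : ℝ :=
  (∑ j, ∑ k, ((M j k : ℝ) : ℂ) * hh b (v k) (v j)).re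

theorem QT_eq (b : ℝ) (M : Matrix (Fin 2) (Fin 2) ℝ) (v : Fin 2 → Fin 3 → ℂ) :
    QT b M v = (mq M (v 0 0).re (v 1 0).re + mq M (v 0 0).im (v 1 0).im) +
      (mq M (v 0 1).re (v 1 1).re + mq M (v 0 1).im (v 1 1).im) +
      (-b) * (mq M (v 0 2).re (v 1 2).re + mq M (v 0 2).im (v 1 2).im) := by
  unfold QT hh mq
  simp only [Fin.sum_univ_two, Complex.add_re, Complex.mul_re, Complex.sub_re, Complex.ofReal_re,
    Complex.ofReal_im, Complex.conj_re, Complex.conj_im, zero_mul, sub_zero, Complex.mul_im,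
    Complex.add_im, Complex.sub_im]
  ring

theorem QT_pos {b : ℝ} (hb : b < 0) {M : Matrix (Fin 2) (Fin 2) ℝ}
    (hM : ∀ x : Fin 2 → ℝ, x ≠ 0 → 0 < mq M (x 0) (x 1)) (v : Fin 2 → Fin 3 → ℂ) :
    0 ≤ QT b M v ∧ (v ≠ 0 → 0 < QT b M v) := by
  have h0 : ∀ x y : ℝ, 0 ≤ mq M x y := by
    intro x y
    by_cases h : (![x, y] : Fin 2 → ℝ) = 0
    · have hx : x = 0 := congrFun h 0
      have hy : y = 0 := congrFun h 1
      rw [hx, hy]
      unfold mq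
      simp
    · exact (hM _ h).le
  have h1 : ∀ x y : ℝ, (x ≠ 0 ∨ y ≠ 0) → 0 < mq M x y := by
    intro x y h
    refine hM ![x, y] fun h2 => ?_
    rcases h with h | h
    · exact h (congrFun h2 0)
    · exact h (congrFun h2 1)
  have h2 : ∀ i : Fin 3, 0 ≤ mq M (v 0 i).re (v 1 i).re + mq M (v 0 i).im (v 1 i).im := fun i =>
    add_nonneg (h0 _ _) (h0 _ _)
  have h3 : ∀ i : Fin 3, (v 0 i ≠ 0 ∨ v 1 i ≠ 0) →
      0 < mq M (v 0 i).re (v 1 i).re + mq M (v 0 i).im (v 1 i).im := by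
    intro i hi
    by_cases h4 : (v 0 i).re ≠ 0 ∨ (v 1 i).re ≠ 0
    · exact add_pos_of_pos_of_nonneg (h1 _ _ h4) (h0 _ _)
    · refine add_pos_of_nonneg_of_pos (h0 _ _) (h1 _ _ ?_)
      push Not at h4
      rcases hi with hi | hi
      · exact Or.inl fun h5 => hi (Complex.ext h4.1 h5)
      · exact Or.inr fun h5 => hi (Complex.ext h4.2 h5)
  rw [QT_eq]
  have g0 := h2 0
  have g1 := h2 1
  have g2 := h2 2
  have hb' : 0 < -b := by linarith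
  refine ⟨add_nonneg (add_nonneg g0 g1) (mul_nonneg hb'.le g2), fun hv => ?_⟩
  have h5 : ∃ i : Fin 3, v 0 i ≠ 0 ∨ v 1 i ≠ 0 := by
    by_contra h
    push Not at h
    apply hv
    funext a i
    fin_cases a
    · exact (h i).1
    · exact (h i).2
  obtain ⟨i, hi⟩ := h5
  have g := h3 i hi
  fin_cases i
  · exact add_pos_of_pos_of_nonneg (add_pos_of_pos_of_nonneg g g1) (mul_nonneg hb'.le g2)
  · exact add_pos_of_pos_of_nonneg (add_pos_of_nonneg_of_pos g0 g) (mul_nonneg hb'.le g2)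
  · exact add_pos_of_nonneg_of_pos (add_nonneg g0 g1) (mul_pos hb' g)

theorem QT_smul (b : ℝ) (M : Matrix (Fin 2) (Fin 2) ℝ) (c : ℝ) (v : Fin 2 → Fin 3 → ℂ) :
    QT b M (c • v) = c ^ 2 * QT b M v := by
  have h : ∀ a i, (c • v) a i = (c : ℂ) * v a i := fun a i => by
    rw [Pi.smul_apply, Pi.smul_apply, Complex.real_smul]
  rw [QT_eq, QT_eq]
  simp only [h, Complex.re_ofReal_mul, Complex.im_ofReal_mul]
  unfold mq
  ring

theorem norm_TT (b κ : ℝ) (M : Matrix (Fin 2) (Fin 2) ℝ) (v : Fin 2 → Fin 3 → ℂ) :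
    ‖TT b κ M v‖ = Real.exp (-(κ * QT b M v)) := by
  unfold TT QT
  rw [Complex.norm_exp, Complex.neg_re, Complex.re_ofReal_mul]

/-! ### The place `t0` -/

theorem HH_hat {b : ℝ} {z : ℂ × ℂ} : HH b (hat z) = b - (‖z.1‖ ^ 2 + ‖z.2‖ ^ 2) := by
  unfold HH hat
  simp only [Matrix.cons_val_zero, Matrix.cons_val_one, Matrix.cons_val, norm_one]
  ring

theorem Nz_pos {b : ℝ} {z : ℂ × ℂ} (hz : ‖z.1‖ ^ 2 + ‖z.2‖ ^ 2 < b) (v : Fin 3 → ℂ) :
    0 ≤ Nz b (hat z) v ∧ (v ≠ 0 → 0 < Nz b (hat z) v) := by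
  have hb : 0 < b := lt_of_le_of_lt (by positivity) hz
  set r : ℝ := ‖z.1‖ ^ 2 + ‖z.2‖ ^ 2 with hr
  have hr0 : 0 ≤ r := by positivity
  set H : ℝ := b - r with hH
  have hH0 : 0 < H := by rw [hH]; linarith
  set n : ℝ := ‖v 0‖ ^ 2 + ‖v 1‖ ^ 2 with hn
  have hn0 : 0 ≤ n := by positivity
  set s : ℂ := v 0 * conj z.1 + v 1 * conj z.2 with hs
  set δ : ℂ := s - b * v 2 with hδ
  have hhh : hh b v (hat z) = δ := by
    unfold hh hat
    rw [hδ, hs]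
    simp only [Matrix.cons_val_zero, Matrix.cons_val_one, Matrix.cons_val, map_one, mul_one]
  have cs : ‖s‖ ^ 2 ≤ r * n := by
    have h : ‖s‖ ^ 2 + ‖v 0 * z.2 - v 1 * z.1‖ ^ 2 = r * n := by
      rw [hs, hr, hn]
      simp only [← Complex.normSq_eq_norm_sq, Complex.normSq_apply, Complex.add_re, Complex.add_im,
        Complex.sub_re, Complex.sub_im, Complex.mul_re, Complex.mul_im, Complex.conj_re,
        Complex.conj_im]
      ring
    have := sq_nonneg ‖v 0 * z.2 - v 1 * z.1‖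
    linarith
  -- the estimate for `b v 2 = s - δ`
  set l : ℝ := H / (r + b / 2) with hl
  have hl0 : 0 < l := by rw [hl]; positivity
  have tri : l * (b ^ 2 * ‖v 2‖ ^ 2) ≤ l * (1 + l) * ‖s‖ ^ 2 + (l + 1) * ‖δ‖ ^ 2 := by
    have h : l * (b ^ 2 * ‖v 2‖ ^ 2) + ‖(l : ℂ) * s + δ‖ ^ 2 =
        l * (1 + l) * ‖s‖ ^ 2 + (l + 1) * ‖δ‖ ^ 2 := by
      have h2 : b ^ 2 * ‖v 2‖ ^ 2 = ‖s - δ‖ ^ 2 := by
        rw [hδ, sub_sub_cancel, norm_mul, mul_pow, Complex.norm_real, Real.norm_eq_abs, sq_abs]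
      rw [h2]
      simp only [← Complex.normSq_eq_norm_sq, Complex.normSq_apply, Complex.add_re, Complex.add_im,
        Complex.sub_re, Complex.sub_im, Complex.re_ofReal_mul, Complex.im_ofReal_mul]
      ring
    have := sq_nonneg ‖(l : ℂ) * s + δ‖
    linarith
  have hN : Nz b (hat z) v = n - b * ‖v 2‖ ^ 2 + 2 * ‖δ‖ ^ 2 / H := by
    unfold Nz
    rw [hhh, HH_hat]
  have hlow : H * n / (b + 2 * r) + ‖δ‖ ^ 2 / (2 * H) ≤ Nz b (hat z) v := by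
    rw [hN]
    have hbr : 0 < b + 2 * r := by positivity
    have hl2 : l = 2 * H / (b + 2 * r) := by
      rw [hl]
      field_simp
      ring
    have e1 : b ^ 2 * ‖v 2‖ ^ 2 ≤ (1 + l) * (r * n) + (1 + 1 / l) * ‖δ‖ ^ 2 := by
      have h1 : b ^ 2 * ‖v 2‖ ^ 2 ≤ (1 + l) * ‖s‖ ^ 2 + (1 + 1 / l) * ‖δ‖ ^ 2 := by
        have h2 : l * ((1 + l) * ‖s‖ ^ 2 + (1 + 1 / l) * ‖δ‖ ^ 2) =
            l * (1 + l) * ‖s‖ ^ 2 + (l + 1) * ‖δ‖ ^ 2 := by
          field_simp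
        rw [← h2] at tri
        exact le_of_mul_le_mul_left tri hl0
      have h3 := mul_le_mul_of_nonneg_left cs (by positivity : 0 ≤ 1 + l)
      linarith
    have e2 : b * (n - b * ‖v 2‖ ^ 2 + 2 * ‖δ‖ ^ 2 / H) ≥
        b * n - ((1 + l) * (r * n) + (1 + 1 / l) * ‖δ‖ ^ 2) + b * (2 * ‖δ‖ ^ 2 / H) := by
      nlinarith
    have e3 : b * n - ((1 + l) * (r * n) + (1 + 1 / l) * ‖δ‖ ^ 2) + b * (2 * ‖δ‖ ^ 2 / H) =
        b * (H * n / (b + 2 * r) + ‖δ‖ ^ 2 / (2 * H)) := by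
      rw [hl2]
      have hbH : b = H + r := by rw [hH]; ring
      have hH1 : H ≠ 0 := hH0.ne'
      have hH2 : b + 2 * r ≠ 0 := hbr.ne'
      rw [hbH] at hH2 ⊢
      field_simp
      ring
    rw [e3] at e2
    exact le_of_mul_le_mul_left e2 hb
  have hbr : 0 < b + 2 * r := by positivity
  refine ⟨le_trans (by positivity) hlow, fun hv => lt_of_lt_of_le ?_ hlow⟩
  by_cases h0 : n = 0
  · have hv0 : v 0 = 0 := by
      have : ‖v 0‖ ^ 2 = 0 := by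
        have := sq_nonneg ‖v 1‖
        have := sq_nonneg ‖v 0‖
        linarith
      exact norm_eq_zero.1 (pow_eq_zero_iff two_ne_zero |>.1 this)
    have hv1 : v 1 = 0 := by
      have : ‖v 1‖ ^ 2 = 0 := by
        have := sq_nonneg ‖v 1‖
        have := sq_nonneg ‖v 0‖
        linarith
      exact norm_eq_zero.1 (pow_eq_zero_iff two_ne_zero |>.1 this)
    have hδ0 : δ ≠ 0 := by
      intro h
      apply hv
      rw [hδ, hs, hv0, hv1, zero_mul, zero_mul, zero_add, zero_sub, neg_eq_zero] at h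
      have hv2 : v 2 = 0 := (mul_eq_zero.1 h).resolve_left (by exact_mod_cast hb.ne')
      funext i
      fin_cases i
      · exact hv0
      · exact hv1
      · exact hv2
    have : 0 < ‖δ‖ := norm_pos_iff.2 hδ0
    positivity
  · have : 0 < n := lt_of_le_of_ne hn0 (Ne.symm h0)
    positivity

theorem Nz_smul (b : ℝ) (z : Fin 3 → ℂ) (c : ℝ) (v : Fin 3 → ℂ) :
    Nz b z (c • v) = c ^ 2 * Nz b z v := by
  have h : ∀ i, (c • v) i = (c : ℂ) * v i := fun i => by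
    rw [Pi.smul_apply, Complex.real_smul]
  have h2 : hh b (c • v) z = c * hh b v z := by
    unfold hh
    rw [h, h, h]
    ring
  unfold Nz
  rw [h2, h, h, h]
  simp only [norm_mul, Complex.norm_real, Real.norm_eq_abs, mul_pow, sq_abs]
  ring

theorem hh_le (b : ℝ) (p q : Fin 3 → ℂ) : ‖hh b p q‖ ≤ (2 + |b|) * ‖p‖ * ‖q‖ := by
  have h : ∀ i, ‖p i‖ * ‖q i‖ ≤ ‖p‖ * ‖q‖ := fun i =>
    mul_le_mul (norm_le_pi_norm p i) (norm_le_pi_norm q i) (norm_nonneg _) (norm_nonneg _)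
  unfold hh
  refine le_trans (norm_sub_le _ _) (le_trans (add_le_add (norm_add_le _ _) le_rfl) ?_)
  rw [norm_mul, norm_mul, norm_mul, norm_mul, RCLike.norm_conj, RCLike.norm_conj, RCLike.norm_conj,
    Complex.norm_real, Real.norm_eq_abs]
  have h2 := mul_le_mul_of_nonneg_left (h 2) (abs_nonneg b)
  nlinarith [h 0, h 1]

theorem hz_le (b : ℝ) (z : Fin 3 → ℂ) : ∃ C : ℝ, 0 ≤ C ∧
    ∀ p q : Fin 3 → ℂ, ‖hz b z p q‖ ≤ C * ‖p‖ * ‖q‖ := by
  refine ⟨(2 + |b|) + (2 + |b|) ^ 2 * ‖z‖ ^ 2 / |HH b z|, by positivity, fun p q => ?_⟩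
  unfold hz
  refine le_trans (norm_add_le _ _) ?_
  rw [norm_div, norm_mul, Complex.norm_real, Real.norm_eq_abs]
  have h1 := hh_le b p q
  have h2 : ‖hh b p z‖ * ‖hh b z q‖ ≤ ((2 + |b|) * ‖p‖ * ‖z‖) * ((2 + |b|) * ‖z‖ * ‖q‖) :=
    mul_le_mul (hh_le b p z) (hh_le b z q) (norm_nonneg _) (by positivity)
  have h3 := div_le_div_of_nonneg_right h2 (abs_nonneg (HH b z))
  have e : ((2 + |b|) + (2 + |b|) ^ 2 * ‖z‖ ^ 2 / |HH b z|) * ‖p‖ * ‖q‖ =
      (2 + |b|) * ‖p‖ * ‖q‖ + ((2 + |b|) * ‖p‖ * ‖z‖) * ((2 + |b|) * ‖z‖ * ‖q‖) / |HH b z| := by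
    ring
  rw [e]
  exact add_le_add h1 h3

theorem ee_le (j : Fin 2) : ‖ee j‖ ≤ 1 := by
  rw [pi_norm_le_iff_of_nonneg zero_le_one]
  intro i
  unfold ee
  fin_cases j <;> fin_cases i <;> simp

theorem W1_le (b c : ℝ) (hc : 0 < c) (z : Fin 3 → ℂ) : ∃ K : ℝ, 0 ≤ K ∧
    ∀ (v : Fin 3 → ℂ) (j j' : Fin 2),
      ‖W1 b c z v (ee j) (ee j')‖ ≤ K * (1 + ‖v‖ ^ 2) * Real.exp (-(c / 2 * Nz b z v)) := by
  obtain ⟨C, hC, h⟩ := hz_le b z
  refine ⟨|HH b z|⁻¹ * (C / (4 * c) + C ^ 2 / 4), by positivity, fun v j j' => ?_⟩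
  unfold W1
  rw [norm_mul, norm_mul, Complex.norm_exp, Complex.neg_re, Complex.ofReal_re, norm_inv,
    Complex.norm_real, Real.norm_eq_abs]
  refine mul_le_mul_of_nonneg_right ?_ (Real.exp_pos _).le
  rw [mul_assoc |HH b z|⁻¹]
  refine mul_le_mul_of_nonneg_left ?_ (by positivity)
  refine le_trans (norm_sub_le _ _) ?_
  have n1 := ee_le j
  have n2 := ee_le j'
  have m1 : ‖hz b z (ee j) (ee j')‖ ≤ C := by
    refine le_trans (h _ _) ?_
    have h1 : C * ‖ee j‖ ≤ C * 1 := mul_le_mul_of_nonneg_left n1 hC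
    have h2 : C * ‖ee j‖ * ‖ee j'‖ ≤ C * 1 * 1 := mul_le_mul h1 n2 (norm_nonneg _) (by positivity)
    linarith
  have m2 : ‖hz b z (ee j) v‖ ≤ C * ‖v‖ := by
    refine le_trans (h _ _) ?_
    have h1 : C * ‖ee j‖ ≤ C * 1 := mul_le_mul_of_nonneg_left n1 hC
    have h2 := mul_le_mul_of_nonneg_right h1 (norm_nonneg v)
    linarith
  have m3 : ‖hz b z v (ee j')‖ ≤ C * ‖v‖ := by
    refine le_trans (h _ _) ?_
    have h1 := mul_le_mul_of_nonneg_left n2 (by positivity : 0 ≤ C * ‖v‖)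
    linarith
  have p1 : ‖hz b z (ee j) (ee j') / (4 * (c : ℂ))‖ ≤ C / (4 * c) := by
    rw [norm_div, norm_mul, Complex.norm_real, Real.norm_eq_abs, abs_of_pos hc]
    have : ‖(4 : ℂ)‖ = 4 := by norm_num
    rw [this]
    exact div_le_div_of_nonneg_right m1 (by positivity)
  have p2 : ‖hz b z (ee j) v * hz b z v (ee j') / 4‖ ≤ C ^ 2 / 4 * ‖v‖ ^ 2 := by
    rw [norm_div, norm_mul]
    have : ‖(4 : ℂ)‖ = 4 := by norm_num
    rw [this]
    have h1 : ‖hz b z (ee j) v‖ * ‖hz b z v (ee j')‖ ≤ (C * ‖v‖) * (C * ‖v‖) :=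
      mul_le_mul m2 m3 (norm_nonneg _) (by positivity)
    have h2 := div_le_div_of_nonneg_right h1 (by norm_num : (0 : ℝ) ≤ 4)
    have e : C ^ 2 / 4 * ‖v‖ ^ 2 = (C * ‖v‖) * (C * ‖v‖) / 4 := by ring
    rw [e]
    exact h2
  have q1 : 0 ≤ C / (4 * c) * ‖v‖ ^ 2 := by positivity
  have q2 : 0 ≤ C ^ 2 / 4 := by positivity
  calc _ ≤ C / (4 * c) + C ^ 2 / 4 * ‖v‖ ^ 2 := add_le_add p1 p2
    _ ≤ (C / (4 * c) + C ^ 2 / 4) * (1 + ‖v‖ ^ 2) := by nlinarith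

theorem DD_le (b c1 c2 : ℝ) (h1 : 0 < c1) (h2 : 0 < c2) (z : Fin 3 → ℂ) : ∃ K : ℝ, 0 ≤ K ∧
    ∀ v1 v2 : Fin 3 → ℂ, ‖DD b c1 c2 z v1 v2‖ ≤ K * (1 + ‖v1‖ ^ 2) * (1 + ‖v2‖ ^ 2) *
      Real.exp (-(c1 / 2 * Nz b z v1 + c2 / 2 * Nz b z v2)) := by
  obtain ⟨K1, hK1, g1⟩ := W1_le b c1 h1 z
  obtain ⟨K2, hK2, g2⟩ := W1_le b c2 h2 z
  refine ⟨4 * (K1 * K2), by positivity, fun v1 v2 => ?_⟩
  have key : ∀ i i' j j' : Fin 2, ‖W1 b c1 z v1 (ee i) (ee i') * W1 b c2 z v2 (ee j) (ee j')‖ ≤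
      K1 * K2 * (1 + ‖v1‖ ^ 2) * (1 + ‖v2‖ ^ 2) *
        Real.exp (-(c1 / 2 * Nz b z v1 + c2 / 2 * Nz b z v2)) := by
    intro i i' j j'
    rw [norm_mul]
    refine le_trans (mul_le_mul (g1 v1 i i') (g2 v2 j j') (norm_nonneg _) (by positivity)) ?_
    rw [neg_add, Real.exp_add]
    apply le_of_eq
    ring
  unfold DD
  have t1 := key 0 0 1 1
  have t2 := key 0 1 1 0
  have t3 := key 1 0 0 1
  have t4 := key 1 1 0 0
  refine le_trans (norm_add_le _ _) (le_trans (add_le_add (norm_sub_le _ _) le_rfl) ?_)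
  refine le_trans (add_le_add (add_le_add (norm_sub_le _ _) le_rfl) le_rfl) ?_
  linarith

variable {F : Type} [Field F] [NumberField F]

/-- The vector `v` as a linear function of `(R, η)`. -/
def VL (D : Dat F) (a1 a2 : F) :
    (XR F (Fin 2) × XR F (Fin 2)) →ₗ[ℝ] ((F →+* ℝ) → Fin 2 → Fin 3 → ℂ) where
  toFun p := vv D p.1 (yy D a1 a2 p.2)
  map_add' p q := by
    funext t a i
    change ((p.1 t a i + q.1 t a i : ℝ) : ℂ) + Complex.I * ((Real.sqrt (t D.del) : ℝ) : ℂ) *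
        (((p.2 t a i + q.2 t a i) / (t (![a1, a2] a) * ![1, 1, -(t D.bet)] i) : ℝ) : ℂ) =
      (((p.1 t a i : ℝ) : ℂ) + Complex.I * ((Real.sqrt (t D.del) : ℝ) : ℂ) *
        ((p.2 t a i / (t (![a1, a2] a) * ![1, 1, -(t D.bet)] i) : ℝ) : ℂ)) +
      (((q.1 t a i : ℝ) : ℂ) + Complex.I * ((Real.sqrt (t D.del) : ℝ) : ℂ) *
        ((q.2 t a i / (t (![a1, a2] a) * ![1, 1, -(t D.bet)] i) : ℝ) : ℂ))
    rw [add_div, Complex.ofReal_add, Complex.ofReal_add]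
    ring
  map_smul' c p := by
    funext t a i
    change ((c * p.1 t a i : ℝ) : ℂ) + Complex.I * ((Real.sqrt (t D.del) : ℝ) : ℂ) *
        (((c * p.2 t a i) / (t (![a1, a2] a) * ![1, 1, -(t D.bet)] i) : ℝ) : ℂ) =
      c • (((p.1 t a i : ℝ) : ℂ) + Complex.I * ((Real.sqrt (t D.del) : ℝ) : ℂ) *
        ((p.2 t a i / (t (![a1, a2] a) * ![1, 1, -(t D.bet)] i) : ℝ) : ℂ))
    rw [mul_div_assoc, Complex.ofReal_mul, Complex.ofReal_mul, Complex.real_smul]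
    ring

theorem VL_apply (D : Dat F) (a1 a2 : F) (p : XR F (Fin 2) × XR F (Fin 2)) :
    VL D a1 a2 p = vv D p.1 (yy D a1 a2 p.2) := rfl

theorem bet_ne (D : Dat F) (t : F →+* ℝ) : t D.bet ≠ 0 := by
  by_cases h : t = D.t0
  · rw [h]; exact D.bet_pos.ne'
  · exact (D.bet_neg t h).ne

theorem VL_inj (D : Dat F) {a1 a2 : F} (h1 : a1 ≠ 0) (h2 : a2 ≠ 0)
    {p : XR F (Fin 2) × XR F (Fin 2)} (hp : p ≠ 0) : VL D a1 a2 p ≠ 0 := by
  intro h
  apply hp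
  have key : ∀ t a i, p.1 t a i = 0 ∧ p.2 t a i = 0 := by
    intro t a i
    have h3 : ((p.1 t a i : ℝ) : ℂ) + Complex.I * ((Real.sqrt (t D.del) : ℝ) : ℂ) *
        ((p.2 t a i / (t (![a1, a2] a) * ![1, 1, -(t D.bet)] i) : ℝ) : ℂ) = 0 :=
      congrFun (congrFun (congrFun h t) a) i
    have hs : Real.sqrt (t D.del) ≠ 0 := (Real.sqrt_pos.2 (D.del_pos t)).ne'
    have hre := congrArg Complex.re h3
    have him := congrArg Complex.im h3
    rw [mul_assoc, ← Complex.ofReal_mul] at hre him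
    simp only [Complex.add_re, Complex.ofReal_re, Complex.mul_re, Complex.I_re, zero_mul,
      Complex.I_im, Complex.ofReal_im, mul_zero, sub_zero, add_zero, Complex.zero_re] at hre
    simp only [Complex.add_im, Complex.ofReal_im, Complex.mul_im, Complex.I_re, zero_mul,
      Complex.I_im, Complex.ofReal_re, one_mul, zero_add, Complex.zero_im] at him
    refine ⟨hre, ?_⟩
    have h4 := (mul_eq_zero.1 him).resolve_left hs
    have h5 : t (![a1, a2] a) * ![1, 1, -(t D.bet)] i ≠ 0 := by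
      refine mul_ne_zero ?_ ?_
      · fin_cases a
        · exact (map_ne_zero t).2 h1
        · exact (map_ne_zero t).2 h2
      · fin_cases i
        · exact one_ne_zero
        · exact one_ne_zero
        · exact neg_ne_zero.2 (bet_ne D t)
    exact (div_eq_zero_iff.1 h4).resolve_right h5
  refine Prod.ext ?_ ?_
  · funext t a i
    exact (key t a i).1
  · funext t a i
    exact (key t a i).2

end EDaAux

open EDaAux in
theorem pEDa : S_EDa := by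
  intro F _ _ D a1 a2 h1 h2 E E' hE hE' z hz
  have ha1 : a1 ≠ 0 := fun h => by rw [h, map_zero] at h1; exact lt_irrefl _ h1
  have ha2 : a2 ≠ 0 := fun h => by rw [h, map_zero] at h2; exact lt_irrefl _ h2
  have hz' : ‖z.1‖ ^ 2 + ‖z.2‖ ^ 2 < D.t0 D.bet := hz
  have hk : ∀ t : F →+* ℝ, 0 < kap D t := fun t =>
    div_pos Real.pi_pos (Real.sqrt_pos.2 (D.del_pos t))
  set c1 : ℝ := kap D D.t0 * D.t0 a1 with hc1
  set c2 : ℝ := kap D D.t0 * D.t0 a2 with hc2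
  have hc1' : 0 < c1 := mul_pos (hk _) h1
  have hc2' : 0 < c2 := mul_pos (hk _) h2
  -- the quadratic form
  let Q : ((F →+* ℝ) → Fin 2 → Fin 3 → ℂ) → ℝ := fun v =>
    (∑ t ∈ Finset.univ.erase D.t0,
      kap D t * QT (t D.bet) (PT (t a1) (t a2) (E t) (E' t)) (v t)) +
    (c1 / 2 * Nz (D.t0 D.bet) (hat z) (v D.t0 0) + c2 / 2 * Nz (D.t0 D.bet) (hat z) (v D.t0 1))
  have hQT : ∀ t : F →+* ℝ, t ≠ D.t0 → ∀ v : Fin 2 → Fin 3 → ℂ,
      0 ≤ QT (t D.bet) (PT (t a1) (t a2) (E t) (E' t)) v ∧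
        (v ≠ 0 → 0 < QT (t D.bet) (PT (t a1) (t a2) (E t) (E' t)) v) := by
    intro t ht v
    exact QT_pos (D.bet_neg t ht)
      (fun x hx => mq_pos ((map_ne_zero t).2 ha1) ((map_ne_zero t).2 ha2) (hE t ht) (hE' t ht) x hx) v
  have hsum : ∀ v : (F →+* ℝ) → Fin 2 → Fin 3 → ℂ, 0 ≤ ∑ t ∈ Finset.univ.erase D.t0,
      kap D t * QT (t D.bet) (PT (t a1) (t a2) (E t) (E' t)) (v t) := fun v =>
    Finset.sum_nonneg fun t ht => mul_nonneg (hk t).le (hQT t (Finset.ne_of_mem_erase ht) (v t)).1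
  have hQpos : ∀ v, v ≠ 0 → 0 < Q v := by
    intro v hv
    have n0 := Nz_pos hz' (v D.t0 0)
    have n1 := Nz_pos hz' (v D.t0 1)
    have m0 : 0 ≤ c1 / 2 * Nz (D.t0 D.bet) (hat z) (v D.t0 0) := mul_nonneg (by positivity) n0.1
    have m1 : 0 ≤ c2 / 2 * Nz (D.t0 D.bet) (hat z) (v D.t0 1) := mul_nonneg (by positivity) n1.1
    by_cases h0 : v D.t0 = 0
    · have h3 : ∃ t, v t ≠ 0 := by
        by_contra h
        push Not at h
        exact hv (funext h)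
      obtain ⟨t, ht⟩ := h3
      have htt : t ≠ D.t0 := fun h => ht (by rw [h]; exact h0)
      refine add_pos_of_pos_of_nonneg ?_ (add_nonneg m0 m1)
      refine Finset.sum_pos' (fun s hs =>
        mul_nonneg (hk s).le (hQT s (Finset.ne_of_mem_erase hs) (v s)).1) ⟨t, ?_, ?_⟩
      · exact Finset.mem_erase.2 ⟨htt, Finset.mem_univ _⟩
      · exact mul_pos (hk t) ((hQT t htt (v t)).2 ht)
    · refine add_pos_of_nonneg_of_pos (hsum v) ?_
      by_cases h3 : v D.t0 0 = 0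
      · have h4 : v D.t0 1 ≠ 0 := by
          intro h4
          apply h0
          funext a
          fin_cases a
          · exact h3
          · exact h4
        exact add_pos_of_nonneg_of_pos m0 (mul_pos (by positivity) (n1.2 h4))
      · exact add_pos_of_pos_of_nonneg (mul_pos (by positivity) (n0.2 h3)) m1
  have hQhom : ∀ (c : ℝ) v, Q (c • v) = c ^ 2 * Q v := by
    intro c v
    change (∑ t ∈ Finset.univ.erase D.t0,
      kap D t * QT (t D.bet) (PT (t a1) (t a2) (E t) (E' t)) (c • v t)) +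
      (c1 / 2 * Nz (D.t0 D.bet) (hat z) (c • v D.t0 0) +
        c2 / 2 * Nz (D.t0 D.bet) (hat z) (c • v D.t0 1)) = c ^ 2 * (_ + _)
    rw [Nz_smul, Nz_smul, mul_add, Finset.mul_sum]
    congr 1
    · refine Finset.sum_congr rfl fun t _ => ?_
      rw [QT_smul]
      ring
    · ring
  have hQcont : Continuous Q := by
    have e1 : ∀ (t : F →+* ℝ) (a : Fin 2) (i : Fin 3),
        Continuous fun v : (F →+* ℝ) → Fin 2 → Fin 3 → ℂ => v t a i := fun t a i => by fun_prop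
    refine Continuous.add (continuous_finsetSum _ fun t _ => ?_) ?_
    · refine continuous_const.mul ?_
      simp only [QT_eq, mq]
      fun_prop
    · unfold Nz hh
      simp only [div_eq_mul_inv]
      fun_prop
  obtain ⟨ε, hε, hlow⟩ := hom_lb (fun p => Q (VL D a1 a2 p))
    (hQcont.comp (LinearMap.continuous_of_finiteDimensional _))
    (fun c p => by rw [map_smul]; exact hQhom c _) (fun p hp => hQpos _ (VL_inj D ha1 ha2 hp))
  obtain ⟨K, hK, hDD⟩ := DD_le (D.t0 D.bet) c1 c2 hc1' hc2' (hat z)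
  set L : ℝ := ‖(VL D a1 a2).toContinuousLinearMap‖ with hL
  have hL0 : 0 ≤ L := norm_nonneg _
  have hVL : ∀ p, ‖VL D a1 a2 p‖ ≤ L * ‖p‖ := fun p =>
    (VL D a1 a2).toContinuousLinearMap.le_opNorm p
  refine ⟨K * (1 + L ^ 2) ^ 2 * (4 * Real.exp (9 / (4 * ε))), 1, one_pos, fun p => ?_⟩
  set v := VL D a1 a2 p with hv
  change ‖AR D a1 a2 E E' z v‖ ≤ _
  have hn : ∀ a : Fin 2, 1 + ‖v D.t0 a‖ ^ 2 ≤ (1 + L ^ 2) * (1 + ‖p‖ ^ 2) := by
    intro a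
    have h3 : ‖v D.t0 a‖ ≤ L * ‖p‖ :=
      le_trans (norm_le_pi_norm (v D.t0) a) (le_trans (norm_le_pi_norm v D.t0) (hVL p))
    have h4 : ‖v D.t0 a‖ ^ 2 ≤ (L * ‖p‖) ^ 2 := pow_le_pow_left₀ (norm_nonneg _) h3 2
    nlinarith [sq_nonneg L, sq_nonneg ‖p‖]
  have hAR : ‖AR D a1 a2 E E' z v‖ ≤ K * (1 + ‖v D.t0 0‖ ^ 2) * (1 + ‖v D.t0 1‖ ^ 2) *
      Real.exp (-(Q v)) := by
    unfold AR
    rw [norm_mul, norm_prod]
    have e1 : ∏ t ∈ Finset.univ.erase D.t0,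
        ‖TT (t D.bet) (kap D t) (PT (t a1) (t a2) (E t) (E' t)) (v t)‖ =
        Real.exp (-(∑ t ∈ Finset.univ.erase D.t0,
          kap D t * QT (t D.bet) (PT (t a1) (t a2) (E t) (E' t)) (v t))) := by
      rw [← Finset.sum_neg_distrib, Real.exp_sum]
      exact Finset.prod_congr rfl fun t _ => norm_TT _ _ _ _
    rw [e1]
    refine le_trans (mul_le_mul_of_nonneg_left (hDD (v D.t0 0) (v D.t0 1)) (Real.exp_pos _).le) ?_
    have e2 : Real.exp (-(Q v)) = Real.exp (-(∑ t ∈ Finset.univ.erase D.t0,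
          kap D t * QT (t D.bet) (PT (t a1) (t a2) (E t) (E' t)) (v t))) *
        Real.exp (-(c1 / 2 * Nz (D.t0 D.bet) (hat z) (v D.t0 0) +
          c2 / 2 * Nz (D.t0 D.bet) (hat z) (v D.t0 1))) := by
      rw [← Real.exp_add]
      congr 1
      change -(_ + _) = _
      ring
    rw [e2]
    apply le_of_eq
    ring
  have hexp : Real.exp (-(Q v)) ≤ Real.exp (-(ε * ‖p‖ ^ 2)) :=
    Real.exp_le_exp.2 (neg_le_neg (hlow p))
  have hpol : K * (1 + ‖v D.t0 0‖ ^ 2) * (1 + ‖v D.t0 1‖ ^ 2) ≤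
      K * (1 + L ^ 2) ^ 2 * (1 + ‖p‖ ^ 2) ^ 2 := by
    have h3 : (1 + ‖v D.t0 0‖ ^ 2) * (1 + ‖v D.t0 1‖ ^ 2) ≤
        ((1 + L ^ 2) * (1 + ‖p‖ ^ 2)) * ((1 + L ^ 2) * (1 + ‖p‖ ^ 2)) :=
      mul_le_mul (hn 0) (hn 1) (by positivity) (by positivity)
    have h4 := mul_le_mul_of_nonneg_left h3 hK
    calc _ = K * ((1 + ‖v D.t0 0‖ ^ 2) * (1 + ‖v D.t0 1‖ ^ 2)) := by ring
      _ ≤ _ := h4
      _ = _ := by ring
  have hg := gauss_le hε (norm_nonneg p)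
  calc ‖AR D a1 a2 E E' z v‖
      ≤ K * (1 + ‖v D.t0 0‖ ^ 2) * (1 + ‖v D.t0 1‖ ^ 2) * Real.exp (-(Q v)) := hAR
    _ ≤ (K * (1 + L ^ 2) ^ 2 * (1 + ‖p‖ ^ 2) ^ 2) * Real.exp (-(ε * ‖p‖ ^ 2)) :=
        mul_le_mul hpol hexp (Real.exp_pos _).le (by positivity)
    _ = K * (1 + L ^ 2) ^ 2 * ((1 + ‖p‖ ^ 2) ^ 2 * Real.exp (-(ε * ‖p‖ ^ 2))) := by ring
    _ ≤ K * (1 + L ^ 2) ^ 2 * (4 * Real.exp (9 / (4 * ε)) * Real.exp (-(1 * ‖p‖))) :=
        mul_le_mul_of_nonneg_left hg (by positivity)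
    _ = K * (1 + L ^ 2) ^ 2 * (4 * Real.exp (9 / (4 * ε))) * Real.exp (-(1 * ‖p‖)) := by ring

end IP
end CMT
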