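import Pool.Agent.Lib.CMT.I.Def
import Pool.Agent.Lib.CMT.C.Term
import Pool.Agent.Lib.CMT.C.Ker

/-!
PROJECT CMT, part I: continuity and exponential decay of the terms of the kernel (`S_EDg`).
-/

set_option autoImplicit false

open scoped BigOperators ComplexConjugate
open Finset

noncomputable section

namespace CMT
namespace IP

variable {F : Type} [Field F] [NumberField F]

/-- `∑_t (|x t 0|² + |x t 1|²)`. -/
def edS (x : XR F (Fin 2)) : ℝ := ∑ t, (sq3 (x t 0) + sq3 (x t 1))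

theorem edS_nonneg (x : XR F (Fin 2)) : 0 ≤ edS x :=
  sum_nonneg fun _ _ => add_nonneg (sq3_nonneg _) (sq3_nonneg _)

theorem sq_le_sq3 (y : Fin 3 → ℝ) (i : Fin 3) : y i ^ 2 ≤ sq3 y := by
  unfold sq3
  fin_cases i
  · show y 0 ^ 2 ≤ _
    nlinarith [sq_nonneg (y 1), sq_nonneg (y 2)]
  · show y 1 ^ 2 ≤ _
    nlinarith [sq_nonneg (y 0), sq_nonneg (y 2)]
  · show y 2 ^ 2 ≤ _
    nlinarith [sq_nonneg (y 0), sq_nonneg (y 1)]

theorem sq3_le_edS (x : XR F (Fin 2)) (t : F →+* ℝ) (a : Fin 2) : sq3 (x t a) ≤ edS x := by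
  have h : sq3 (x t 0) + sq3 (x t 1) ≤ edS x :=
    single_le_sum (f := fun t : F →+* ℝ => sq3 (x t 0) + sq3 (x t 1))
      (fun _ _ => add_nonneg (sq3_nonneg _) (sq3_nonneg _)) (mem_univ t)
  have h0 := sq3_nonneg (x t 0)
  have h1 := sq3_nonneg (x t 1)
  fin_cases a
  · show sq3 (x t 0) ≤ _
    linarith
  · show sq3 (x t 1) ≤ _
    linarith

theorem norm_sq_le_edS (x : XR F (Fin 2)) : ‖x‖ ^ 2 ≤ edS x := by
  have h0 := edS_nonneg x
  have h : ‖x‖ ≤ Real.sqrt (edS x) := by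
    rw [pi_norm_le_iff_of_nonneg (Real.sqrt_nonneg _)]
    intro t
    rw [pi_norm_le_iff_of_nonneg (Real.sqrt_nonneg _)]
    intro a
    rw [pi_norm_le_iff_of_nonneg (Real.sqrt_nonneg _)]
    intro i
    rw [Real.norm_eq_abs]
    apply Real.abs_le_sqrt
    exact (sq_le_sq3 (x t a) i).trans (sq3_le_edS x t a)
  calc ‖x‖ ^ 2 ≤ Real.sqrt (edS x) ^ 2 := by gcongr
    _ = edS x := Real.sq_sqrt h0

theorem norm_gK (D : Dat F) (a1 a2 : F) (E : (F →+* ℝ) → Matrix (Fin 2) (Fin 2) ℝ) (z : ℂ × ℂ)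
    (x : XR F (Fin 2)) :
    ‖gK D a1 a2 E z x‖ = Real.exp (-((∑ t ∈ univ.erase D.t0, kap D t *
      (E t 0 0 * qf (t D.bet) (x t 0) (x t 0) + (E t 0 1 + E t 1 0) * qf (t D.bet) (x t 0) (x t 1)
        + E t 1 1 * qf (t D.bet) (x t 1) (x t 1))) +
      (kap D D.t0 * |D.t0 a1|) * (((qf (D.t0 D.bet) (x D.t0 0) (x D.t0 0) : ℝ) : ℂ) +
        2 * uu (D.t0 D.bet) (x D.t0 0) z ^ 2).re +
      (kap D D.t0 * |D.t0 a2|) * (((qf (D.t0 D.bet) (x D.t0 1) (x D.t0 1) : ℝ) : ℂ) +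
        2 * uu (D.t0 D.bet) (x D.t0 1) z ^ 2).re)) *
      ‖wedge (du (D.t0 D.bet) (x D.t0 0) z) (du (D.t0 D.bet) (x D.t0 1) z)‖ := by
  unfold gK
  rw [norm_mul, Complex.norm_exp]
  congr 2
  rw [Complex.neg_re, Complex.add_re, Complex.add_re, Complex.ofReal_re, Complex.re_ofReal_mul,
    Complex.re_ofReal_mul]

/-- The bound at `t0`. -/
theorem re_t0_ge (D : Dat F) (a : F) {ρ : ℝ} (hρ0 : 0 ≤ ρ) (hρ1 : ρ < 1) {z : ℂ × ℂ}
    (hz : z ∈ sball (D.t0 D.bet) ρ) (x : Fin 3 → ℝ) :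
    kap D D.t0 * |D.t0 a| * ((1 - ρ) ^ 3 / 4 * min 1 (D.t0 D.bet)) * sq3 x
      ≤ (kap D D.t0 * |D.t0 a|) * (((qf (D.t0 D.bet) x x : ℝ) : ℂ) +
        2 * uu (D.t0 D.bet) x z ^ 2).re := by
  have h := re_q_ge D.bet_pos hρ0 hρ1 hz x
  have hk := kap_pos D D.t0
  have hb := D.bet_pos
  have h1ρ : 0 < 1 - ρ := by linarith
  have h2 : min 1 (D.t0 D.bet) * sq3 x ≤ x 0 ^ 2 + x 1 ^ 2 + D.t0 D.bet * x 2 ^ 2 := by
    have m1 : min 1 (D.t0 D.bet) ≤ 1 := min_le_left _ _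
    have m2 : min 1 (D.t0 D.bet) ≤ D.t0 D.bet := min_le_right _ _
    unfold sq3
    have a0 := mul_le_mul_of_nonneg_right m1 (sq_nonneg (x 0))
    have a1 := mul_le_mul_of_nonneg_right m1 (sq_nonneg (x 1))
    have a2 := mul_le_mul_of_nonneg_right m2 (sq_nonneg (x 2))
    linarith
  calc kap D D.t0 * |D.t0 a| * ((1 - ρ) ^ 3 / 4 * min 1 (D.t0 D.bet)) * sq3 x
      = kap D D.t0 * |D.t0 a| * ((1 - ρ) ^ 3 / 4 * (min 1 (D.t0 D.bet) * sq3 x)) := by ring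
    _ ≤ kap D D.t0 * |D.t0 a| * ((1 - ρ) ^ 3 / 4 *
          (x 0 ^ 2 + x 1 ^ 2 + D.t0 D.bet * x 2 ^ 2)) := by gcongr
    _ ≤ _ := by gcongr

/-- The exponent is bounded below by a multiple of `edS`. -/
theorem exp_gK_ge (D : Dat F) {a1 a2 : F} (ha1 : a1 ≠ 0) (ha2 : a2 ≠ 0)
    {E : (F →+* ℝ) → Matrix (Fin 2) (Fin 2) ℝ} (hE : ∀ t, t ≠ D.t0 → (E t).PosDef)
    {ρ : ℝ} (hρ0 : 0 ≤ ρ) (hρ1 : ρ < 1) {z : ℂ × ℂ} (hz : z ∈ sball (D.t0 D.bet) ρ) :
    ∃ c : ℝ, 0 < c ∧ ∀ x : XR F (Fin 2), c * edS x ≤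
      (∑ t ∈ univ.erase D.t0, kap D t *
      (E t 0 0 * qf (t D.bet) (x t 0) (x t 0) + (E t 0 1 + E t 1 0) * qf (t D.bet) (x t 0) (x t 1)
        + E t 1 1 * qf (t D.bet) (x t 1) (x t 1))) +
      (kap D D.t0 * |D.t0 a1|) * (((qf (D.t0 D.bet) (x D.t0 0) (x D.t0 0) : ℝ) : ℂ) +
        2 * uu (D.t0 D.bet) (x D.t0 0) z ^ 2).re +
      (kap D D.t0 * |D.t0 a2|) * (((qf (D.t0 D.bet) (x D.t0 1) (x D.t0 1) : ℝ) : ℂ) +
        2 * uu (D.t0 D.bet) (x D.t0 1) z ^ 2).re := by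
  obtain ⟨l, hl, hLB⟩ := kc_posDef_all D hE
  have hA1 : 0 < |D.t0 a1| := abs_pos.2 ((map_ne_zero D.t0).2 ha1)
  have hA2 : 0 < |D.t0 a2| := abs_pos.2 ((map_ne_zero D.t0).2 ha2)
  have hk0 := kap_pos D D.t0
  have hb := D.bet_pos
  have h1ρ : 0 < 1 - ρ := by linarith
  set r1 : ℝ := kap D D.t0 * |D.t0 a1| * ((1 - ρ) ^ 3 / 4 * min 1 (D.t0 D.bet)) with hr1
  set r2 : ℝ := kap D D.t0 * |D.t0 a2| * ((1 - ρ) ^ 3 / 4 * min 1 (D.t0 D.bet)) with hr2
  have hr10 : 0 < r1 := by positivity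
  have hr20 : 0 < r2 := by positivity
  obtain ⟨c0, hc0, hle⟩ := exists_pos_le (T := F →+* ℝ)
    (fun t => kap D t * (l * min 1 |t D.bet|)) (fun t => by
      have h1 := kap_pos D t
      have h3 : 0 < min 1 |t D.bet| := lt_min one_pos (abs_pos.2 (bet_ne D t))
      positivity)
  refine ⟨min c0 (min r1 r2), by positivity, fun x => ?_⟩
  set c := min c0 (min r1 r2) with hc
  have hcc0 : c ≤ c0 := min_le_left _ _
  have hcr1 : c ≤ r1 := (min_le_right _ _).trans (min_le_left _ _)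
  have hcr2 : c ≤ r2 := (min_le_right _ _).trans (min_le_right _ _)
  have h0 : c * sq3 (x D.t0 0) ≤ _ :=
    (mul_le_mul_of_nonneg_right hcr1 (sq3_nonneg _)).trans (re_t0_ge D a1 hρ0 hρ1 hz (x D.t0 0))
  have h1 : c * sq3 (x D.t0 1) ≤ _ :=
    (mul_le_mul_of_nonneg_right hcr2 (sq3_nonneg _)).trans (re_t0_ge D a2 hρ0 hρ1 hz (x D.t0 1))
  have h2 : edS x = ∑ t ∈ univ.erase D.t0, (sq3 (x t 0) + sq3 (x t 1)) +
      (sq3 (x D.t0 0) + sq3 (x D.t0 1)) :=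
    (sum_erase_add_t0 D (fun t => sq3 (x t 0) + sq3 (x t 1))).symm
  have h3 : c * ∑ t ∈ univ.erase D.t0, (sq3 (x t 0) + sq3 (x t 1)) ≤
      ∑ t ∈ univ.erase D.t0, kap D t *
      (E t 0 0 * qf (t D.bet) (x t 0) (x t 0) + (E t 0 1 + E t 1 0) * qf (t D.bet) (x t 0) (x t 1)
        + E t 1 1 * qf (t D.bet) (x t 1) (x t 1)) := by
    rw [mul_sum]
    refine sum_le_sum fun t ht => ?_
    have hne := ne_of_mem_erase ht
    have hq := qE_ge (D.bet_neg t hne) hl.le (hLB t hne) (x t 0) (x t 1)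
    have hk := kap_pos D t
    have hs : 0 ≤ sq3 (x t 0) + sq3 (x t 1) := add_nonneg (sq3_nonneg _) (sq3_nonneg _)
    calc c * (sq3 (x t 0) + sq3 (x t 1))
        ≤ kap D t * (l * min 1 |t D.bet|) * (sq3 (x t 0) + sq3 (x t 1)) :=
          mul_le_mul_of_nonneg_right (hcc0.trans (hle t)) hs
      _ = kap D t * (l * min 1 |t D.bet| * (sq3 (x t 0) + sq3 (x t 1))) := by ring
      _ ≤ _ := by gcongr
  rw [h2, mul_add, mul_add]
  linarith

theorem cont_gK (D : Dat F) (a1 a2 : F) (E : (F →+* ℝ) → Matrix (Fin 2) (Fin 2) ℝ) (z : ℂ × ℂ) :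
    Continuous (gK D a1 a2 E z) := by
  have hx : ∀ (t : F →+* ℝ) (a : Fin 2) (i : Fin 3), Continuous fun x : XR F (Fin 2) => x t a i := by
    intro t a i
    fun_prop
  have hq : ∀ (t : F →+* ℝ) (b : ℝ) (a a' : Fin 2),
      Continuous fun x : XR F (Fin 2) => qf b (x t a) (x t a') := by
    intro t b a a'
    unfold qf
    fun_prop
  have hl : ∀ (t : F →+* ℝ) (b : ℝ) (a : Fin 2), Continuous fun x : XR F (Fin 2) => ll b (x t a) z := by
    intro t b a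
    unfold ll
    fun_prop
  have hu : ∀ (t : F →+* ℝ) (b : ℝ) (a : Fin 2), Continuous fun x : XR F (Fin 2) => uu b (x t a) z := by
    intro t b a
    unfold uu
    exact (hl t b a).div_const _
  have hd1 : ∀ (t : F →+* ℝ) (b : ℝ) (a : Fin 2),
      Continuous fun x : XR F (Fin 2) => (du b (x t a) z).1 := by
    intro t b a
    show Continuous fun x : XR F (Fin 2) =>
      ((x t a 0 : ℂ) * mm b z + ll b (x t a) z * z.1) / (mm b z * ss b z)
    have h1 := hl t b a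
    have h2 : Continuous fun x : XR F (Fin 2) => ((x t a 0 : ℝ) : ℂ) :=
      Complex.continuous_ofReal.comp (hx t a 0)
    exact ((h2.mul continuous_const).add (h1.mul continuous_const)).div_const _
  have hd2 : ∀ (t : F →+* ℝ) (b : ℝ) (a : Fin 2),
      Continuous fun x : XR F (Fin 2) => (du b (x t a) z).2 := by
    intro t b a
    show Continuous fun x : XR F (Fin 2) =>
      ((x t a 1 : ℂ) * mm b z + ll b (x t a) z * z.2) / (mm b z * ss b z)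
    have h1 := hl t b a
    have h2 : Continuous fun x : XR F (Fin 2) => ((x t a 1 : ℝ) : ℂ) :=
      Complex.continuous_ofReal.comp (hx t a 1)
    exact ((h2.mul continuous_const).add (h1.mul continuous_const)).div_const _
  unfold gK wedge
  refine Continuous.mul (Complex.continuous_exp.comp (Continuous.neg ?_)) ?_
  · refine Continuous.add (Continuous.add (Complex.continuous_ofReal.comp ?_) ?_) ?_
    · refine continuous_finsetSum _ fun t _ => continuous_const.mul ?_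
      exact ((continuous_const.mul (hq t _ 0 0)).add (continuous_const.mul (hq t _ 0 1))).add
        (continuous_const.mul (hq t _ 1 1))
    · exact continuous_const.mul ((Complex.continuous_ofReal.comp (hq D.t0 _ 0 0)).add
        (continuous_const.mul ((hu D.t0 _ 0).pow 2)))
    · exact continuous_const.mul ((Complex.continuous_ofReal.comp (hq D.t0 _ 1 1)).add
        (continuous_const.mul ((hu D.t0 _ 1).pow 2)))
  · exact ((hd1 D.t0 _ 0).mul (hd2 D.t0 _ 1)).sub ((hd2 D.t0 _ 0).mul (hd1 D.t0 _ 1))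

/-- `(1+S)² exp(-cS) ≤ K exp(-(c/2)S)`. -/
theorem poly_exp_le {c : ℝ} (hc : 0 < c) : ∃ K : ℝ, 0 < K ∧ ∀ S : ℝ, 0 ≤ S →
    (1 + S) ^ 2 * Real.exp (-(c * S)) ≤ K * Real.exp (-(c / 2 * S)) := by
  set d : ℝ := min 1 (c / 4) with hd
  have hd0 : 0 < d := by positivity
  have hd1 : d ≤ 1 := min_le_left _ _
  have hd2 : d ≤ c / 4 := min_le_right _ _
  refine ⟨(d⁻¹) ^ 2, by positivity, fun S hS => ?_⟩
  have h1 : 1 + S ≤ d⁻¹ * Real.exp (d * S) := by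
    have h2 : d * S + 1 ≤ Real.exp (d * S) := Real.add_one_le_exp _
    have h3 : d * (1 + S) ≤ Real.exp (d * S) := by nlinarith
    rw [inv_mul_eq_div, le_div_iff₀ hd0]
    linarith
  calc (1 + S) ^ 2 * Real.exp (-(c * S))
      ≤ (d⁻¹ * Real.exp (d * S)) ^ 2 * Real.exp (-(c * S)) := by gcongr
    _ = (d⁻¹) ^ 2 * Real.exp (2 * (d * S) + -(c * S)) := by
        rw [Real.exp_add, mul_pow, ← Real.exp_nat_mul]
        push_cast
        ring
    _ ≤ (d⁻¹) ^ 2 * Real.exp (-(c / 2 * S)) := by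
        have : 2 * (d * S) + -(c * S) ≤ -(c / 2 * S) := by nlinarith
        gcongr

theorem pEDg : S_EDg := by
  intro F _ _ D a1 a2 ha1 ha2 E hE z hz
  refine ⟨cont_gK D a1 a2 E z, ?_⟩
  obtain ⟨ρ, hρ0, hρ1, hzρ⟩ := kc_exists_sball D.bet_pos hz
  obtain ⟨c, hc, hge⟩ := exp_gK_ge D ha1 ha2 hE hρ0 hρ1 hzρ
  obtain ⟨C, hC, hdu⟩ := norm_du_le D.bet_pos hρ0 hρ1
  obtain ⟨K, hK, hpoly⟩ := poly_exp_le hc
  refine ⟨2 * (C * C) * K * Real.exp (c / 2), c, hc, fun x => ?_⟩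
  set S := edS x with hS
  have hS0 : 0 ≤ S := edS_nonneg x
  have hx := hge x
  obtain ⟨u1, u2⟩ := hdu z hzρ (x D.t0 0)
  obtain ⟨v1, v2⟩ := hdu z hzρ (x D.t0 1)
  have s0 := sq3_le_edS x D.t0 0
  have s1 := sq3_le_edS x D.t0 1
  have b0 : C * (1 + sq3 (x D.t0 0)) ≤ C * (1 + S) := by gcongr
  have b1 : C * (1 + sq3 (x D.t0 1)) ≤ C * (1 + S) := by gcongr
  have hw := norm_wedge_le (by positivity) (u1.trans b0) (u2.trans b0) (v1.trans b1) (v2.trans b1)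
  have hn : 2 * ‖x‖ - 1 ≤ S := by
    have := norm_sq_le_edS x
    nlinarith [sq_nonneg (‖x‖ - 1)]
  rw [norm_gK]
  calc _ ≤ Real.exp (-(c * S)) * (2 * (C * (1 + S) * (C * (1 + S)))) := by
        refine mul_le_mul (Real.exp_le_exp.2 (neg_le_neg hx)) hw (norm_nonneg _)
          (Real.exp_pos _).le
    _ = 2 * (C * C) * ((1 + S) ^ 2 * Real.exp (-(c * S))) := by ring
    _ ≤ 2 * (C * C) * (K * Real.exp (-(c / 2 * S))) :=
        mul_le_mul_of_nonneg_left (hpoly S hS0) (by positivity)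
    _ ≤ 2 * (C * C) * (K * Real.exp (c / 2 + -(c * ‖x‖))) := by
        have : -(c / 2 * S) ≤ c / 2 + -(c * ‖x‖) := by nlinarith
        gcongr
    _ = _ := by rw [Real.exp_add]; ring

end IP
end CMT
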