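import Pool.Agent.Lib.CMT.I.Def
import Pool.Agent.Lib.CMT.B.Br

/-!
# PROJECT CMT, part I : equivariance of the closed form (`S_EqA` from `S_EqD`)
-/

open scoped BigOperators ComplexConjugate
open MeasureTheory

noncomputable section

namespace CMT
namespace IP

variable {F : Type} [Field F] [NumberField F]

theorem hh_inv (D : Dat F) (t : F →+* ℝ) {g : SG D} (hg : IsIso D g) (v w : Fin 3 → ℂ) :
    hh (t D.bet) ((mt D t g).mulVec v) ((mt D t g).mulVec w) = hh (t D.bet) v w := by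
  have h := CMT.B.isU_sesq (CMT.B.mt_isU D t hg) v w
  rw [Fin.sum_univ_three, Fin.sum_univ_three] at h
  have e0 : ((![1, 1, -(t D.bet)] : Fin 3 → ℝ) 0 : ℂ) = 1 := by simp
  have e1 : ((![1, 1, -(t D.bet)] : Fin 3 → ℝ) 1 : ℂ) = 1 := by simp
  have e2 : ((![1, 1, -(t D.bet)] : Fin 3 → ℝ) 2 : ℂ) = -((t D.bet : ℝ) : ℂ) := by simp
  rw [e0, e1, e2] at h
  unfold hh
  linear_combination h

theorem evv_gv (D : Dat F) (g : SG D) (v : Fin 2 → Fin 3 → KD D) (t : F →+* ℝ) (a : Fin 2) :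
    evv D (gv D g v) t a = (mt D t g).mulVec (evv D v t a) := by
  funext i
  show ev D t (∑ j, g.1 i j * v a j) = ∑ j, (mt D t g) i j * ev D t (v a j)
  rw [map_sum]
  refine Finset.sum_congr rfl fun j _ => ?_
  rw [map_mul]
  rfl

theorem kap_pos (D : Dat F) (t : F →+* ℝ) : 0 < kap D t :=
  div_pos Real.pi_pos (Real.sqrt_pos.mpr (D.del_pos t))

theorem TT_inv (D : Dat F) (t : F →+* ℝ) {g : SG D} (hg : IsIso D g) (κ : ℝ)
    (M : Matrix (Fin 2) (Fin 2) ℝ) (v : Fin 2 → Fin 3 → KD D) :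
    TT (t D.bet) κ M (evv D (gv D g v) t) = TT (t D.bet) κ M (evv D v t) := by
  unfold TT
  congr 3
  refine Finset.sum_congr rfl fun j _ => Finset.sum_congr rfl fun k _ => ?_
  rw [evv_gv, evv_gv, hh_inv D t hg]

theorem pEqA (h : S_EqD) : S_EqA := by
  intro F _ _ D a1 a2 ha1 ha2 E E' g hg z hz v
  have hb := D.bet_pos
  have hk := kap_pos D D.t0
  have h1 := h (D.t0 D.bet) (kap D D.t0 * D.t0 a1) (kap D D.t0 * D.t0 a2) (mt D D.t0 g) hb
    (mul_pos hk ha1) (mul_pos hk ha2) (CMT.B.mt_det D D.t0 g) (hh_inv D D.t0 hg) z hz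
    (evv D v D.t0 0) (evv D v D.t0 1)
  unfold AA AR
  have h2 : (∏ t ∈ Finset.univ.erase D.t0,
      TT (t D.bet) (kap D t) (PT (t a1) (t a2) (E t) (E' t)) (evv D (gv D g v) t)) =
      ∏ t ∈ Finset.univ.erase D.t0,
      TT (t D.bet) (kap D t) (PT (t a1) (t a2) (E t) (E' t)) (evv D v t) :=
    Finset.prod_congr rfl fun t _ => TT_inv D t hg _ _ v
  have h3 : DD (D.t0 D.bet) (kap D D.t0 * D.t0 a1) (kap D D.t0 * D.t0 a2) (hat (act D g z))
      (evv D (gv D g v) D.t0 0) (evv D (gv D g v) D.t0 1) =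
      ((‖num D g z 2‖ ^ 6 : ℝ) : ℂ) *
        DD (D.t0 D.bet) (kap D D.t0 * D.t0 a1) (kap D D.t0 * D.t0 a2) (hat z)
          (evv D v D.t0 0) (evv D v D.t0 1) := by
    rw [evv_gv, evv_gv]
    exact h1
  rw [h2, h3]
  ring

end IP
end CMT
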