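import Pool.Agent.Lib.CMT.I.Def

/-!
# PROJECT CMT, part I: equivariance of the local factor at `t0` (`S_EqD`) (helper46)
-/

open scoped BigOperators ComplexConjugate
open MeasureTheory

noncomputable section

namespace CMT
namespace IP

namespace EqD

variable {b : ℝ}

theorem hh_addl (p q r : Fin 3 → ℂ) : hh b (p + q) r = hh b p r + hh b q r := by
  simp only [hh, Pi.add_apply]
  ring

theorem hh_smull (a : ℂ) (p r : Fin 3 → ℂ) : hh b (a • p) r = a * hh b p r := by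
  simp only [hh, Pi.smul_apply, smul_eq_mul]
  ring

theorem hh_addr (p q r : Fin 3 → ℂ) : hh b r (p + q) = hh b r p + hh b r q := by
  simp only [hh, Pi.add_apply, map_add]
  ring

theorem hh_smulr (a : ℂ) (p r : Fin 3 → ℂ) : hh b r (a • p) = conj a * hh b r p := by
  simp only [hh, Pi.smul_apply, smul_eq_mul, map_mul]
  ring

theorem hh_self (z : Fin 3 → ℂ) : hh b z z = -((HH b z : ℝ) : ℂ) := by
  simp only [hh, HH, Complex.mul_conj']
  push_cast
  ring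

theorem HH_re (z : Fin 3 → ℂ) : HH b z = -(hh b z z).re := by
  rw [hh_self, Complex.neg_re, Complex.ofReal_re, neg_neg]

theorem Nz_re (z v : Fin 3 → ℂ) : Nz b z v = (hh b v v).re + 2 * ‖hh b v z‖ ^ 2 / HH b z := by
  rw [hh_self, Complex.neg_re, Complex.ofReal_re]
  unfold Nz HH
  ring

section sesq

variable {c : ℝ} {u v : Fin 3 → ℂ}

theorem W1_addl (p q r : Fin 3 → ℂ) : W1 b c u v (p + q) r = W1 b c u v p r + W1 b c u v q r := by
  simp only [W1, hz, hh_addl]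
  ring

theorem W1_smull (a : ℂ) (p r : Fin 3 → ℂ) : W1 b c u v (a • p) r = a * W1 b c u v p r := by
  simp only [W1, hz, hh_smull]
  ring

theorem W1_addr (p q r : Fin 3 → ℂ) : W1 b c u v r (p + q) = W1 b c u v r p + W1 b c u v r q := by
  simp only [W1, hz, hh_addr]
  ring

theorem W1_smulr (a : ℂ) (p r : Fin 3 → ℂ) : W1 b c u v r (a • p) = conj a * W1 b c u v r p := by
  simp only [W1, hz, hh_smulr]
  ring

theorem hz_zl (hH : HH b u ≠ 0) (q : Fin 3 → ℂ) : hz b u u q = 0 := by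
  have h : ((HH b u : ℝ) : ℂ) ≠ 0 := by exact_mod_cast hH
  unfold hz
  rw [hh_self]
  field_simp
  ring

theorem hz_zr (hH : HH b u ≠ 0) (q : Fin 3 → ℂ) : hz b u q u = 0 := by
  have h : ((HH b u : ℝ) : ℂ) ≠ 0 := by exact_mod_cast hH
  unfold hz
  rw [hh_self]
  field_simp
  ring

theorem W1_zl (hH : HH b u ≠ 0) (q : Fin 3 → ℂ) : W1 b c u v u q = 0 := by
  unfold W1
  rw [hz_zl hH, hz_zl hH]
  ring

theorem W1_zr (hH : HH b u ≠ 0) (q : Fin 3 → ℂ) : W1 b c u v q u = 0 := by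
  unfold W1
  rw [hz_zr hH, hz_zr hH]
  ring

end sesq

/-- Invariance. -/
theorem W1_inv {c : ℝ} {g : Matrix (Fin 3) (Fin 3) ℂ}
    (hg : ∀ v w : Fin 3 → ℂ, hh b (g.mulVec v) (g.mulVec w) = hh b v w) (u v p q : Fin 3 → ℂ) :
    W1 b c (g.mulVec u) (g.mulVec v) (g.mulVec p) (g.mulVec q) = W1 b c u v p q := by
  simp only [W1, hz, Nz_re, HH_re, hg]

/-- Scaling. -/
theorem HH_smul (a : ℂ) (u : Fin 3 → ℂ) : HH b (a • u) = ‖a‖ ^ 2 * HH b u := by
  simp only [HH, Pi.smul_apply, smul_eq_mul, norm_mul]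
  ring

theorem W1_scale {c : ℝ} {a : ℂ} (ha : a ≠ 0) {u : Fin 3 → ℂ} (hH : HH b u ≠ 0) (v p q : Fin 3 → ℂ) :
    W1 b c (a • u) v p q = (((‖a‖ : ℝ) : ℂ) ^ 2)⁻¹ * W1 b c u v p q := by
  have hH' : ((HH b u : ℝ) : ℂ) ≠ 0 := by exact_mod_cast hH
  have hn : ‖a‖ ≠ 0 := norm_ne_zero_iff.2 ha
  have hn' : ((‖a‖ : ℝ) : ℂ) ≠ 0 := by exact_mod_cast hn
  have hc : conj a ≠ 0 := (map_ne_zero _).2 ha
  have hz' : ∀ p q : Fin 3 → ℂ, hz b (a • u) p q = hz b u p q := by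
    intro p q
    unfold hz
    rw [HH_smul, hh_smull, hh_smulr]
    push_cast
    rw [← Complex.mul_conj']
    field_simp
  have hN : Nz b (a • u) v = Nz b u v := by
    rw [Nz_re, Nz_re, HH_smul, hh_smulr, norm_mul, Complex.norm_conj]
    field_simp
  unfold W1
  rw [hN, HH_smul]
  simp only [hz']
  push_cast
  field_simp

/-- The columns of `g`. -/
theorem col {g : Matrix (Fin 3) (Fin 3) ℂ} {w : Fin 3 → ℂ} (hw : w 2 ≠ 0) (i : Fin 2) :
    g.mulVec (ee i) = g 2 (if i = 0 then 0 else 1) • hat (w 0 / w 2, w 1 / w 2) +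
      ((g 0 (if i = 0 then 0 else 1) - g 2 (if i = 0 then 0 else 1) * (w 0 / w 2)) • ee 0 +
        (g 1 (if i = 0 then 0 else 1) - g 2 (if i = 0 then 0 else 1) * (w 1 / w 2)) • ee 1) := by
  funext j
  fin_cases i <;> fin_cases j <;>
    simp [Matrix.mulVec, dotProduct, Fin.sum_univ_three, ee, hat]

end EqD

open EqD in
theorem pEqD : S_EqD := by
  intro b c1 c2 g hb hc1 hc2 hdet hg z hz v1 v2
  set w := g.mulVec (hat z) with hw
  have hHz : 0 < HH b (hat z) := by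
    unfold HH hat
    simp
    linarith
  have hHw : 0 < HH b w := by
    rw [HH_re, hw, hg, ← HH_re]
    exact hHz
  have hw2 : w 2 ≠ 0 := by
    intro h
    unfold HH at hHw
    rw [h, norm_zero] at hHw
    nlinarith [sq_nonneg ‖w 0‖, sq_nonneg ‖w 1‖]
  set u := hat (w 0 / w 2, w 1 / w 2) with hu
  have hwu : w = w 2 • u := by
    funext j
    fin_cases j
    · simp [hu, hat]
      field_simp
    · simp [hu, hat]
      field_simp
    · simp [hu, hat]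
  have hHu : HH b u ≠ 0 := by
    intro h
    rw [hwu, HH_smul, h, mul_zero] at hHw
    exact lt_irrefl _ hHw
  have hn : ((‖w 2‖ : ℝ) : ℂ) ≠ 0 := by
    have : ‖w 2‖ ≠ 0 := norm_ne_zero_iff.2 hw2
    exact_mod_cast this
  -- the matrix
  obtain ⟨m00, h00⟩ : ∃ m : ℂ, m = g 0 0 - g 2 0 * (w 0 / w 2) := ⟨_, rfl⟩
  obtain ⟨m10, h10⟩ : ∃ m : ℂ, m = g 1 0 - g 2 0 * (w 1 / w 2) := ⟨_, rfl⟩
  obtain ⟨m01, h01⟩ : ∃ m : ℂ, m = g 0 1 - g 2 1 * (w 0 / w 2) := ⟨_, rfl⟩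
  obtain ⟨m11, h11⟩ : ∃ m : ℂ, m = g 1 1 - g 2 1 * (w 1 / w 2) := ⟨_, rfl⟩
  have e0 : g.mulVec (ee 0) = g 2 0 • u + (m00 • ee 0 + m10 • ee 1) := by
    rw [h00, h10, hu]
    exact col hw2 0
  have e1 : g.mulVec (ee 1) = g 2 1 • u + (m01 • ee 0 + m11 • ee 1) := by
    rw [h01, h11, hu]
    exact col hw2 1
  have hm : (m00 * m11 - m01 * m10) * w 2 = 1 := by
    have w0 : w 0 = g 0 0 * z.1 + g 0 1 * z.2 + g 0 2 := by
      rw [hw]
      simp [Matrix.mulVec, dotProduct, Fin.sum_univ_three, hat]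
    have w1 : w 1 = g 1 0 * z.1 + g 1 1 * z.2 + g 1 2 := by
      rw [hw]
      simp [Matrix.mulVec, dotProduct, Fin.sum_univ_three, hat]
    have w2 : w 2 = g 2 0 * z.1 + g 2 1 * z.2 + g 2 2 := by
      rw [hw]
      simp [Matrix.mulVec, dotProduct, Fin.sum_univ_three, hat]
    have hd : g 0 0 * g 1 1 * w 2 - g 0 0 * g 2 1 * w 1 - g 0 1 * g 1 0 * w 2 + g 0 1 * g 2 0 * w 1 +
        w 0 * g 1 0 * g 2 1 - w 0 * g 2 0 * g 1 1 = 1 := by
      rw [w0, w1, w2]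
      rw [Matrix.det_fin_three] at hdet
      linear_combination hdet
    rw [← hd, h00, h10, h01, h11]
    field_simp
    ring
  have main : ∀ (c : ℝ) (v p q : Fin 3 → ℂ), W1 b c (hat z) v p q =
      (((‖w 2‖ : ℝ) : ℂ) ^ 2)⁻¹ * W1 b c u (g.mulVec v) (g.mulVec p) (g.mulVec q) := by
    intro c v p q
    rw [← W1_inv hg, ← hw]
    nth_rewrite 1 [hwu]
    rw [W1_scale hw2 hHu]
  have key : ((‖w 2‖ : ℝ) : ℂ) ^ 2 = w 2 * conj (w 2) := (Complex.mul_conj' _).symm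
  have hmc : (conj m00 * conj m11 - conj m01 * conj m10) * conj (w 2) = 1 := by
    have := congrArg conj hm
    simpa using this
  have hwc : conj (w 2) ≠ 0 := (map_ne_zero _).2 hw2
  unfold DD
  simp only [main]
  rw [e0, e1]
  simp only [W1_addl, W1_addr, W1_smull, W1_smulr, W1_zl hHu, W1_zr hHu, mul_zero, zero_add, add_zero]
  push_cast
  have k6 : ((‖w 2‖ : ℝ) : ℂ) ^ 6 = (w 2 * conj (w 2)) ^ 3 := by rw [← key]; ring
  rw [k6, key]
  obtain ⟨D1, hD1⟩ : ∃ D1 : ℂ, D1 = m00 * m11 - m01 * m10 := ⟨_, rfl⟩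
  obtain ⟨D2, hD2⟩ : ∃ D2 : ℂ, D2 = conj m00 * conj m11 - conj m01 * conj m10 := ⟨_, rfl⟩
  rw [← hD1] at hm
  rw [← hD2] at hmc
  generalize W1 b c1 u (g.mulVec v1) (ee 0) (ee 0) = B00
  generalize W1 b c1 u (g.mulVec v1) (ee 0) (ee 1) = B01
  generalize W1 b c1 u (g.mulVec v1) (ee 1) (ee 0) = B10
  generalize W1 b c1 u (g.mulVec v1) (ee 1) (ee 1) = B11
  generalize W1 b c2 u (g.mulVec v2) (ee 0) (ee 0) = C00
  generalize W1 b c2 u (g.mulVec v2) (ee 0) (ee 1) = C01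
  generalize W1 b c2 u (g.mulVec v2) (ee 1) (ee 0) = C10
  generalize W1 b c2 u (g.mulVec v2) (ee 1) (ee 1) = C11
  have hfin : B00 * C11 - B01 * C10 - B10 * C01 + B11 * C00 =
      (w 2 * conj (w 2)) * (D1 * D2 * (B00 * C11 - B01 * C10 - B10 * C01 + B11 * C00)) := by
    have : (w 2 * conj (w 2)) * (D1 * D2 * (B00 * C11 - B01 * C10 - B10 * C01 + B11 * C00)) =
        (D1 * w 2) * (D2 * conj (w 2)) * (B00 * C11 - B01 * C10 - B10 * C01 + B11 * C00) := by ring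
    rw [this, hm, hmc]
    ring
  rw [hfin, hD1, hD2]
  field_simp
  ring

end IP
end CMT
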