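import Pool.Agent.Lib.CMT.I.Def

/-!
PROJECT CMT, part I: `S_Gau`, the coordinate free Gaussian integral.

* `exists_iso`: a symmetric positive definite form is the standard form in suitable coordinates.
* `exists_const`: the integral against an additive Haar measure in coordinates.
-/

open scoped BigOperators ComplexConjugate
open MeasureTheory

noncomputable section

namespace CMT
namespace IP

/-- Coordinates in which `B` is the standard form. -/
theorem exists_iso {E : Type} [AddCommGroup E] [Module ℝ E] [FiniteDimensional ℝ E]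
    (B : E →ₗ[ℝ] E →ₗ[ℝ] ℝ) (hs : ∀ x y, B x y = B y x) (hp : ∀ x, x ≠ 0 → 0 < B x x) :
    ∃ (n : ℕ) (e : (Fin n → ℝ) ≃ₗ[ℝ] E), ∀ x y : Fin n → ℝ, B (e x) (e y) = ∑ i, x i * y i := by
  have : Invertible (2 : ℝ) := invertibleOfNonzero two_ne_zero
  have hB : LinearMap.IsSymm B := ⟨fun x y => hs x y⟩
  obtain ⟨v, hv⟩ := LinearMap.BilinForm.exists_orthogonal_basis (B := B) hB
  have hv' : ∀ i j, i ≠ j → B (v i) (v j) = 0 := by
    intro i j hij
    exact (LinearMap.isOrthoᵢ_def.mp hv) i j hij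
  have hpos : ∀ i, 0 < B (v i) (v i) := fun i => hp _ (v.ne_zero i)
  have hs0 : ∀ i, Real.sqrt (B (v i) (v i)) ≠ 0 := fun i => (Real.sqrt_pos.mpr (hpos i)).ne'
  let w : Module.Basis (Fin (Module.finrank ℝ E)) ℝ E :=
    v.isUnitSMul (w := fun i => (Real.sqrt (B (v i) (v i)))⁻¹)
      (fun i => (inv_ne_zero (hs0 i)).isUnit)
  have hw : ∀ i, w i = (Real.sqrt (B (v i) (v i)))⁻¹ • v i := by
    intro i
    exact v.isUnitSMul_apply _ i
  have hww : ∀ i j, B (w i) (w j) = if i = j then 1 else 0 := by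
    intro i j
    rw [hw, hw]
    simp only [map_smul, LinearMap.smul_apply, smul_eq_mul]
    split_ifs with h
    · subst h
      have h1 := Real.mul_self_sqrt (hpos i).le
      have h2 := hs0 i
      field_simp
      rw [sq, h1]
    · rw [hv' i j h, mul_zero, mul_zero]
  refine ⟨_, w.equivFun.symm, fun x y => ?_⟩
  rw [w.equivFun_symm_apply, w.equivFun_symm_apply]
  simp only [map_sum, map_smul, LinearMap.sum_apply, LinearMap.smul_apply, smul_eq_mul, hww]
  simp only [mul_ite, mul_one, mul_zero, Finset.sum_ite_eq', Finset.mem_univ,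
    if_true]
  refine Finset.sum_congr rfl (fun i _ => ?_)
  ring

/-- The integral in coordinates, up to a constant. -/
theorem exists_const {E : Type} [NormedAddCommGroup E] [NormedSpace ℝ E] [FiniteDimensional ℝ E]
    [MeasurableSpace E] [BorelSpace E] (μ : Measure E) [μ.IsAddHaarMeasure] {n : ℕ}
    (e : (Fin n → ℝ) ≃ₗ[ℝ] E) :
    ∃ c : ℝ, ∀ f : E → ℂ, ∫ x, f x ∂μ = (c : ℂ) * ∫ x : Fin n → ℝ, f (e x) := by
  let L : (Fin n → ℝ) ≃L[ℝ] E := e.toContinuousLinearEquiv
  have h1 : μ = (Measure.addHaarScalarFactor μ ((volume : Measure (Fin n → ℝ)).map L)) •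
      ((volume : Measure (Fin n → ℝ)).map L) :=
    Measure.isAddLeftInvariant_eq_smul μ _
  refine ⟨(Measure.addHaarScalarFactor μ ((volume : Measure (Fin n → ℝ)).map L) : ℝ), fun f => ?_⟩
  conv_lhs => rw [h1]
  rw [integral_smul_nnreal_measure]
  have h2 : ∫ x, f x ∂((volume : Measure (Fin n → ℝ)).map L) = ∫ x : Fin n → ℝ, f (e x) := by
    have h3 : MeasurableEmbedding (⇑L) := L.toHomeomorph.measurableEmbedding
    rw [h3.integral_map]
    rfl
  rw [h2, NNReal.smul_def, Complex.real_smul]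

theorem pGau : S_Gau := by
  intro E _ _ _ _ _ μ _ B hs hp u w
  obtain ⟨n, e, he⟩ := exists_iso B hs hp
  obtain ⟨c, hc⟩ := exists_const μ e
  rw [hc, hc]
  have key : ∀ u' w' : Fin n → ℝ, ∫ x : Fin n → ℝ,
      Complex.exp (-(((B (e x) (e x) : ℝ) : ℂ) + ((B (e x) (e u') : ℝ) : ℂ) +
        Complex.I * ((B (e x) (e w') : ℝ) : ℂ))) =
      (Real.pi : ℂ) ^ ((n : ℂ) / 2) *
        Complex.exp ((1 / 4 : ℂ) * (((B (e u') (e u') : ℝ) : ℂ) - ((B (e w') (e w') : ℝ) : ℂ) +
        2 * Complex.I * ((B (e u') (e w') : ℝ) : ℂ))) := by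
    intro u' w'
    have h := GaussianFourier.integral_cexp_neg_mul_sum_add (ι := Fin n) (b := 1) (by simp)
      (fun i => -((u' i : ℂ) + Complex.I * (w' i : ℂ)))
    have h1 : ∀ x : Fin n → ℝ, -(((B (e x) (e x) : ℝ) : ℂ) + ((B (e x) (e u') : ℝ) : ℂ) +
        Complex.I * ((B (e x) (e w') : ℝ) : ℂ)) =
        -1 * ∑ i, (x i : ℂ) ^ 2 + ∑ i, -((u' i : ℂ) + Complex.I * (w' i : ℂ)) * x i := by
      intro x
      rw [he, he, he]
      push_cast
      rw [Finset.mul_sum, Finset.mul_sum, ← Finset.sum_add_distrib, ← Finset.sum_add_distrib,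
        ← Finset.sum_neg_distrib, ← Finset.sum_add_distrib]
      refine Finset.sum_congr rfl (fun i _ => ?_)
      ring
    simp_rw [h1]
    rw [h, Fintype.card_fin, div_one, mul_one]
    congr 2
    rw [he, he, he]
    push_cast
    rw [Finset.mul_sum, ← Finset.sum_sub_distrib, ← Finset.sum_add_distrib, Finset.mul_sum,
      Finset.sum_div]
    refine Finset.sum_congr rfl (fun i _ => ?_)
    have hI : Complex.I ^ 2 = -1 := Complex.I_sq
    linear_combination ((w' i : ℂ) ^ 2 / 4) * hI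
  have h3 := key (e.symm u) (e.symm w)
  have h4 := key 0 0
  simp only [LinearEquiv.apply_symm_apply] at h3
  simp only [map_zero, Complex.ofReal_zero, mul_zero, add_zero, sub_zero, Complex.exp_zero,
    mul_one] at h4
  rw [h3, h4]
  ring

end IP
end CMT
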