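import Pool.Agent.Lib.CMT.I.Def
import Pool.Agent.Lib.CMT.A.Gau

/-!
# PROJECT CMT, part I, module GauD (helper26): the Gaussian integral in three variables
-/

open scoped BigOperators ComplexConjugate
open MeasureTheory

noncomputable section

namespace CMT
namespace IP

theorem pGauD : S_GauD := by
  intro A hA
  have hpi := Real.pi_pos
  have hpi0 : (Real.pi : ℂ) ≠ 0 := by exact_mod_cast hpi.ne'
  have hA' : ((Real.pi⁻¹ : ℝ) • A).PosDef := hA.smul (inv_pos.2 hpi)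
  have h := Pool.Agent.CMT.tGau hA' 0
  have e1 : ∀ x : Fin 3 → ℝ, Pool.Agent.CMT.gA ((Real.pi⁻¹ : ℝ) • A) 0 x =
      Complex.exp (-((∑ i, ∑ j, A i j * x i * x j : ℝ) : ℂ)) := by
    intro x
    have e2 : dotProduct x (((Real.pi⁻¹ : ℝ) • A).mulVec x) =
        Real.pi⁻¹ * ∑ i, ∑ j, A i j * x i * x j := by
      simp only [dotProduct, Matrix.mulVec, Matrix.smul_apply, smul_eq_mul, Finset.mul_sum]
      refine Finset.sum_congr rfl fun i _ => Finset.sum_congr rfl fun j _ => ?_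
      ring
    have e3 : -(Real.pi : ℂ) * ((Real.pi⁻¹ * ∑ i, ∑ j, A i j * x i * x j : ℝ) : ℂ) +
        2 * Real.pi * ∑ i, (x i : ℂ) * (0 : Fin 3 → ℂ) i =
          -((∑ i, ∑ j, A i j * x i * x j : ℝ) : ℂ) := by
      rw [Complex.ofReal_mul, Complex.ofReal_inv]
      have e4 : ∑ i, (x i : ℂ) * (0 : Fin 3 → ℂ) i = 0 :=
        Finset.sum_eq_zero fun i _ => by rw [Pi.zero_apply, mul_zero]
      rw [e4]
      field_simp
      ring
    unfold Pool.Agent.CMT.gA
    rw [e2, e3]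
  rw [integral_congr_ae (Filter.Eventually.of_forall e1)] at h
  have e5 : Pool.Agent.CMT.qC ((Real.pi⁻¹ : ℝ) • A)⁻¹ (0 : Fin 3 → ℂ) = 0 := by
    unfold Pool.Agent.CMT.qC
    rw [Matrix.mulVec_zero, dotProduct_zero]
  have e6 : ((Real.pi⁻¹ : ℝ) • A).det = (Real.pi ^ 3 / A.det)⁻¹ := by
    rw [Matrix.det_smul, Fintype.card_fin, inv_div, inv_pow, div_eq_inv_mul]
  rw [h, e5, mul_zero, Complex.exp_zero, mul_one, e6, Real.sqrt_inv, inv_inv]

end IP
end CMT
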