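import Pool.Agent.Lib.CMT.I.Def

/-!
# Gaussian integrals with two linear factors (`S_GauQ`)
-/

open scoped BigOperators ComplexConjugate
open MeasureTheory

noncomputable section

namespace CMT
namespace IP

namespace GauQ_aux

variable {E : Type} [NormedAddCommGroup E] [NormedSpace ℝ E] [FiniteDimensional ℝ E]

/-- The Gaussian. -/
def gf (B : E →ₗ[ℝ] E →ₗ[ℝ] ℝ) (w x : E) : ℂ :=
  Complex.exp (-(((B x x : ℝ) : ℂ) + Complex.I * ((B x w : ℝ) : ℂ)))

/-- `x ↦ B(x, v)` with complex values. -/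
def lB (B : E →ₗ[ℝ] E →ₗ[ℝ] ℝ) (v : E) : E →ₗ[ℝ] ℂ where
  toFun x := ((B x v : ℝ) : ℂ)
  map_add' x y := by simp
  map_smul' r x := by simp

omit [FiniteDimensional ℝ E] in
theorem lB_apply (B : E →ₗ[ℝ] E →ₗ[ℝ] ℝ) (v x : E) : lB B v x = ((B x v : ℝ) : ℂ) := rfl

theorem cont1 (B : E →ₗ[ℝ] E →ₗ[ℝ] ℝ) : Continuous fun x => B x x := by
  let BB : E →L[ℝ] E →L[ℝ] ℝ := LinearMap.toContinuousLinearMap
    ((LinearMap.toContinuousLinearMap (𝕜 := ℝ) (E := E) (F' := ℝ)).toLinearMap ∘ₗ B)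
  have h : (fun x => B x x) = fun x => BB x x := rfl
  rw [h]
  exact BB.continuous.clm_apply continuous_id

theorem cont2 (l : E →ₗ[ℝ] ℂ) : Continuous fun x => l x :=
  LinearMap.continuous_of_finiteDimensional l

theorem contg (B : E →ₗ[ℝ] E →ₗ[ℝ] ℝ) (w : E) : Continuous (gf B w) := by
  have h1 := cont1 B
  have h2 : Continuous fun x => ((B x w : ℝ) : ℂ) := cont2 (lB B w)
  unfold gf
  exact Complex.continuous_exp.comp
    ((Complex.continuous_ofReal.comp h1).add (continuous_const.mul h2)).neg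

theorem coer (B : E →ₗ[ℝ] E →ₗ[ℝ] ℝ) (hp : ∀ x, x ≠ 0 → 0 < B x x) :
    ∃ c : ℝ, 0 < c ∧ ∀ x, c * ‖x‖ ^ 2 ≤ B x x := by
  have hprop : ProperSpace E := FiniteDimensional.proper ℝ E
  by_cases hne : (Metric.sphere (0 : E) 1).Nonempty
  · obtain ⟨x0, hx0, hmin⟩ := (isCompact_sphere (0 : E) 1).exists_isMinOn hne
      (cont1 B).continuousOn
    have hx : x0 ≠ 0 := by
      rintro rfl
      simp at hx0
    refine ⟨B x0 x0, hp x0 hx, fun x => ?_⟩
    by_cases h0 : x = 0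
    · subst h0
      simp
    · have hn : 0 < ‖x‖ := norm_pos_iff.2 h0
      have hy : ‖x‖⁻¹ • x ∈ Metric.sphere (0 : E) 1 := by
        rw [mem_sphere_zero_iff_norm, norm_smul, norm_inv, norm_norm, inv_mul_cancel₀ hn.ne']
      have h1 : B x0 x0 ≤ B (‖x‖⁻¹ • x) (‖x‖⁻¹ • x) := hmin hy
      simp only [map_smul, LinearMap.smul_apply, smul_eq_mul] at h1
      have h2 : B x0 x0 * ‖x‖ ^ 2 ≤ ‖x‖⁻¹ * (‖x‖⁻¹ * B x x) * ‖x‖ ^ 2 :=
        mul_le_mul_of_nonneg_right h1 (by positivity)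
      have h3 : ‖x‖⁻¹ * (‖x‖⁻¹ * B x x) * ‖x‖ ^ 2 = B x x := by
        field_simp
      rwa [h3] at h2
  · refine ⟨1, one_pos, fun x => ?_⟩
    have h0 : x = 0 := by
      by_contra h
      have hn : 0 < ‖x‖ := norm_pos_iff.2 h
      refine hne ⟨‖x‖⁻¹ • x, ?_⟩
      rw [mem_sphere_zero_iff_norm, norm_smul, norm_inv, norm_norm, inv_mul_cancel₀ hn.ne']
    subst h0
    simp

theorem grow (l : E →ₗ[ℝ] ℂ) (α : ℂ) : ∃ C : ℝ, 0 ≤ C ∧ ∀ x, ‖l x + α‖ ≤ C * (1 + ‖x‖) := by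
  refine ⟨‖LinearMap.toContinuousLinearMap l‖ + ‖α‖, by positivity, fun x => ?_⟩
  have h1 : ‖l x‖ ≤ ‖LinearMap.toContinuousLinearMap l‖ * ‖x‖ :=
    (LinearMap.toContinuousLinearMap l).le_opNorm x
  have h2 := norm_add_le (l x) α
  have h3 := norm_nonneg (LinearMap.toContinuousLinearMap l)
  have h4 := norm_nonneg α
  have h5 := norm_nonneg x
  nlinarith [mul_nonneg h4 h5]

theorem bound (c : ℝ) (hc : 0 < c) (m : ℕ) (t : ℝ) (ht : 0 ≤ t) :
    (1 + t) ^ m * Real.exp (-(c * t ^ 2)) ≤ m.factorial * Real.exp (1 + 1 / (4 * c)) := by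
  have h1 : (1 + t) ^ m ≤ m.factorial * Real.exp (1 + t) := by
    have h := Real.pow_div_factorial_le_exp (x := 1 + t) (by linarith) m
    rwa [div_le_iff₀ (by positivity), mul_comm] at h
  have h2 : (1 + t) + -(c * t ^ 2) ≤ 1 + 1 / (4 * c) := by
    have h3 : 0 ≤ c * (t - 1 / (2 * c)) ^ 2 := by positivity
    have h4 : c * (t - 1 / (2 * c)) ^ 2 = c * t ^ 2 - t + 1 / (4 * c) := by
      field_simp
      ring
    linarith
  calc (1 + t) ^ m * Real.exp (-(c * t ^ 2))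
      ≤ (m.factorial * Real.exp (1 + t)) * Real.exp (-(c * t ^ 2)) :=
        mul_le_mul_of_nonneg_right h1 (Real.exp_pos _).le
    _ = m.factorial * Real.exp ((1 + t) + -(c * t ^ 2)) := by
        rw [mul_assoc, ← Real.exp_add]
    _ ≤ m.factorial * Real.exp (1 + 1 / (4 * c)) :=
        mul_le_mul_of_nonneg_left (Real.exp_le_exp.2 h2) (by positivity)

omit [FiniteDimensional ℝ E] in
theorem norm_gf (B : E →ₗ[ℝ] E →ₗ[ℝ] ℝ) (w x : E) : ‖gf B w x‖ = Real.exp (-(B x x)) := by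
  rw [gf, Complex.norm_exp]
  congr 1
  simp

variable [MeasurableSpace E] [BorelSpace E] (μ : Measure E) [μ.IsAddHaarMeasure]

theorem intg (B : E →ₗ[ℝ] E →ₗ[ℝ] ℝ) (hp : ∀ x, x ≠ 0 → 0 < B x x) (w : E)
    (l l' : E →ₗ[ℝ] ℂ) (α α' : ℂ) :
    Integrable (fun x => (l x + α) * (l' x + α') * gf B w x) μ := by
  obtain ⟨c, hc, hcB⟩ := coer B hp
  obtain ⟨C, hC0, hC⟩ := grow l α
  obtain ⟨C', hC0', hC'⟩ := grow l' α'
  let n : ℕ := Module.finrank ℝ E + 1
  have hn : (Module.finrank ℝ E : ℝ) < (n : ℝ) := by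
    simp [n]
  set M : ℝ := ((n + 2).factorial : ℝ) * Real.exp (1 + 1 / (4 * c)) with hM
  have hi := (integrable_one_add_norm (E := E) (μ := μ) hn).const_mul (C * C' * M)
  refine hi.mono' ?_ (Filter.Eventually.of_forall fun x => ?_)
  · have h1 : Continuous fun x => (l x + α) * (l' x + α') * gf B w x :=
      (((cont2 l).add continuous_const).mul ((cont2 l').add continuous_const)).mul (contg B w)
    exact h1.aestronglyMeasurable
  · rw [norm_mul, norm_mul, norm_gf]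
    have h1 : (0 : ℝ) < 1 + ‖x‖ := by positivity
    have h2 : Real.exp (-(B x x)) ≤ Real.exp (-(c * ‖x‖ ^ 2)) :=
      Real.exp_le_exp.2 (neg_le_neg (hcB x))
    have h3 := bound c hc (n + 2) ‖x‖ (norm_nonneg x)
    rw [← hM] at h3
    have h4 : (1 + ‖x‖) ^ (-(n : ℝ)) = ((1 + ‖x‖) ^ n)⁻¹ := by
      rw [Real.rpow_neg h1.le, Real.rpow_natCast]
    rw [h4]
    have h5 : (1 + ‖x‖) ^ 2 * Real.exp (-(c * ‖x‖ ^ 2)) ≤ M * ((1 + ‖x‖) ^ n)⁻¹ := by
      rw [← div_eq_mul_inv, le_div_iff₀ (by positivity)]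
      calc (1 + ‖x‖) ^ 2 * Real.exp (-(c * ‖x‖ ^ 2)) * (1 + ‖x‖) ^ n
          = (1 + ‖x‖) ^ (n + 2) * Real.exp (-(c * ‖x‖ ^ 2)) := by ring
        _ ≤ M := h3
    calc ‖l x + α‖ * ‖l' x + α'‖ * Real.exp (-(B x x))
        ≤ (C * (1 + ‖x‖)) * (C' * (1 + ‖x‖)) * Real.exp (-(c * ‖x‖ ^ 2)) := by
          refine mul_le_mul (mul_le_mul (hC x) (hC' x) (norm_nonneg _) (by positivity)) h2
            (Real.exp_pos _).le (by positivity)
      _ = C * C' * ((1 + ‖x‖) ^ 2 * Real.exp (-(c * ‖x‖ ^ 2))) := by ring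
      _ ≤ C * C' * (M * ((1 + ‖x‖) ^ n)⁻¹) :=
          mul_le_mul_of_nonneg_left h5 (mul_nonneg hC0 hC0')
      _ = C * C' * M * ((1 + ‖x‖) ^ n)⁻¹ := by ring

omit [FiniteDimensional ℝ E] [MeasurableSpace E] [BorelSpace E] in
theorem line (a b p q r : ℂ) : HasDerivAt
    (fun t : ℝ => (a + (t : ℂ) * b) * Complex.exp (-(p + q * t + r * (t : ℂ) ^ 2)))
    (b * Complex.exp (-p) - a * q * Complex.exp (-p)) 0 := by
  have ht : HasDerivAt (fun t : ℝ => (t : ℂ)) 1 0 := (hasDerivAt_id (0 : ℝ)).ofReal_comp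
  have h1 : HasDerivAt (fun t : ℝ => a + (t : ℂ) * b) (1 * b) 0 := (ht.mul_const b).const_add a
  have h2 := ((((ht.const_mul q).const_add p).add ((ht.pow 2).const_mul r))).neg
  have h3 := h1.mul h2.cexp
  refine h3.congr_deriv ?_
  simp
  ring

theorem ibp (B : E →ₗ[ℝ] E →ₗ[ℝ] ℝ) (hs : ∀ x y, B x y = B y x)
    (hp : ∀ x, x ≠ 0 → 0 < B x x) (w v : E) (l' : E →ₗ[ℝ] ℂ) (α' : ℂ) :
    ∫ x, (l' x + α') * (2 * ((B x v : ℝ) : ℂ) + Complex.I * ((B v w : ℝ) : ℂ)) * gf B w x ∂μ =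
      l' v * ∫ x, gf B w x ∂μ := by
  have hline : ∀ x : E, HasLineDerivAt ℝ (fun x => (l' x + α') * gf B w x)
      (l' v * gf B w x - (l' x + α') *
        (2 * ((B x v : ℝ) : ℂ) + Complex.I * ((B v w : ℝ) : ℂ)) * gf B w x) x v := by
    intro x
    have h := line (l' x + α') (l' v) (((B x x : ℝ) : ℂ) + Complex.I * ((B x w : ℝ) : ℂ))
      (2 * ((B x v : ℝ) : ℂ) + Complex.I * ((B v w : ℝ) : ℂ)) ((B v v : ℝ) : ℂ)
    have e : (fun t : ℝ => (l' (x + t • v) + α') * gf B w (x + t • v)) =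
        fun t : ℝ => (l' x + α' + (t : ℂ) * l' v) * Complex.exp
          (-(((B x x : ℝ) : ℂ) + Complex.I * ((B x w : ℝ) : ℂ) +
            (2 * ((B x v : ℝ) : ℂ) + Complex.I * ((B v w : ℝ) : ℂ)) * t +
            ((B v v : ℝ) : ℂ) * (t : ℂ) ^ 2)) := by
      funext t
      have e1 : B (x + t • v) (x + t • v) = B x x + 2 * B x v * t + B v v * t ^ 2 := by
        simp only [map_add, map_smul, LinearMap.add_apply, LinearMap.smul_apply, smul_eq_mul]
        rw [hs v x]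
        ring
      have e2 : B (x + t • v) w = B x w + t * B v w := by
        simp only [map_add, map_smul, LinearMap.add_apply, LinearMap.smul_apply, smul_eq_mul]
      have e3 : l' (x + t • v) = l' x + (t : ℂ) * l' v := by
        rw [map_add, map_smul, Complex.real_smul]
      rw [gf, e1, e2, e3]
      push_cast
      congr 1
      · ring
      · congr 1
        ring
    unfold HasLineDerivAt
    rw [e]
    exact h
  have i0 : Integrable (gf B w) μ := by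
    have h := intg μ B hp w 0 0 1 1
    simpa using h
  have i1 : Integrable (fun x => (l' x + α') * gf B w x) μ := by
    have h := intg μ B hp w l' 0 α' 1
    simpa using h
  have i2 : Integrable (fun x => (l' x + α') *
      (2 * ((B x v : ℝ) : ℂ) + Complex.I * ((B v w : ℝ) : ℂ)) * gf B w x) μ := by
    have h := intg μ B hp w l' ((2 : ℝ) • lB B v) α' (Complex.I * ((B v w : ℝ) : ℂ))
    simpa [lB_apply] using h
  have i3 : Integrable (fun x => l' v * gf B w x) μ := i0.const_mul _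
  have i4 : Integrable (fun x => l' v * gf B w x - (l' x + α') *
      (2 * ((B x v : ℝ) : ℂ) + Complex.I * ((B v w : ℝ) : ℂ)) * gf B w x) μ := i3.sub i2
  have key := integral_bilinear_hasLineDerivAt_right_eq_neg_left_of_integrable (μ := μ)
    (f := fun _ : E => (1 : ℂ)) (f' := fun _ => 0) (g := fun x => (l' x + α') * gf B w x)
    (g' := fun x => l' v * gf B w x - (l' x + α') *
        (2 * ((B x v : ℝ) : ℂ) + Complex.I * ((B v w : ℝ) : ℂ)) * gf B w x) (v := v)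
    (B := ContinuousLinearMap.mul ℝ ℂ) (by simp)
    (by simpa using i4) (by simpa using i1)
    (fun x _ => by
      unfold HasLineDerivAt
      exact hasDerivAt_const _ _)
    (fun x _ => hline x)
  have key2 : ∫ x, (l' v * gf B w x - (l' x + α') *
        (2 * ((B x v : ℝ) : ℂ) + Complex.I * ((B v w : ℝ) : ℂ)) * gf B w x) ∂μ = 0 := by
    simpa using key
  rw [integral_sub i3 i2, integral_const_mul, sub_eq_zero] at key2
  exact key2.symm

theorem main1 (B : E →ₗ[ℝ] E →ₗ[ℝ] ℝ) (hs : ∀ x y, B x y = B y x)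
    (hp : ∀ x, x ≠ 0 → 0 < B x x) (w k1 k2 : E) (l l' : E →ₗ[ℝ] ℂ)
    (hl : ∀ x, l x = ((B x k1 : ℝ) : ℂ) + Complex.I * ((B x k2 : ℝ) : ℂ)) (α α' : ℂ) :
    ∫ x, (l x + α) * (l' x + α') * gf B w x ∂μ =
      (α - Complex.I / 2 * l w) * ∫ x, (l' x + α') * gf B w x ∂μ +
        (1 / 2 : ℂ) * (l' k1 + Complex.I * l' k2) * ∫ x, gf B w x ∂μ := by
  have h1 := ibp μ B hs hp w k1 l' α'
  have h2 := ibp μ B hs hp w k2 l' α'
  have i1 : Integrable (fun x => (l' x + α') * gf B w x) μ := by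
    have h := intg μ B hp w l' 0 α' 1
    simpa using h
  have i2 : ∀ v : E, Integrable (fun x => (l' x + α') *
      (2 * ((B x v : ℝ) : ℂ) + Complex.I * ((B v w : ℝ) : ℂ)) * gf B w x) μ := by
    intro v
    have h := intg μ B hp w l' ((2 : ℝ) • lB B v) α' (Complex.I * ((B v w : ℝ) : ℂ))
    simpa [lB_apply] using h
  have e : (fun x => (l x + α) * (l' x + α') * gf B w x) = fun x =>
      ((1 / 2 : ℂ) * ((l' x + α') *
        (2 * ((B x k1 : ℝ) : ℂ) + Complex.I * ((B k1 w : ℝ) : ℂ)) * gf B w x) +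
      (Complex.I / 2) * ((l' x + α') *
        (2 * ((B x k2 : ℝ) : ℂ) + Complex.I * ((B k2 w : ℝ) : ℂ)) * gf B w x)) +
      (α - Complex.I / 2 * l w) * ((l' x + α') * gf B w x) := by
    funext x
    rw [hl x, hl w, hs k1 w, hs k2 w]
    ring_nf
  have j1 : Integrable (fun x => (1 / 2 : ℂ) * ((l' x + α') *
      (2 * ((B x k1 : ℝ) : ℂ) + Complex.I * ((B k1 w : ℝ) : ℂ)) * gf B w x)) μ :=
    (i2 k1).const_mul _
  have j2 : Integrable (fun x => (Complex.I / 2) * ((l' x + α') *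
      (2 * ((B x k2 : ℝ) : ℂ) + Complex.I * ((B k2 w : ℝ) : ℂ)) * gf B w x)) μ :=
    (i2 k2).const_mul _
  have j3 : Integrable (fun x => (1 / 2 : ℂ) * ((l' x + α') *
      (2 * ((B x k1 : ℝ) : ℂ) + Complex.I * ((B k1 w : ℝ) : ℂ)) * gf B w x) +
      (Complex.I / 2) * ((l' x + α') *
      (2 * ((B x k2 : ℝ) : ℂ) + Complex.I * ((B k2 w : ℝ) : ℂ)) * gf B w x)) μ := j1.add j2
  have j4 : Integrable (fun x => (α - Complex.I / 2 * l w) * ((l' x + α') * gf B w x)) μ :=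
    i1.const_mul _
  rw [e, integral_add j3 j4, integral_add j1 j2, integral_const_mul,
    integral_const_mul, integral_const_mul, h1, h2]
  ring

omit [MeasurableSpace E] [BorelSpace E] in
/-- Every functional is of the form `B(·, k') + i B(·, k'')`. -/
theorem repr (B : E →ₗ[ℝ] E →ₗ[ℝ] ℝ) (hs : ∀ x y, B x y = B y x)
    (hp : ∀ x, x ≠ 0 → 0 < B x x) (l : E →ₗ[ℝ] ℂ) : ∃ k1 k2 : E,
    ∀ x, l x = ((B x k1 : ℝ) : ℂ) + Complex.I * ((B x k2 : ℝ) : ℂ) := by
  have hinj : Function.Injective B := by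
    rw [← LinearMap.ker_eq_bot, LinearMap.ker_eq_bot']
    intro x hx
    by_contra h
    have h1 := hp x h
    rw [hx] at h1
    simp at h1
  have hsurj : Function.Surjective B :=
    (LinearMap.injective_iff_surjective_of_finrank_eq_finrank
      (Subspace.dual_finrank_eq (K := ℝ) (V := E)).symm).1 hinj
  obtain ⟨k1, h1⟩ := hsurj (Complex.reLm ∘ₗ l)
  obtain ⟨k2, h2⟩ := hsurj (Complex.imLm ∘ₗ l)
  refine ⟨k1, k2, fun x => ?_⟩
  have e1 : B x k1 = (l x).re := by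
    rw [hs, h1]
    rfl
  have e2 : B x k2 = (l x).im := by
    rw [hs, h2]
    rfl
  rw [e1, e2, mul_comm]
  exact (Complex.re_add_im (l x)).symm

end GauQ_aux

open GauQ_aux in
theorem pGauQ (h : S_Gau) : S_GauQ := by
  intro E _ _ _ _ _ μ _ B hs hp l l' k1 k2 w hl α α'
  have hI : ∫ x, gf B w x ∂μ = Complex.exp (-((1 / 4 : ℂ) * ((B w w : ℝ) : ℂ))) *
      ∫ x, Complex.exp (-((B x x : ℝ) : ℂ)) ∂μ := by
    have h1 := h E μ B hs hp 0 w
    simp only [map_zero, Complex.ofReal_zero, add_zero, LinearMap.zero_apply, mul_zero,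
      zero_sub] at h1
    rw [mul_neg] at h1
    exact h1
  obtain ⟨k3, k4, hl'⟩ := repr B hs hp l'
  have h2 := main1 μ B hs hp w k1 k2 l l' hl α α'
  have h3 := main1 μ B hs hp w k3 k4 l' 0 hl' α' 1
  simp only [LinearMap.zero_apply, zero_add, mul_one, one_mul, mul_zero, add_zero,
    zero_mul] at h3
  have h4 : ∫ x, (l x + α) * (l' x + α') *
      Complex.exp (-(((B x x : ℝ) : ℂ) + Complex.I * ((B x w : ℝ) : ℂ))) ∂μ =
      ∫ x, (l x + α) * (l' x + α') * gf B w x ∂μ := rfl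
  rw [h4, h2, h3, hI]
  ring

end IP
end CMT
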