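import Pool.Agent.Lib.CMT.I.Def

/-!
# PROJECT CMT, part I : `S_Inv2` from `S_PF`, `S_EqA`, `S_PhiG` (and `S_Act`)
-/

open scoped BigOperators ComplexConjugate

noncomputable section

namespace CMT
namespace IP

variable {F : Type} [Field F] [NumberField F]

/-- `v ↦ g v` as a bijection of `(K³)²`. -/
def gvE (D : Dat F) (g : SG D) : (Fin 2 → Fin 3 → KD D) ≃ (Fin 2 → Fin 3 → KD D) where
  toFun := gv D g
  invFun := gv D g⁻¹
  left_inv := by
    intro v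
    funext a
    have h1 : (g⁻¹).1 * g.1 = 1 := congrArg Subtype.val (inv_mul_cancel g)
    show (g⁻¹).1.mulVec (g.1.mulVec (v a)) = v a
    rw [Matrix.mulVec_mulVec, h1, Matrix.one_mulVec]
  right_inv := by
    intro v
    funext a
    have h1 : g.1 * (g⁻¹).1 = 1 := congrArg Subtype.val (mul_inv_cancel g)
    show g.1.mulVec ((g⁻¹).1.mulVec (v a)) = v a
    rw [Matrix.mulVec_mulVec, h1, Matrix.one_mulVec]

theorem gvE_apply (D : Dat F) (g : SG D) (v : Fin 2 → Fin 3 → KD D) : gvE D g v = gv D g v := rfl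

theorem pInv2 (hA : S_Act) (h1 : S_PF) (h2 : S_EqA) (h3 : S_PhiG) : S_Inv2 := by
  intro F _ _ _ D a1 a2 ha1 ha2 ψ hψ
  obtain ⟨M, hM, Φ, hΦ, hf⟩ := h1 F D a1 a2 ha1 ha2 ψ hψ
  refine ⟨M ^ 2, pow_pos hM 2, ?_⟩
  intro E E' hE hE' g hg z hz
  obtain ⟨C, hC⟩ := hf E E' hE hE'
  have hiso : IsIso D g := hg.1
  have hgz : act D g z ∈ Ball D := ((hA F D).2.1 g hiso z hz).1
  show ker D a1 a2 E ψ (act D g z) * conj (ker D a1 a2 E' ψ (act D g z)) =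
    ((‖num D g z 2‖ ^ 6 : ℝ) : ℂ) * (ker D a1 a2 E ψ z * conj (ker D a1 a2 E' ψ z))
  rw [hC _ hgz, hC z hz]
  have h4 : ∑' v : Fin 2 → Fin 3 → KD D, Φ v * AA D a1 a2 E E' (act D g z) v =
      ((‖num D g z 2‖ ^ 6 : ℝ) : ℂ) * ∑' v : Fin 2 → Fin 3 → KD D, Φ v * AA D a1 a2 E E' z v := by
    rw [← (gvE D g).tsum_eq (fun v => Φ v * AA D a1 a2 E E' (act D g z) v), ← tsum_mul_left]
    refine tsum_congr fun v => ?_
    rw [gvE_apply, h2 F D a1 a2 ha1 ha2 E E' g hiso z hz v, h3 F D M hM Φ hΦ g hg v]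
    ring
  rw [h4]
  ring

end IP
end CMT
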