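import Pool.Agent.Lib.CMT.I.Def
import Pool.Agent.Lib.CMT.C.Pos

/-!
PROJECT CMT, part I, `S_Loc0` (helper45): the local integral at `t0`.
-/

open scoped BigOperators ComplexConjugate
open MeasureTheory Matrix

noncomputable section

namespace CMT
namespace IP

/-! ### Algebra with independent variables -/

/-- `(x, ẑ)`, complex. -/
def lC (b z1 z2 : ℂ) (x : Fin 3 → ℂ) : ℂ := x 0 * z1 + x 1 * z2 - b * x 2

/-- `q(x,y) = (x,y) + l(x)l(y)/m + l'(x)l'(y)/m'`. -/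
def qC (b z1 z2 w1 w2 : ℂ) (x y : Fin 3 → ℂ) : ℂ :=
  x 0 * y 0 + x 1 * y 1 - b * (x 2 * y 2) +
    lC b z1 z2 x * lC b z1 z2 y / (b - z1 ^ 2 - z2 ^ 2) +
    lC b w1 w2 x * lC b w1 w2 y / (b - w1 ^ 2 - w2 ^ 2)

/-- coordinate `j` of `(z1,z2)`. -/
def zj (z1 z2 : ℂ) (j : Fin 2) : ℂ := if j = 0 then z1 else z2

/-- `ℓ_j(x) = x_j + l(x) z_j / m`. -/
def eC (b z1 z2 : ℂ) (j : Fin 2) (x : Fin 3 → ℂ) : ℂ :=
  (if j = 0 then x 0 else x 1) + lC b z1 z2 x * zj z1 z2 j / (b - z1 ^ 2 - z2 ^ 2)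

/-- the vector `p + (w_j/H) ẑ`. -/
def pC (b z1 z2 w1 w2 : ℂ) (j : Fin 2) : Fin 3 → ℂ :=
  ![(if j = 0 then 1 else 0) + zj w1 w2 j / (b - z1 * w1 - z2 * w2) * z1,
    (if j = 0 then 0 else 1) + zj w1 w2 j / (b - z1 * w1 - z2 * w2) * z2,
    zj w1 w2 j / (b - z1 * w1 - z2 * w2)]

lemma eC_eq {b z1 z2 w1 w2 : ℂ} (hm : b - z1 ^ 2 - z2 ^ 2 ≠ 0) (hn : b - w1 ^ 2 - w2 ^ 2 ≠ 0)
    (hH : b - z1 * w1 - z2 * w2 ≠ 0) (j : Fin 2) (x : Fin 3 → ℂ) :
    eC b z1 z2 j x = qC b z1 z2 w1 w2 x (pC b z1 z2 w1 w2 j) := by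
  fin_cases j
  · simp only [eC, qC, pC, zj, lC, Fin.zero_eta, Fin.isValue, if_true, Matrix.cons_val_zero,
      Matrix.cons_val_one, Matrix.cons_val]
    field_simp
    ring
  · simp only [eC, qC, pC, zj, lC, Fin.mk_one, Fin.isValue, one_ne_zero, if_false,
      Matrix.cons_val_zero, Matrix.cons_val_one, Matrix.cons_val]
    field_simp
    ring

/-- `ẑ`. -/
def hC (z1 z2 : ℂ) : Fin 3 → ℂ := ![z1, z2, 1]

/-- The vector `S* = s Y + i (a z^ - a' w^)`. -/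
def sC (z1 z2 w1 w2 : ℂ) (Y : Fin 3 → ℂ) (s a a' : ℂ) : Fin 3 → ℂ := fun i =>
  s * Y i + Complex.I * (a * hC z1 z2 i - a' * hC w1 w2 i)

section

variable {b z1 z2 w1 w2 : ℂ} {R Y : Fin 3 → ℂ} {s a a' : ℂ}

lemma lC_sC (h' : (b - z1 * w1 - z2 * w2) * a' = -(lC b z1 z2 R - Complex.I * s * lC b z1 z2 Y)) :
    lC b z1 z2 (sC z1 z2 w1 w2 Y s a a') =
      -Complex.I * (a * (b - z1 ^ 2 - z2 ^ 2) + lC b z1 z2 R) := by
  simp only [sC, lC, hC, Matrix.cons_val_zero, Matrix.cons_val_one, Matrix.cons_val] at *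
  linear_combination Complex.I * h' + s * (Y 0 * z1 + Y 1 * z2 - b * Y 2) * Complex.I_sq

lemma lC_sC' (h : (b - z1 * w1 - z2 * w2) * a = -(lC b w1 w2 R + Complex.I * s * lC b w1 w2 Y)) :
    lC b w1 w2 (sC z1 z2 w1 w2 Y s a a') =
      Complex.I * (a' * (b - w1 ^ 2 - w2 ^ 2) + lC b w1 w2 R) := by
  simp only [sC, lC, hC, Matrix.cons_val_zero, Matrix.cons_val_one, Matrix.cons_val] at *
  linear_combination (-Complex.I) * h + s * (Y 0 * w1 + Y 1 * w2 - b * Y 2) * Complex.I_sq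

lemma sC_eq (hm : b - z1 ^ 2 - z2 ^ 2 ≠ 0) (hn : b - w1 ^ 2 - w2 ^ 2 ≠ 0)
    (h : (b - z1 * w1 - z2 * w2) * a = -(lC b w1 w2 R + Complex.I * s * lC b w1 w2 Y))
    (h' : (b - z1 * w1 - z2 * w2) * a' = -(lC b z1 z2 R - Complex.I * s * lC b z1 z2 Y))
    (x : Fin 3 → ℂ) :
    qC b z1 z2 w1 w2 x (sC z1 z2 w1 w2 Y s a a') =
      -Complex.I * (lC b z1 z2 x * lC b z1 z2 R / (b - z1 ^ 2 - z2 ^ 2) -
        lC b w1 w2 x * lC b w1 w2 R / (b - w1 ^ 2 - w2 ^ 2)) +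
      s * (x 0 * Y 0 + x 1 * Y 1 - b * (x 2 * Y 2)) := by
  unfold qC
  rw [lC_sC h', lC_sC' h]
  have e : x 0 * sC z1 z2 w1 w2 Y s a a' 0 + x 1 * sC z1 z2 w1 w2 Y s a a' 1
      - b * (x 2 * sC z1 z2 w1 w2 Y s a a' 2) =
      s * (x 0 * Y 0 + x 1 * Y 1 - b * (x 2 * Y 2)) +
        Complex.I * (a * lC b z1 z2 x - a' * lC b w1 w2 x) := by
    simp only [sC, lC, hC, Matrix.cons_val_zero, Matrix.cons_val_one, Matrix.cons_val]
    ring
  rw [e]
  field_simp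
  ring

/-- `q(R,R) + q(S*,S*)`. -/
lemma qC_add (hm : b - z1 ^ 2 - z2 ^ 2 ≠ 0) (hn : b - w1 ^ 2 - w2 ^ 2 ≠ 0)
    (hH : b - z1 * w1 - z2 * w2 ≠ 0)
    (h : (b - z1 * w1 - z2 * w2) * a = -(lC b w1 w2 R + Complex.I * s * lC b w1 w2 Y))
    (h' : (b - z1 * w1 - z2 * w2) * a' = -(lC b z1 z2 R - Complex.I * s * lC b z1 z2 Y)) :
    qC b z1 z2 w1 w2 R R + qC b z1 z2 w1 w2 (sC z1 z2 w1 w2 Y s a a') (sC z1 z2 w1 w2 Y s a a') =
      (R 0 + Complex.I * s * Y 0) * (R 0 - Complex.I * s * Y 0) +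
      (R 1 + Complex.I * s * Y 1) * (R 1 - Complex.I * s * Y 1) -
      b * ((R 2 + Complex.I * s * Y 2) * (R 2 - Complex.I * s * Y 2)) +
      2 * ((b - z1 * w1 - z2 * w2) * a * ((b - z1 * w1 - z2 * w2) * a')) /
        (b - z1 * w1 - z2 * w2) := by
  rw [sC_eq hm hn h h', lC_sC h', lC_sC' h]
  have e : sC z1 z2 w1 w2 Y s a a' 0 * Y 0 + sC z1 z2 w1 w2 Y s a a' 1 * Y 1
      - b * (sC z1 z2 w1 w2 Y s a a' 2 * Y 2) =
      s * (Y 0 * Y 0 + Y 1 * Y 1 - b * (Y 2 * Y 2)) +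
        Complex.I * (a * lC b z1 z2 Y - a' * lC b w1 w2 Y) := by
    simp only [sC, lC, hC, Matrix.cons_val_zero, Matrix.cons_val_one, Matrix.cons_val]
    ring
  rw [e]
  have hI : Complex.I ^ 2 = -1 := Complex.I_sq
  have e2 : qC b z1 z2 w1 w2 R R = R 0 * R 0 + R 1 * R 1 - b * (R 2 * R 2) +
    lC b z1 z2 R * lC b z1 z2 R / (b - z1 ^ 2 - z2 ^ 2) +
    lC b w1 w2 R * lC b w1 w2 R / (b - w1 ^ 2 - w2 ^ 2) := rfl
  rw [e2]
  obtain ⟨mi, hmi, hmi'⟩ : ∃ mi : ℂ, (b - z1 ^ 2 - z2 ^ 2) * mi = 1 ∧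
      ∀ x : ℂ, x / (b - z1 ^ 2 - z2 ^ 2) = x * mi :=
    ⟨(b - z1 ^ 2 - z2 ^ 2)⁻¹, mul_inv_cancel₀ hm, fun x => div_eq_mul_inv _ _⟩
  obtain ⟨ni, hni, hni'⟩ : ∃ ni : ℂ, (b - w1 ^ 2 - w2 ^ 2) * ni = 1 ∧
      ∀ x : ℂ, x / (b - w1 ^ 2 - w2 ^ 2) = x * ni :=
    ⟨(b - w1 ^ 2 - w2 ^ 2)⁻¹, mul_inv_cancel₀ hn, fun x => div_eq_mul_inv _ _⟩
  obtain ⟨Hi, hHi, hHi'⟩ : ∃ Hi : ℂ, (b - z1 * w1 - z2 * w2) * Hi = 1 ∧
      ∀ x : ℂ, x / (b - z1 * w1 - z2 * w2) = x * Hi :=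
    ⟨(b - z1 * w1 - z2 * w2)⁻¹, mul_inv_cancel₀ hH, fun x => div_eq_mul_inv _ _⟩
  simp only [hmi', hni', hHi']
  generalize lC b w1 w2 R = r' at *
  generalize lC b z1 z2 R = r at *
  generalize lC b w1 w2 Y = y' at *
  generalize lC b z1 z2 Y = y at *
  generalize b - z1 ^ 2 - z2 ^ 2 = m at *
  generalize b - w1 ^ 2 - w2 ^ 2 = n at *
  generalize b - z1 * w1 - z2 * w2 = H at *
  linear_combination (-a * r) * hmi + (-a' * r') * hni + ((a * m + r) * r * mi +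
    (a' * n + r') * r' * ni + s ^ 2 * (Y 0 * Y 0 + Y 1 * Y 1 - b * (Y 2 * Y 2))) * hI
    - a * h' - a' * h - 2 * H * a * a' * hHi

/-- The centre value. -/
lemma eC_centre (hm : b - z1 ^ 2 - z2 ^ 2 ≠ 0)
    (h' : (b - z1 * w1 - z2 * w2) * a' = -(lC b z1 z2 R - Complex.I * s * lC b z1 z2 Y))
    (j : Fin 2) :
    eC b z1 z2 j R - Complex.I * eC b z1 z2 j (sC z1 z2 w1 w2 Y s a a') =
      (if j = 0 then R 0 - Complex.I * s * Y 0 else R 1 - Complex.I * s * Y 1) -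
        zj w1 w2 j * a' := by
  unfold eC
  rw [lC_sC h']
  obtain ⟨mi, hmi, hmi'⟩ : ∃ mi : ℂ, (b - z1 ^ 2 - z2 ^ 2) * mi = 1 ∧
      ∀ x : ℂ, x / (b - z1 ^ 2 - z2 ^ 2) = x * mi :=
    ⟨(b - z1 ^ 2 - z2 ^ 2)⁻¹, mul_inv_cancel₀ hm, fun x => div_eq_mul_inv _ _⟩
  simp only [hmi']
  have hI : Complex.I ^ 2 = -1 := Complex.I_sq
  generalize lC b z1 z2 R = r at *
  fin_cases j
  · simp only [zj, sC, hC, Fin.zero_eta, Fin.isValue, if_true, Matrix.cons_val_zero]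
    linear_combination a * z1 * Complex.I ^ 2 * hmi + w1 * a' * hI + z1 * r * mi * hI
  · simp only [zj, sC, hC, Fin.mk_one, Fin.isValue, one_ne_zero, if_false, Matrix.cons_val_one,
      Matrix.cons_val_zero]
    linear_combination a * z2 * Complex.I ^ 2 * hmi + w2 * a' * hI + z2 * r * mi * hI

/-- The contraction. -/
lemma eC_contr (hH : b - z1 * w1 - z2 * w2 ≠ 0) (j j' : Fin 2) :
    eC b w1 w2 j' (pC b z1 z2 w1 w2 j) =
      (if j = j' then 1 else 0) + zj w1 w2 j * zj z1 z2 j' / (b - z1 * w1 - z2 * w2) := by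
  have h0 : lC b w1 w2 (pC b z1 z2 w1 w2 j) = 0 := by
    obtain ⟨Hi, hHi, hHi'⟩ : ∃ Hi : ℂ, (b - z1 * w1 - z2 * w2) * Hi = 1 ∧
        ∀ x : ℂ, x / (b - z1 * w1 - z2 * w2) = x * Hi :=
      ⟨(b - z1 * w1 - z2 * w2)⁻¹, mul_inv_cancel₀ hH, fun x => div_eq_mul_inv _ _⟩
    fin_cases j
    · simp only [lC, pC, zj, Fin.zero_eta, Fin.isValue, if_true, Matrix.cons_val_zero,
        Matrix.cons_val_one, Matrix.cons_val, hHi']
      linear_combination (-w1) * hHi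
    · simp only [lC, pC, zj, Fin.mk_one, Fin.isValue, one_ne_zero, if_false,
        Matrix.cons_val_zero, Matrix.cons_val_one, Matrix.cons_val, hHi']
      linear_combination (-w2) * hHi
  unfold eC
  rw [h0, zero_mul, zero_div, add_zero]
  fin_cases j <;> fin_cases j' <;> simp [pC, zj] <;> ring

/-- The determinant. -/
lemma det_q (hm : b - z1 ^ 2 - z2 ^ 2 ≠ 0) (hn : b - w1 ^ 2 - w2 ^ 2 ≠ 0) (c : ℂ) :
    (Matrix.of fun i j : Fin 3 => 2 * c * ((if i = j then (![1, 1, -b] : Fin 3 → ℂ) i else 0) +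
      (![z1, z2, -b] : Fin 3 → ℂ) i * (![z1, z2, -b] : Fin 3 → ℂ) j / (b - z1 ^ 2 - z2 ^ 2) +
      (![w1, w2, -b] : Fin 3 → ℂ) i * (![w1, w2, -b] : Fin 3 → ℂ) j /
        (b - w1 ^ 2 - w2 ^ 2))).det =
      (2 * c) ^ 3 * (b * (b - z1 * w1 - z2 * w2) ^ 2) /
        ((b - z1 ^ 2 - z2 ^ 2) * (b - w1 ^ 2 - w2 ^ 2)) := by
  rw [det_fin_three]
  simp only [Matrix.of_apply, Fin.isValue, Fin.reduceEq, if_true, if_false, Matrix.cons_val_zero,
    Matrix.cons_val_one, Matrix.cons_val]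
  field_simp
  ring

end

/-! ### The real form -/

/-- Real vectors as complex vectors. -/
def cx (x : Fin 3 → ℝ) : Fin 3 → ℂ := fun i => (x i : ℂ)

/-- The matrix of `2 c q`. -/
def Am (b c : ℝ) (z : ℂ × ℂ) : Matrix (Fin 3) (Fin 3) ℝ :=
  Matrix.of fun i j => 2 * c * ((if i = j then (![1, 1, -b] : Fin 3 → ℝ) i else 0) +
    2 * ((![z.1, z.2, -(b : ℂ)] : Fin 3 → ℂ) i * (![z.1, z.2, -(b : ℂ)] : Fin 3 → ℂ) j /
      mm b z).re)

/-- The form `2 c q`. -/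
def Bf (b c : ℝ) (z : ℂ × ℂ) : (Fin 3 → ℝ) →ₗ[ℝ] (Fin 3 → ℝ) →ₗ[ℝ] ℝ := Matrix.toBilin' (Am b c z)

variable {b c : ℝ} {z : ℂ × ℂ}

lemma conj_mm : conj (mm b z) = (b : ℂ) - conj z.1 ^ 2 - conj z.2 ^ 2 := by
  simp [mm]

lemma conj_vec (i : Fin 3) : conj ((![z.1, z.2, -(b : ℂ)] : Fin 3 → ℂ) i) =
    (![conj z.1, conj z.2, -(b : ℂ)] : Fin 3 → ℂ) i := by
  fin_cases i <;> simp

lemma Am_cast (i j : Fin 3) : ((Am b c z i j : ℝ) : ℂ) =
    2 * (c : ℂ) * ((if i = j then (![1, 1, -(b : ℂ)] : Fin 3 → ℂ) i else 0) +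
      (![z.1, z.2, -(b : ℂ)] : Fin 3 → ℂ) i * (![z.1, z.2, -(b : ℂ)] : Fin 3 → ℂ) j /
        ((b : ℂ) - z.1 ^ 2 - z.2 ^ 2) +
      (![conj z.1, conj z.2, -(b : ℂ)] : Fin 3 → ℂ) i *
        (![conj z.1, conj z.2, -(b : ℂ)] : Fin 3 → ℂ) j /
        ((b : ℂ) - conj z.1 ^ 2 - conj z.2 ^ 2)) := by
  have h1 : ((if i = j then (![1, 1, -b] : Fin 3 → ℝ) i else 0 : ℝ) : ℂ) =
      if i = j then (![1, 1, -(b : ℂ)] : Fin 3 → ℂ) i else 0 := by
    split_ifs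
    · fin_cases i <;> simp
    · simp
  rw [Am, Matrix.of_apply]
  push_cast
  rw [h1, Complex.re_eq_add_conj, map_div₀, map_mul, conj_vec, conj_vec, conj_mm]
  unfold mm
  ring

lemma Bf_apply (x y : Fin 3 → ℝ) : ((Bf b c z x y : ℝ) : ℂ) =
    2 * (c : ℂ) * qC b z.1 z.2 (conj z.1) (conj z.2) (cx x) (cx y) := by
  rw [Bf, Matrix.toBilin'_apply]
  push_cast
  simp only [Am_cast, Fin.sum_univ_three, Fin.isValue, Fin.reduceEq, if_true, if_false,
    Matrix.cons_val_zero, Matrix.cons_val_one, Matrix.cons_val, qC, lC, cx]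
  ring

lemma Bf_symm (x y : Fin 3 → ℝ) : Bf b c z x y = Bf b c z y x := by
  have h : ((Bf b c z x y : ℝ) : ℂ) = ((Bf b c z y x : ℝ) : ℂ) := by
    rw [Bf_apply, Bf_apply]; unfold qC; ring
  exact_mod_cast h

lemma ll_eq (x : Fin 3 → ℝ) : ll b x z = lC b z.1 z.2 (cx x) := by
  simp only [ll, lC, cx]

lemma conj_lC (x : Fin 3 → ℝ) :
    conj (lC b z.1 z.2 (cx x)) = lC b (conj z.1) (conj z.2) (cx x) := by
  simp [lC, cx]

section

variable (hz : ‖z.1‖ ^ 2 + ‖z.2‖ ^ 2 < b)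

include hz

lemma mne : (b : ℂ) - z.1 ^ 2 - z.2 ^ 2 ≠ 0 := mm_ne hz

lemma nne : (b : ℂ) - conj z.1 ^ 2 - conj z.2 ^ 2 ≠ 0 := by
  rw [← conj_mm]; exact (map_ne_zero _).2 (mm_ne hz)

lemma ex0_eq (x : Fin 3 → ℝ) : ex0 b x z = ((qf b x x : ℝ) : ℂ) +
    2 * (lC b z.1 z.2 (cx x) ^ 2 / ((b : ℂ) - z.1 ^ 2 - z.2 ^ 2)) := by
  rw [ex0, uu_sq hz, ll_eq]; rfl

lemma Bf_self (x : Fin 3 → ℝ) : Bf b c z x x = 2 * c * (ex0 b x z).re := by
  have h1 : ((Bf b c z x x : ℝ) : ℂ) = ((2 * c * (ex0 b x z).re : ℝ) : ℂ) := by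
    rw [Bf_apply]
    push_cast
    rw [Complex.re_eq_add_conj, ex0_eq hz]
    simp only [map_add, map_mul, map_div₀, map_pow, map_sub, Complex.conj_ofReal, conj_lC,
      map_ofNat]
    have h2 : ((qf b x x : ℝ) : ℂ) = (x 0 : ℂ) * x 0 + (x 1 : ℂ) * x 1 - b * ((x 2 : ℂ) * x 2) := by
      unfold qf; push_cast; ring
    rw [h2]
    unfold qC
    simp only [cx]
    ring
  exact_mod_cast h1

lemma Bf_pos (hc : 0 < c) {x : Fin 3 → ℝ} (hx : x ≠ 0) : 0 < Bf b c z x x := by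
  have hb : 0 < b := lt_of_le_of_lt (by positivity) hz
  set Z := ‖z.1‖ ^ 2 + ‖z.2‖ ^ 2 with hZ
  have hZ0 : 0 ≤ Z := by positivity
  set ρ := Real.sqrt ((Z + b) / (2 * b)) with hρ
  have hρ2 : ρ ^ 2 = (Z + b) / (2 * b) := Real.sq_sqrt (by positivity)
  have hρ0 : 0 ≤ ρ := Real.sqrt_nonneg _
  have hρ1 : ρ < 1 := by
    rw [hρ, Real.sqrt_lt' one_pos, one_pow, div_lt_one (by positivity)]
    linarith
  have hzs : z ∈ sball b ρ := by
    show ‖z.1‖ ^ 2 + ‖z.2‖ ^ 2 < ρ ^ 2 * b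
    rw [hρ2, ← hZ]
    have : (Z + b) / (2 * b) * b = (Z + b) / 2 := by field_simp
    rw [this]; linarith
  have h1 := re_q_ge hb hρ0 hρ1 hzs x
  rw [Bf_self hz]
  have h2 : 0 < x 0 ^ 2 + x 1 ^ 2 + b * x 2 ^ 2 := by
    by_contra hcon
    push Not at hcon
    apply hx
    have e0 := sq_nonneg (x 0)
    have e1 := sq_nonneg (x 1)
    have e2 : 0 ≤ b * x 2 ^ 2 := by positivity
    have f0 : x 0 ^ 2 = 0 := by linarith
    have f1 : x 1 ^ 2 = 0 := by linarith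
    have f2 : b * x 2 ^ 2 = 0 := by linarith
    have f2' : x 2 ^ 2 = 0 := (mul_eq_zero.1 f2).resolve_left hb.ne'
    funext i
    fin_cases i
    · exact pow_eq_zero_iff two_ne_zero |>.1 f0
    · exact pow_eq_zero_iff two_ne_zero |>.1 f1
    · exact pow_eq_zero_iff two_ne_zero |>.1 f2'
  have h3 : 0 < (1 - ρ) ^ 3 / 4 * (x 0 ^ 2 + x 1 ^ 2 + b * x 2 ^ 2) := by
    have : 0 < 1 - ρ := by linarith
    positivity
  have h4 : 0 < (ex0 b x z).re := lt_of_lt_of_le h3 h1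
  positivity

lemma Am_posDef (hc : 0 < c) : (Am b c z).PosDef := by
  apply Matrix.PosDef.of_dotProduct_mulVec_pos
  · ext i j
    rw [Matrix.conjTranspose_apply, star_trivial]
    simp only [Am, Matrix.of_apply]
    congr 2
    · by_cases h : i = j
      · subst h; rfl
      · rw [if_neg h, if_neg (Ne.symm h)]
    · rw [mul_comm ((![z.1, z.2, -(b : ℂ)] : Fin 3 → ℂ) j)]
  · intro x hx
    have h := Bf_pos hz hc hx
    rw [Bf, Matrix.toBilin'_apply'] at h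
    simpa using h

lemma Am_det : (Am b c z).det =
    (2 * c) ^ 3 * (b * (b - ‖z.1‖ ^ 2 - ‖z.2‖ ^ 2) ^ 2) / ‖mm b z‖ ^ 2 := by
  have h1 := det_q (b := (b : ℂ)) (z1 := z.1) (z2 := z.2) (w1 := conj z.1) (w2 := conj z.2)
    (mne hz) (nne hz) (c : ℂ)
  have h2 : (((Am b c z).det : ℝ) : ℂ) =
      (((2 * c) ^ 3 * (b * (b - ‖z.1‖ ^ 2 - ‖z.2‖ ^ 2) ^ 2) / ‖mm b z‖ ^ 2 : ℝ) : ℂ) := by
    have h3 : (((Am b c z).det : ℝ) : ℂ) = ((Am b c z).map (fun r : ℝ => (r : ℂ))).det := by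
      exact (Complex.ofRealHom.map_det (Am b c z))
    rw [h3]
    refine Eq.trans (Eq.trans ?_ h1) ?_
    · congr 1
      ext1 i j
      rw [Matrix.map_apply, Am_cast]
      rfl
    push_cast
    have h5 : ((‖mm b z‖ ^ 2 : ℝ) : ℂ) = mm b z * conj (mm b z) := by
      rw [Complex.mul_conj, Complex.normSq_eq_norm_sq]
    push_cast at h5
    rw [h5, conj_mm]
    have h6 : z.1 * conj z.1 = ((‖z.1‖ : ℝ) : ℂ) ^ 2 := by
      rw [Complex.mul_conj, Complex.normSq_eq_norm_sq]; push_cast; rfl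
    have h7 : z.2 * conj z.2 = ((‖z.2‖ : ℝ) : ℂ) ^ 2 := by
      rw [Complex.mul_conj, Complex.normSq_eq_norm_sq]; push_cast; rfl
    rw [h6, h7]
    rfl
  exact_mod_cast h2

lemma duc_eq (x : Fin 3 → ℝ) (j : Fin 2) : duc b x z j = eC b z.1 z.2 j (cx x) / ss b z := by
  have hm : mm b z ≠ 0 := mm_ne hz
  have hs : ss b z ≠ 0 := ss_ne hz
  have hm' : (b : ℂ) - z.1 ^ 2 - z.2 ^ 2 = mm b z := rfl
  unfold duc eC du
  rw [hm', ll_eq]
  fin_cases j
  · simp only [Fin.zero_eta, Fin.isValue, if_true, zj, cx]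
    field_simp
  · simp only [Fin.mk_one, Fin.isValue, one_ne_zero, if_false, zj, cx]
    field_simp

end

/-- `ℓ_j` as a real linear map. -/
def eL (b z1 z2 : ℂ) (j : Fin 2) : (Fin 3 → ℝ) →ₗ[ℝ] ℂ where
  toFun x := eC b z1 z2 j (cx x)
  map_add' x y := by
    unfold eC lC cx
    split_ifs <;> simp only [Pi.add_apply, Complex.ofReal_add] <;> ring
  map_smul' r x := by
    unfold eC lC cx
    split_ifs <;> simp only [Pi.smul_apply, smul_eq_mul, Complex.ofReal_mul, RingHom.id_apply,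
      Complex.real_smul] <;> ring

lemma eL_apply (b z1 z2 : ℂ) (j : Fin 2) (x : Fin 3 → ℝ) :
    eL b z1 z2 j x = eC b z1 z2 j (cx x) := rfl

lemma eC_comb (b z1 z2 : ℂ) (j : Fin 2) (x y : Fin 3 → ℂ) (r : ℂ) :
    eC b z1 z2 j (fun i => x i + r * y i) = eC b z1 z2 j x + r * eC b z1 z2 j y := by
  unfold eC lC
  split_ifs <;> ring

lemma qC_comb (b z1 z2 w1 w2 : ℂ) (u x y : Fin 3 → ℂ) (r : ℂ) :
    qC b z1 z2 w1 w2 u (fun i => x i + r * y i) =
      qC b z1 z2 w1 w2 u x + r * qC b z1 z2 w1 w2 u y := by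
  unfold qC lC
  ring

lemma conj_eC (b : ℝ) (z : ℂ × ℂ) (j : Fin 2) (x : Fin 3 → ℝ) :
    conj (eC b z.1 z.2 j (cx x)) = eC b (conj z.1) (conj z.2) j (cx x) := by
  unfold eC
  rw [map_add, map_div₀, map_mul, conj_lC]
  have h1 : conj ((b : ℂ) - z.1 ^ 2 - z.2 ^ 2) = (b : ℂ) - conj z.1 ^ 2 - conj z.2 ^ 2 := by simp
  have h2 : conj (zj z.1 z.2 j) = zj (conj z.1) (conj z.2) j := by
    unfold zj; split_ifs <;> rfl
  have h3 : conj (if j = 0 then cx x 0 else cx x 1) = if j = 0 then cx x 0 else cx x 1 := by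
    split_ifs <;> simp [cx]
  rw [h1, h2, h3]

lemma cx_half (x R : Fin 3 → ℝ) : cx (x + (1 / 2 : ℝ) • R) = fun i => cx x i + (1 / 2 : ℂ) * cx R i := by
  funext i; simp [cx]

lemma cx_half' (x R : Fin 3 → ℝ) :
    cx (x - (1 / 2 : ℝ) • R) = fun i => cx x i + (-(1 / 2) : ℂ) * cx R i := by
  funext i; simp [cx]; ring

theorem pLoc0 (h1 : S_GauQ) (h2 : S_GauD) : S_Loc0 := by
  intro b α sd hb hα hsd
  obtain ⟨c, hcdef⟩ : ∃ c : ℝ, Real.pi / sd * α = c := ⟨_, rfl⟩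
  have hc : 0 < c := by rw [← hcdef]; positivity
  have hpc : Real.pi * α = c * sd := by rw [← hcdef]; field_simp
  rw [hcdef]
  refine ⟨((Real.sqrt ((Real.pi / (2 * c)) ^ 3 / b) : ℝ) : ℂ), fun z hz R Y j j' => ?_⟩
  have hm := mne hz
  have hn := nne hz
  have hm0 : mm b z ≠ 0 := mm_ne hz
  have hs0 : ss b z ≠ 0 := ss_ne hz
  set H : ℝ := b - ‖z.1‖ ^ 2 - ‖z.2‖ ^ 2 with hHdef
  have hH : 0 < H := by rw [hHdef]; linarith
  have hHc : (b : ℂ) - z.1 * conj z.1 - z.2 * conj z.2 = (H : ℂ) := by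
    rw [Complex.mul_conj, Complex.mul_conj, Complex.normSq_eq_norm_sq, Complex.normSq_eq_norm_sq,
      hHdef]
    push_cast; ring
  have hH0 : (b : ℂ) - z.1 * conj z.1 - z.2 * conj z.2 ≠ 0 := by
    rw [hHc]; exact_mod_cast hH.ne'
  have hHc0 : (H : ℂ) ≠ 0 := by exact_mod_cast hH.ne'
  -- `a`, `a'`
  set v : Fin 3 → ℂ := fun i => ((R i : ℝ) : ℂ) + Complex.I * (sd : ℂ) * ((Y i : ℝ) : ℂ) with hv
  set a : ℂ := -(lC b (conj z.1) (conj z.2) v) / (H : ℂ) with ha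
  have hca : conj a = -(lC b z.1 z.2 (fun i => conj (v i))) / (H : ℂ) := by
    rw [ha, map_div₀, map_neg, Complex.conj_ofReal]
    simp [lC]
  have hvb : ∀ i, conj (v i) = cx R i - Complex.I * sd * cx Y i := by
    intro i
    simp only [hv, map_add, map_mul, Complex.conj_ofReal, Complex.conj_I, cx]
    ring
  have hr1 : ((b : ℂ) - z.1 * conj z.1 - z.2 * conj z.2) * a =
      -(lC b (conj z.1) (conj z.2) (cx R) + Complex.I * sd * lC b (conj z.1) (conj z.2) (cx Y)) := by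
    rw [hHc, ha, mul_div_cancel₀ _ hHc0]
    simp only [lC, hv, cx]; ring
  have hr2 : ((b : ℂ) - z.1 * conj z.1 - z.2 * conj z.2) * conj a =
      -(lC b z.1 z.2 (cx R) - Complex.I * sd * lC b z.1 z.2 (cx Y)) := by
    rw [hHc, hca, mul_div_cancel₀ _ hHc0]
    simp only [lC, hvb]; ring
  -- the real vector `S`
  let S : Fin 3 → ℝ := fun i => sd * Y i - 2 * (a * hC z.1 z.2 i).im
  have hS : cx S = sC z.1 z.2 (conj z.1) (conj z.2) (cx Y) sd a (conj a) := by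
    funext i
    have e1 : conj (a * hC z.1 z.2 i) = conj a * hC (conj z.1) (conj z.2) i := by
      rw [map_mul]
      congr 1
      fin_cases i <;> simp [hC]
    have e2 : Complex.I * (a * hC z.1 z.2 i - conj a * hC (conj z.1) (conj z.2) i) =
        ((-2 * (a * hC z.1 z.2 i).im : ℝ) : ℂ) := by
      rw [← e1, Complex.sub_conj]
      push_cast
      linear_combination 2 * ((a * hC z.1 z.2 i).im : ℂ) * Complex.I_sq
    simp only [sC, cx, S]
    rw [e2]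
    push_cast
    ring
  -- `k1`, `k2`
  let k1 : Fin 3 → ℝ := fun i => (pC b z.1 z.2 (conj z.1) (conj z.2) j i).re / (2 * c)
  let k2 : Fin 3 → ℝ := fun i => (pC b z.1 z.2 (conj z.1) (conj z.2) j i).im / (2 * c)
  have hc0 : (c : ℂ) ≠ 0 := by exact_mod_cast hc.ne'
  have hk : (fun i => cx k1 i + Complex.I * cx k2 i) =
      fun i => (0 : ℂ) + (1 / (2 * (c : ℂ))) * pC b z.1 z.2 (conj z.1) (conj z.2) j i := by
    funext i
    simp only [cx, k1, k2]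
    push_cast
    have := Complex.re_add_im (pC b z.1 z.2 (conj z.1) (conj z.2) j i)
    field_simp
    rw [mul_zero, zero_add]
    conv_rhs => rw [← this]
    ring
  have hl : ∀ x, eL b z.1 z.2 j x = ((Bf b c z x k1 : ℝ) : ℂ) +
      Complex.I * ((Bf b c z x k2 : ℝ) : ℂ) := by
    intro x
    rw [Bf_apply, Bf_apply, eL_apply, eC_eq hm hn hH0]
    have e1 := qC_comb b z.1 z.2 (conj z.1) (conj z.2) (cx x) (cx k1) (cx k2) Complex.I
    rw [hk, qC_comb] at e1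
    have e2 : qC b z.1 z.2 (conj z.1) (conj z.2) (cx x) (fun _ => 0) = 0 := by
      simp [qC, lC]
    rw [e2, zero_add] at e1
    have e3 : qC b z.1 z.2 (conj z.1) (conj z.2) (cx x) (pC b z.1 z.2 (conj z.1) (conj z.2) j) =
        2 * (c : ℂ) * (1 / (2 * (c : ℂ)) *
          qC b z.1 z.2 (conj z.1) (conj z.2) (cx x) (pC b z.1 z.2 (conj z.1) (conj z.2) j)) := by
      field_simp
    rw [e3, e1]
    ring
  have key := h1 (Fin 3 → ℝ) volume (Bf b c z) Bf_symm (fun x hx => Bf_pos hz hc hx)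
    (eL b z.1 z.2 j) (eL b (conj z.1) (conj z.2) j') k1 k2 S hl
    ((1 / 2 : ℂ) * eC b z.1 z.2 j (cx R)) (-(1 / 2 : ℂ) * eC b (conj z.1) (conj z.2) j' (cx R))
  -- the integrand
  have hint : ∀ x : Fin 3 → ℝ,
      (duc b (x + (1 / 2 : ℝ) • R) z j * conj (duc b (x - (1 / 2 : ℝ) • R) z j')) *
        (Complex.exp (-((c : ℂ) * ex0 b (x + (1 / 2 : ℝ) • R) z)) *
          conj (Complex.exp (-((c : ℂ) * ex0 b (x - (1 / 2 : ℝ) • R) z)))) *
        Complex.exp (-(2 * (Real.pi : ℂ) * Complex.I * ((α * qf b Y x : ℝ) : ℂ))) =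
      ((ss b z * conj (ss b z))⁻¹ * Complex.exp (-((c : ℂ) / 2 *
        qC b z.1 z.2 (conj z.1) (conj z.2) (cx R) (cx R)))) *
      ((eL b z.1 z.2 j x + (1 / 2 : ℂ) * eC b z.1 z.2 j (cx R)) *
        (eL b (conj z.1) (conj z.2) j' x + -(1 / 2 : ℂ) * eC b (conj z.1) (conj z.2) j' (cx R)) *
        Complex.exp (-(((Bf b c z x x : ℝ) : ℂ) + Complex.I * ((Bf b c z x S : ℝ) : ℂ)))) := by
    intro x
    have hcs : conj (ss b z) ≠ 0 := (map_ne_zero _).2 hs0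
    have e1 : duc b (x + (1 / 2 : ℝ) • R) z j =
        (eL b z.1 z.2 j x + (1 / 2 : ℂ) * eC b z.1 z.2 j (cx R)) / ss b z := by
      rw [duc_eq hz, cx_half, eC_comb, eL_apply]
    have e2 : conj (duc b (x - (1 / 2 : ℝ) • R) z j') =
        (eL b (conj z.1) (conj z.2) j' x +
          -(1 / 2 : ℂ) * eC b (conj z.1) (conj z.2) j' (cx R)) / conj (ss b z) := by
      rw [duc_eq hz, map_div₀, conj_eC, cx_half', eC_comb, eL_apply]
    rw [e1, e2]
    have e3 : Complex.exp (-((c : ℂ) * ex0 b (x + (1 / 2 : ℝ) • R) z)) *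
          conj (Complex.exp (-((c : ℂ) * ex0 b (x - (1 / 2 : ℝ) • R) z))) *
        Complex.exp (-(2 * (Real.pi : ℂ) * Complex.I * ((α * qf b Y x : ℝ) : ℂ))) =
        Complex.exp (-((c : ℂ) / 2 * qC b z.1 z.2 (conj z.1) (conj z.2) (cx R) (cx R))) *
        Complex.exp (-(((Bf b c z x x : ℝ) : ℂ) + Complex.I * ((Bf b c z x S : ℝ) : ℂ))) := by
      rw [← Complex.exp_conj, ← Complex.exp_add, ← Complex.exp_add, ← Complex.exp_add]
      congr 1
      rw [Bf_apply, Bf_apply, hS, sC_eq hm hn hr1 hr2, ex0_eq hz, ex0_eq hz]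
      simp only [map_neg, map_add, map_mul, map_div₀, map_pow, Complex.conj_ofReal, conj_lC,
        map_ofNat, map_sub]
      have f1 : lC b z.1 z.2 (cx (x + (1 / 2 : ℝ) • R)) =
          lC b z.1 z.2 (cx x) + (1 / 2 : ℂ) * lC b z.1 z.2 (cx R) := by
        rw [cx_half]; unfold lC; ring
      have f2 : lC b (conj z.1) (conj z.2) (cx (x - (1 / 2 : ℝ) • R)) =
          lC b (conj z.1) (conj z.2) (cx x) - (1 / 2 : ℂ) * lC b (conj z.1) (conj z.2) (cx R) := by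
        rw [cx_half']; unfold lC; ring
      rw [f1, f2]
      have f3 : ∀ x y : Fin 3 → ℝ, ((qf b x y : ℝ) : ℂ) =
          cx x 0 * cx y 0 + cx x 1 * cx y 1 - b * (cx x 2 * cx y 2) := by
        intro x y; unfold qf cx; push_cast; ring
      rw [f3, f3]
      have f4 : ((α * qf b Y x : ℝ) : ℂ) =
          (α : ℂ) * (cx Y 0 * cx x 0 + cx Y 1 * cx x 1 - b * (cx Y 2 * cx x 2)) := by
        rw [Complex.ofReal_mul, f3]
      rw [f4, cx_half, cx_half']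
      have f5 : (Real.pi : ℂ) * (α : ℂ) = (c : ℂ) * (sd : ℂ) := by exact_mod_cast hpc
      unfold qC
      generalize lC b z.1 z.2 (cx x) = lx at *
      generalize lC b z.1 z.2 (cx R) = lr at *
      generalize lC b (conj z.1) (conj z.2) (cx x) = lx' at *
      generalize lC b (conj z.1) (conj z.2) (cx R) = lr' at *
      generalize cx x = X at *
      generalize cx R = RR at *
      generalize cx Y = YY at *
      linear_combination (-2 * Complex.I * (YY 0 * X 0 + YY 1 * X 1 - b * (YY 2 * X 2))) * f5 -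
        2 * (c : ℂ) * (lx * lr / (b - z.1 ^ 2 - z.2 ^ 2) -
          lx' * lr' / (b - conj z.1 ^ 2 - conj z.2 ^ 2)) * Complex.I_sq
    calc _ = ((eL b z.1 z.2 j x + (1 / 2 : ℂ) * eC b z.1 z.2 j (cx R)) / ss b z *
          ((eL b (conj z.1) (conj z.2) j' x +
          -(1 / 2 : ℂ) * eC b (conj z.1) (conj z.2) j' (cx R)) / conj (ss b z))) *
          (Complex.exp (-((c : ℂ) * ex0 b (x + (1 / 2 : ℝ) • R) z)) *
          conj (Complex.exp (-((c : ℂ) * ex0 b (x - (1 / 2 : ℝ) • R) z))) *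
        Complex.exp (-(2 * (Real.pi : ℂ) * Complex.I * ((α * qf b Y x : ℝ) : ℂ)))) := by ring
      _ = _ := by
        rw [e3]
        field_simp
  -- the integral of the Gaussian
  have hgauss : (∫ x : Fin 3 → ℝ, Complex.exp (-((Bf b c z x x : ℝ) : ℂ))) =
      ((Real.sqrt ((Real.pi / (2 * c)) ^ 3 / b) * (‖mm b z‖ / H) : ℝ) : ℂ) := by
    have e1 := h2 (Am b c z) (Am_posDef hz hc)
    have e2 : ∀ x : Fin 3 → ℝ, (∑ i, ∑ j, Am b c z i j * x i * x j) = Bf b c z x x := by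
      intro x
      rw [Bf, Matrix.toBilin'_apply]
      refine Finset.sum_congr rfl fun i _ => Finset.sum_congr rfl fun j _ => ?_
      ring
    simp only [e2] at e1
    rw [e1, Am_det hz, ← hHdef]
    congr 1
    have hmn : 0 < ‖mm b z‖ := norm_pos_iff.2 hm0
    have e3 : Real.pi ^ 3 / ((2 * c) ^ 3 * (b * H ^ 2) / ‖mm b z‖ ^ 2) =
        (Real.pi / (2 * c)) ^ 3 / b * (‖mm b z‖ / H) ^ 2 := by
      field_simp
    rw [e3, Real.sqrt_mul (by positivity), Real.sqrt_sq (by positivity)]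
  -- the closed form
  have hHH : HH b (hat z) = H := by
    simp only [HH, hat, hHdef, Matrix.cons_val_zero, Matrix.cons_val_one, Matrix.cons_val, norm_one]
    ring
  set X : Fin 2 → ℂ := fun k => (if k = 0 then cx R 0 - Complex.I * sd * cx Y 0
    else cx R 1 - Complex.I * sd * cx Y 1) - zj (conj z.1) (conj z.2) k * conj a with hX
  have hc1 : ∀ k, eC b z.1 z.2 k (cx R) - Complex.I * eC b z.1 z.2 k (cx S) = X k := by
    intro k
    rw [hS, eC_centre hm hr2]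
  have hc2 : eC b (conj z.1) (conj z.2) j' (cx R) +
      Complex.I * eC b (conj z.1) (conj z.2) j' (cx S) = conj (X j') := by
    rw [← hc1, map_sub, map_mul, conj_eC, conj_eC, Complex.conj_I]; ring
  have hvh : hh b (hat z) v = lC b z.1 z.2 (fun i => conj (v i)) := by
    simp only [hh, hat, lC, Matrix.cons_val_zero, Matrix.cons_val_one, Matrix.cons_val]; ring
  have hvh' : hh b v (hat z) = lC b (conj z.1) (conj z.2) v := by
    simp only [hh, hat, lC, Matrix.cons_val_zero, Matrix.cons_val_one, Matrix.cons_val, map_one]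
    ring
  have hhz1 : ∀ k, IP.hz b (hat z) (ee k) v = X k := by
    intro k
    have e1 : hh b (ee k) (hat z) = zj (conj z.1) (conj z.2) k := by
      fin_cases k <;> simp [hh, ee, hat, zj]
    have e2 : hh b (ee k) v = if k = 0 then conj (v 0) else conj (v 1) := by
      fin_cases k <;> simp [hh, ee]
    rw [IP.hz, e1, e2, hvh, hHH, hX, hca]
    simp only [hvb]
    ring
  have hhz2 : ∀ k, IP.hz b (hat z) v (ee k) = conj (X k) := by
    intro k
    have e1 : hh b (hat z) (ee k) = zj z.1 z.2 k := by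
      fin_cases k <;> simp [hh, ee, hat, zj]
    have e2 : hh b v (ee k) = if k = 0 then v 0 else v 1 := by
      fin_cases k <;> simp [hh, ee]
    have e3 : conj (X k) = (if k = 0 then v 0 else v 1) - zj z.1 z.2 k * a := by
      rw [hX]
      simp only [map_sub, map_mul, Complex.conj_conj]
      congr 1
      · have e4 : ∀ i, conj (cx R i - Complex.I * sd * cx Y i) = v i := by
          intro i; rw [← hvb, Complex.conj_conj]
        split_ifs
        · exact e4 0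
        · exact e4 1
      · congr 1
        unfold zj
        split_ifs <;> simp
    rw [IP.hz, e1, e2, hvh', hHH, e3, ha]
    ring
  have hhz3 : IP.hz b (hat z) (ee j) (ee j') = (if j = j' then 1 else 0) +
      zj (conj z.1) (conj z.2) j * zj z.1 z.2 j' / (H : ℂ) := by
    have e1 : hh b (hat z) (ee j') = zj z.1 z.2 j' := by
      fin_cases j' <;> simp [hh, ee, hat, zj]
    have e2 : hh b (ee j) (hat z) = zj (conj z.1) (conj z.2) j := by
      fin_cases j <;> simp [hh, ee, hat, zj]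
    have e3 : hh b (ee j) (ee j') = if j = j' then 1 else 0 := by
      fin_cases j <;> fin_cases j' <;> simp [hh, ee]
    rw [IP.hz, e1, e2, e3, hHH]
  have hnz : ((Nz b (hat z) v : ℝ) : ℂ) =
      qC b z.1 z.2 (conj z.1) (conj z.2) (cx R) (cx R) +
      qC b z.1 z.2 (conj z.1) (conj z.2) (cx S) (cx S) := by
    rw [hS, qC_add hm hn hH0 hr1 hr2, hr1, hr2, hHc]
    have e1 : ∀ i, ((‖v i‖ ^ 2 : ℝ) : ℂ) =
        (cx R i + Complex.I * sd * cx Y i) * (cx R i - Complex.I * sd * cx Y i) := by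
      intro i
      rw [← hvb, ← Complex.normSq_eq_norm_sq, ← Complex.mul_conj]
      rfl
    have e2 : ((‖hh b v (hat z)‖ ^ 2 : ℝ) : ℂ) =
        (-(lC b (conj z.1) (conj z.2) (cx R) +
          Complex.I * sd * lC b (conj z.1) (conj z.2) (cx Y))) *
        (-(lC b z.1 z.2 (cx R) - Complex.I * sd * lC b z.1 z.2 (cx Y))) := by
      rw [← Complex.normSq_eq_norm_sq, ← Complex.mul_conj, hvh']
      have e3 : conj (lC b (conj z.1) (conj z.2) v) = lC b z.1 z.2 (fun i => conj (v i)) := by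
        simp [lC]
      rw [e3]
      simp only [hvb]
      simp only [lC, hv, cx]
      ring
    rw [Nz, hHH]
    push_cast at e1 e2 ⊢
    rw [e1, e1, e1, e2]
  have hk' : eL b (conj z.1) (conj z.2) j' k1 + Complex.I * eL b (conj z.1) (conj z.2) j' k2 =
      1 / (2 * (c : ℂ)) * ((if j = j' then 1 else 0) +
      zj (conj z.1) (conj z.2) j * zj z.1 z.2 j' / (H : ℂ)) := by
    rw [eL_apply, eL_apply, ← eC_comb, hk, eC_comb, eC_contr hH0, hHc]
    have e1 : eC b (conj z.1) (conj z.2) j' (fun _ => 0) = 0 := by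
      simp [eC, lC]
    rw [e1, zero_add]
  -- conclusion
  calc _ = ∫ x : Fin 3 → ℝ, ((ss b z * conj (ss b z))⁻¹ * Complex.exp (-((c : ℂ) / 2 *
        qC b z.1 z.2 (conj z.1) (conj z.2) (cx R) (cx R)))) *
      ((eL b z.1 z.2 j x + (1 / 2 : ℂ) * eC b z.1 z.2 j (cx R)) *
        (eL b (conj z.1) (conj z.2) j' x + -(1 / 2 : ℂ) * eC b (conj z.1) (conj z.2) j' (cx R)) *
        Complex.exp (-(((Bf b c z x x : ℝ) : ℂ) + Complex.I * ((Bf b c z x S : ℝ) : ℂ)))) :=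
        integral_congr_ae (Filter.Eventually.of_forall hint)
    _ = _ := by
      rw [integral_const_mul, key, hgauss, hk', W1, hhz1, hhz2, hhz3, hHH]
      have g1 : (1 / 2 : ℂ) * eC b z.1 z.2 j (cx R) - Complex.I / 2 * eL b z.1 z.2 j S =
          1 / 2 * X j := by
        rw [eL_apply, ← hc1]; ring
      have g2 : -(1 / 2 : ℂ) * eC b (conj z.1) (conj z.2) j' (cx R) -
          Complex.I / 2 * eL b (conj z.1) (conj z.2) j' S = -(1 / 2) * conj (X j') := by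
        rw [eL_apply, ← hc2]; ring
      rw [g1, g2]
      have g3 : Complex.exp (-(1 / 4 * ((Bf b c z S S : ℝ) : ℂ))) *
          Complex.exp (-((c : ℂ) / 2 *
            qC b z.1 z.2 (conj z.1) (conj z.2) (cx R) (cx R))) =
          Complex.exp (-((c / 2 * Nz b (hat z) v : ℝ) : ℂ)) := by
        rw [← Complex.exp_add]
        congr 1
        rw [Complex.ofReal_mul, hnz, Bf_apply]
        push_cast
        ring
      rw [← g3]
      have g4 : ss b z * conj (ss b z) = ((‖mm b z‖ : ℝ) : ℂ) := by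
        rw [Complex.mul_conj, Complex.normSq_eq_norm_sq, ← norm_pow, ss_sq hz]
      rw [g4]
      have hmn : ((‖mm b z‖ : ℝ) : ℂ) ≠ 0 := by
        exact_mod_cast (norm_pos_iff.2 hm0).ne'
      push_cast
      field_simp
      ring

end IP
end CMT
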