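import Pool.Agent.Lib.CMT.I.Def
import Pool.Agent.Lib.CMT.A.Gau
import Pool.Agent.Lib.CMT.C.Pos

/-!
# PROJECT CMT, part I, module Loc0I (helper26): integrability of the local integrand at `t0`
-/

open scoped BigOperators ComplexConjugate
open MeasureTheory

noncomputable section

namespace CMT
namespace IP

open Pool.Agent.CMT (GaBd ExGr exGr_const exGr_linear)

/-- Comparison. -/
private theorem l0i_le {f g : (Fin 3 → ℝ) → ℂ} (hg : ExGr g) (h : ∀ x, ‖f x‖ ≤ ‖g x‖) :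
    ExGr f := by
  obtain ⟨C, b, hC, hb, h1⟩ := hg
  exact ⟨C, b, hC, hb, fun x => (h x).trans (h1 x)⟩

/-- `duc` is linear. -/
private theorem l0i_duc (b : ℝ) (z : ℂ × ℂ) (j : Fin 2) :
    ∃ v : Fin 3 → ℂ, ∀ x : Fin 3 → ℝ, duc b x z j = ∑ i, (x i : ℂ) * v i := by
  unfold duc du ll
  by_cases hj : j = 0
  · refine ⟨![(mm b z + z.1 * z.1) / (mm b z * ss b z), z.2 * z.1 / (mm b z * ss b z),
      -(b : ℂ) * z.1 / (mm b z * ss b z)], fun x => ?_⟩
    rw [if_pos hj, Fin.sum_univ_three]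
    simp only [Matrix.cons_val_zero, Matrix.cons_val_one, Matrix.cons_val]
    ring
  · refine ⟨![z.1 * z.2 / (mm b z * ss b z), (mm b z + z.2 * z.2) / (mm b z * ss b z),
      -(b : ℂ) * z.2 / (mm b z * ss b z)], fun x => ?_⟩
    rw [if_neg hj, Fin.sum_univ_three]
    simp only [Matrix.cons_val_zero, Matrix.cons_val_one, Matrix.cons_val]
    ring

/-- `duc` at a translated point is of exponential growth and continuous. -/
private theorem l0i_ducG (b : ℝ) (z : ℂ × ℂ) (j : Fin 2) (S : Fin 3 → ℝ) :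
    ExGr (fun x : Fin 3 → ℝ => duc b (x + S) z j) ∧
      Continuous (fun x : Fin 3 → ℝ => duc b (x + S) z j) := by
  obtain ⟨v, hv⟩ := l0i_duc b z j
  have e : (fun x : Fin 3 → ℝ => duc b (x + S) z j) =
      fun x => (∑ i, (x i : ℂ) * v i) + ∑ i, (S i : ℂ) * v i := by
    funext x
    rw [hv, ← Finset.sum_add_distrib]
    refine Finset.sum_congr rfl fun i _ => ?_
    rw [Pi.add_apply, Complex.ofReal_add, add_mul]
  rw [e]
  refine ⟨(exGr_linear v).add (exGr_const _), ?_⟩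
  fun_prop

/-- The lower bound of the real part of the exponent. -/
private theorem l0i_re {b : ℝ} (hb : 0 < b) {z : ℂ × ℂ} (hz : ‖z.1‖ ^ 2 + ‖z.2‖ ^ 2 < b) :
    ∃ δ : ℝ, 0 < δ ∧ ∀ x : Fin 3 → ℝ, δ * ∑ i, x i ^ 2 ≤ (ex0 b x z).re := by
  set Z := ‖z.1‖ ^ 2 + ‖z.2‖ ^ 2 with hZ
  have hZ0 : 0 ≤ Z := by positivity
  set ρ := Real.sqrt ((Z + b) / (2 * b)) with hρ
  have hρ0 : 0 ≤ ρ := Real.sqrt_nonneg _
  have hρ2 : ρ ^ 2 = (Z + b) / (2 * b) := Real.sq_sqrt (by positivity)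
  have hρ1 : ρ < 1 := by
    have h1 : ρ ^ 2 < 1 := by
      rw [hρ2, div_lt_one (by positivity)]
      linarith
    nlinarith
  have hzs : z ∈ sball b ρ := by
    show Z < ρ ^ 2 * b
    rw [hρ2]
    have e : (Z + b) / (2 * b) * b = (Z + b) / 2 := by
      field_simp
    rw [e]
    linarith
  have h1ρ : 0 < 1 - ρ := by linarith
  refine ⟨(1 - ρ) ^ 3 / 4 * min 1 b, by positivity, fun x => ?_⟩
  have h := re_q_ge hb hρ0 hρ1 hzs x
  refine le_trans ?_ h
  rw [mul_assoc]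
  refine mul_le_mul_of_nonneg_left ?_ (by positivity)
  rw [Fin.sum_univ_three]
  have m1 : min 1 b ≤ 1 := min_le_left _ _
  have m2 : min 1 b ≤ b := min_le_right _ _
  nlinarith [mul_le_mul_of_nonneg_right m1 (sq_nonneg (x 0)),
    mul_le_mul_of_nonneg_right m1 (sq_nonneg (x 1)), mul_le_mul_of_nonneg_right m2 (sq_nonneg (x 2))]

/-- Continuity of the exponent. -/
private theorem l0i_cont (b : ℝ) (z : ℂ × ℂ) (S : Fin 3 → ℝ) :
    Continuous (fun x : Fin 3 → ℝ => ex0 b (x + S) z) := by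
  unfold ex0 qf uu ll
  simp only [Pi.add_apply]
  fun_prop

/-- The Gaussian factor. -/
private theorem l0i_ga {b c : ℝ} (hb : 0 < b) (hc : 0 < c) {z : ℂ × ℂ}
    (hz : ‖z.1‖ ^ 2 + ‖z.2‖ ^ 2 < b) (S : Fin 3 → ℝ) :
    GaBd (fun x : Fin 3 → ℝ => Complex.exp (-((c : ℂ) * ex0 b (x + S) z))) := by
  obtain ⟨δ, hδ, h⟩ := l0i_re hb hz
  refine ⟨1, c * δ, 2 * (c * δ) * ∑ i, |S i|, zero_le_one, by positivity, by positivity,
    fun x => ?_⟩
  rw [Complex.norm_exp, one_mul, Real.exp_le_exp, Complex.neg_re, Complex.re_ofReal_mul]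
  have h1 := mul_le_mul_of_nonneg_left (h (x + S)) hc.le
  have h2 : ∑ i, x i ^ 2 ≤ ∑ i, (x + S) i ^ 2 + 2 * ((∑ i, |S i|) * ∑ i, |x i|) := by
    rw [← sub_le_iff_le_add', ← Finset.sum_sub_distrib, Finset.sum_mul, Finset.mul_sum]
    refine Finset.sum_le_sum fun i _ => ?_
    have h3 : |x i| ≤ ∑ j, |x j| :=
      Finset.single_le_sum (f := fun j => |x j|) (fun j _ => abs_nonneg _) (Finset.mem_univ i)
    have h4 : |S i| * |x i| ≤ |S i| * ∑ j, |x j| :=
      mul_le_mul_of_nonneg_left h3 (abs_nonneg _)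
    have h5 : -(S i * x i) ≤ |S i| * |x i| := by
      rw [← abs_mul]
      exact neg_le_abs _
    rw [Pi.add_apply]
    nlinarith [sq_nonneg (S i)]
  have h6 := mul_le_mul_of_nonneg_left h2 (by positivity : 0 ≤ c * δ)
  rw [← mul_assoc] at h1
  linarith

theorem pLoc0I : S_Loc0I := by
  intro b α sd hb hα hsd z hz R Y j j'
  set c : ℝ := Real.pi / sd * α with hc
  have hc0 : 0 < c := by
    have := Real.pi_pos
    positivity
  obtain ⟨δ, hδ, hre⟩ := l0i_re hb hz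
  have hG := l0i_ga hb hc0 hz ((1 / 2 : ℝ) • R)
  have d1 := l0i_ducG b z j ((1 / 2 : ℝ) • R)
  have d2 := l0i_ducG b z j' (-((1 / 2 : ℝ) • R))
  have d2e : ExGr (fun x : Fin 3 → ℝ => conj (duc b (x - (1 / 2 : ℝ) • R) z j')) := by
    refine l0i_le d2.1 fun x => ?_
    rw [RCLike.norm_conj, sub_eq_add_neg]
  have d2c : Continuous (fun x : Fin 3 → ℝ => conj (duc b (x - (1 / 2 : ℝ) • R) z j')) := by
    have := Complex.continuous_conj.comp d2.2
    simpa only [Function.comp_def, ← sub_eq_add_neg] using this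
  have e2e : ExGr (fun x : Fin 3 → ℝ =>
      conj (Complex.exp (-((c : ℂ) * ex0 b (x - (1 / 2 : ℝ) • R) z)))) := by
    refine l0i_le (exGr_const 1) fun x => ?_
    rw [RCLike.norm_conj, Complex.norm_exp, norm_one, Real.exp_le_one_iff, Complex.neg_re,
      Complex.re_ofReal_mul, neg_nonpos]
    refine mul_nonneg hc0.le (le_trans ?_ (hre _))
    exact mul_nonneg hδ.le (Finset.sum_nonneg fun i _ => sq_nonneg _)
  have e2c : Continuous (fun x : Fin 3 → ℝ =>
      conj (Complex.exp (-((c : ℂ) * ex0 b (x - (1 / 2 : ℝ) • R) z)))) := by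
    have h1 := l0i_cont b z (-((1 / 2 : ℝ) • R))
    simp only [← sub_eq_add_neg] at h1
    exact Complex.continuous_conj.comp
      (Complex.continuous_exp.comp ((continuous_const.mul h1).neg))
  have e1c : Continuous (fun x : Fin 3 → ℝ =>
      Complex.exp (-((c : ℂ) * ex0 b (x + (1 / 2 : ℝ) • R) z))) :=
    Complex.continuous_exp.comp ((continuous_const.mul (l0i_cont b z _)).neg)
  have e3e : ExGr (fun x : Fin 3 → ℝ =>
      Complex.exp (-(2 * (Real.pi : ℂ) * Complex.I * ((α * qf b Y x : ℝ) : ℂ)))) := by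
    refine l0i_le (exGr_const 1) fun x => ?_
    have e : -(2 * (Real.pi : ℂ) * Complex.I * ((α * qf b Y x : ℝ) : ℂ)) =
        ((-(2 * Real.pi * (α * qf b Y x)) : ℝ) : ℂ) * Complex.I := by
      push_cast
      ring
    rw [e, Complex.norm_exp_ofReal_mul_I, norm_one]
  have e3c : Continuous (fun x : Fin 3 → ℝ =>
      Complex.exp (-(2 * (Real.pi : ℂ) * Complex.I * ((α * qf b Y x : ℝ) : ℂ)))) := by
    unfold qf
    fun_prop
  have hF : (fun x : Fin 3 → ℝ =>
      (duc b (x + (1 / 2 : ℝ) • R) z j * conj (duc b (x - (1 / 2 : ℝ) • R) z j')) *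
        (Complex.exp (-(((c : ℝ) : ℂ) * ex0 b (x + (1 / 2 : ℝ) • R) z)) *
          conj (Complex.exp (-(((c : ℝ) : ℂ) * ex0 b (x - (1 / 2 : ℝ) • R) z)))) *
        Complex.exp (-(2 * (Real.pi : ℂ) * Complex.I * ((α * qf b Y x : ℝ) : ℂ)))) =
      fun x => (((duc b (x + (1 / 2 : ℝ) • R) z j * conj (duc b (x - (1 / 2 : ℝ) • R) z j')) *
        conj (Complex.exp (-(((c : ℝ) : ℂ) * ex0 b (x - (1 / 2 : ℝ) • R) z)))) *
        Complex.exp (-(2 * (Real.pi : ℂ) * Complex.I * ((α * qf b Y x : ℝ) : ℂ)))) *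
        Complex.exp (-(((c : ℝ) : ℂ) * ex0 b (x + (1 / 2 : ℝ) • R) z)) := by
    funext x
    ring
  rw [hF]
  refine GaBd.integrable ((((d1.2.mul d2c).mul e2c).mul e3c).mul e1c) ?_
  exact (((d1.1.mul d2e).mul e2e).mul e3e).mul_gaBd hG

end IP
end CMT
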