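import Pool.Agent.Lib.CMT.I.Def

/-!
PROJECT CMT, part I: the global integral is a product of local integrals (`S_LocInt`).
-/

set_option autoImplicit false

open scoped BigOperators ComplexConjugate
open MeasureTheory

noncomputable section

namespace CMT
namespace IP
namespace LI

variable {F : Type} [Field F] [NumberField F]

/-- The integrand at `t0`, one line. -/
def h0 (b α sd : ℝ) (z : ℂ × ℂ) (R Y : Fin 3 → ℝ) (j j' : Fin 2) (x : Fin 3 → ℝ) : ℂ :=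
  (duc b (x + (1 / 2 : ℝ) • R) z j * conj (duc b (x - (1 / 2 : ℝ) • R) z j')) *
        (Complex.exp (-(((Real.pi / sd * α : ℝ) : ℂ) * ex0 b (x + (1 / 2 : ℝ) • R) z)) *
          conj (Complex.exp (-(((Real.pi / sd * α : ℝ) : ℂ) * ex0 b (x - (1 / 2 : ℝ) • R) z)))) *
        Complex.exp (-(2 * (Real.pi : ℂ) * Complex.I * ((α * qf b Y x : ℝ) : ℂ)))

/-- The integrand at `t ≠ t0`. -/
def fT (b α1 α2 sd : ℝ) (E E' : Matrix (Fin 2) (Fin 2) ℝ) (R Y x : Fin 2 → Fin 3 → ℝ) : ℂ :=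
  Complex.exp (-((Real.pi / sd * (exT b E (x + (1 / 2 : ℝ) • R) +
          exT b E' (x - (1 / 2 : ℝ) • R)) : ℝ) : ℂ)) *
        Complex.exp (-(2 * (Real.pi : ℂ) * Complex.I *
          ((α1 * qf b (Y 0) (x 0) + α2 * qf b (Y 1) (x 1) : ℝ) : ℂ)))

/-- Product of two one line integrands. -/
def pp (b α1 α2 sd : ℝ) (z : ℂ × ℂ) (R Y : Fin 2 → Fin 3 → ℝ) (j j' l l' : Fin 2)
    (x : Fin 2 → Fin 3 → ℝ) : ℂ :=
  h0 b α1 sd z (R 0) (Y 0) j j' (x 0) * h0 b α2 sd z (R 1) (Y 1) l l' (x 1)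

/-- The integrand at `t0`. -/
def f0 (b α1 α2 sd : ℝ) (z : ℂ × ℂ) (R Y x : Fin 2 → Fin 3 → ℝ) : ℂ :=
  pp b α1 α2 sd z R Y 0 0 1 1 x - pp b α1 α2 sd z R Y 0 1 1 0 x -
    pp b α1 α2 sd z R Y 1 0 0 1 x + pp b α1 α2 sd z R Y 1 1 0 0 x

theorem pp_eq (b α1 α2 sd : ℝ) (z : ℂ × ℂ) (R Y : Fin 2 → Fin 3 → ℝ) (j j' l l' : Fin 2)
    (x : Fin 2 → Fin 3 → ℝ) :
    pp b α1 α2 sd z R Y j j' l l' x =
      ∏ i : Fin 2, (![h0 b α1 sd z (R 0) (Y 0) j j', h0 b α2 sd z (R 1) (Y 1) l l'] i) (x i) := by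
  rw [Fin.prod_univ_two]
  rfl

theorem pp_int (h : S_Loc0I) {b α1 α2 sd : ℝ} (hb : 0 < b) (h1 : 0 < α1) (h2 : 0 < α2)
    (hsd : 0 < sd) {z : ℂ × ℂ} (hz : ‖z.1‖ ^ 2 + ‖z.2‖ ^ 2 < b) (R Y : Fin 2 → Fin 3 → ℝ)
    (j j' l l' : Fin 2) : Integrable (pp b α1 α2 sd z R Y j j' l l') := by
  have e : pp b α1 α2 sd z R Y j j' l l' = fun x : Fin 2 → Fin 3 → ℝ =>
      ∏ i : Fin 2, (![h0 b α1 sd z (R 0) (Y 0) j j', h0 b α2 sd z (R 1) (Y 1) l l'] i) (x i) :=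
    funext fun x => pp_eq b α1 α2 sd z R Y j j' l l' x
  rw [e]
  refine Integrable.fintype_prod (μ := fun _ => volume) ?_
  intro i
  fin_cases i
  · exact h b α1 sd hb h1 hsd z hz (R 0) (Y 0) j j'
  · exact h b α2 sd hb h2 hsd z hz (R 1) (Y 1) l l'

theorem pp_integral (b α1 α2 sd : ℝ) (z : ℂ × ℂ) (R Y : Fin 2 → Fin 3 → ℝ)
    (j j' l l' : Fin 2) : ∫ x, pp b α1 α2 sd z R Y j j' l l' x =
      (∫ x, h0 b α1 sd z (R 0) (Y 0) j j' x) * ∫ x, h0 b α2 sd z (R 1) (Y 1) l l' x := by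
  simp_rw [pp_eq]
  rw [integral_fintype_prod_volume_eq_prod, Fin.prod_univ_two]
  rfl

theorem f0_integral (h : S_Loc0I) {b α1 α2 sd : ℝ} (hb : 0 < b) (h1 : 0 < α1) (h2 : 0 < α2)
    (hsd : 0 < sd) {z : ℂ × ℂ} (hz : ‖z.1‖ ^ 2 + ‖z.2‖ ^ 2 < b) (R Y : Fin 2 → Fin 3 → ℝ) :
    ∫ x, f0 b α1 α2 sd z R Y x =
      (∫ x, h0 b α1 sd z (R 0) (Y 0) 0 0 x) * (∫ x, h0 b α2 sd z (R 1) (Y 1) 1 1 x) -
      (∫ x, h0 b α1 sd z (R 0) (Y 0) 0 1 x) * (∫ x, h0 b α2 sd z (R 1) (Y 1) 1 0 x) -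
      (∫ x, h0 b α1 sd z (R 0) (Y 0) 1 0 x) * (∫ x, h0 b α2 sd z (R 1) (Y 1) 0 1 x) +
      (∫ x, h0 b α1 sd z (R 0) (Y 0) 1 1 x) * (∫ x, h0 b α2 sd z (R 1) (Y 1) 0 0 x) := by
  have I := pp_int h hb h1 h2 hsd hz R Y
  have s1 : ∫ x, (pp b α1 α2 sd z R Y 0 0 1 1 x - pp b α1 α2 sd z R Y 0 1 1 0 x) =
      (∫ x, pp b α1 α2 sd z R Y 0 0 1 1 x) - ∫ x, pp b α1 α2 sd z R Y 0 1 1 0 x :=
    integral_sub (I 0 0 1 1) (I 0 1 1 0)
  have s2 : ∫ x, (pp b α1 α2 sd z R Y 0 0 1 1 x - pp b α1 α2 sd z R Y 0 1 1 0 x -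
      pp b α1 α2 sd z R Y 1 0 0 1 x) =
      (∫ x, (pp b α1 α2 sd z R Y 0 0 1 1 x - pp b α1 α2 sd z R Y 0 1 1 0 x)) -
        ∫ x, pp b α1 α2 sd z R Y 1 0 0 1 x :=
    integral_sub (f := fun x => pp b α1 α2 sd z R Y 0 0 1 1 x - pp b α1 α2 sd z R Y 0 1 1 0 x)
      ((I 0 0 1 1).sub (I 0 1 1 0)) (I 1 0 0 1)
  have s3 : ∫ x, f0 b α1 α2 sd z R Y x =
      (∫ x, (pp b α1 α2 sd z R Y 0 0 1 1 x - pp b α1 α2 sd z R Y 0 1 1 0 x -
        pp b α1 α2 sd z R Y 1 0 0 1 x)) + ∫ x, pp b α1 α2 sd z R Y 1 1 0 0 x :=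
    integral_add (f := fun x => pp b α1 α2 sd z R Y 0 0 1 1 x - pp b α1 α2 sd z R Y 0 1 1 0 x -
      pp b α1 α2 sd z R Y 1 0 0 1 x)
      (((I 0 0 1 1).sub (I 0 1 1 0)).sub (I 1 0 0 1)) (I 1 1 0 0)
  rw [s3, s2, s1]
  simp only [pp_integral]

/-- The product of the factors at `t ≠ t0`. -/
theorem prodT {ι : Type} (s : Finset ι) (b α1 α2 sd : ι → ℝ)
    (E E' : ι → Matrix (Fin 2) (Fin 2) ℝ) (R Y x : ι → Fin 2 → Fin 3 → ℝ) :
    ∏ t ∈ s, fT (b t) (α1 t) (α2 t) (sd t) (E t) (E' t) (R t) (Y t) (x t) =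
      Complex.exp (-((∑ t ∈ s, Real.pi / sd t * exT (b t) (E t) (x t + (1 / 2 : ℝ) • R t) : ℝ) : ℂ)) *
      Complex.exp (-((∑ t ∈ s, Real.pi / sd t * exT (b t) (E' t) (x t - (1 / 2 : ℝ) • R t) : ℝ) : ℂ)) *
      Complex.exp (-(2 * (Real.pi : ℂ) * Complex.I *
        ((∑ t ∈ s, (α1 t * qf (b t) (Y t 0) (x t 0) + α2 t * qf (b t) (Y t 1) (x t 1)) : ℝ) : ℂ))) := by
  classical
  unfold fT
  rw [Finset.prod_mul_distrib, ← Complex.exp_sum, ← Complex.exp_sum, ← Complex.exp_add,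
    ← Complex.exp_add, ← Complex.exp_add]
  congr 1
  push_cast
  rw [Finset.mul_sum, ← Finset.sum_neg_distrib, ← Finset.sum_neg_distrib,
    ← Finset.sum_neg_distrib, ← Finset.sum_add_distrib, ← Finset.sum_add_distrib,
    ← Finset.sum_add_distrib]
  refine Finset.sum_congr rfl fun t _ => ?_
  ring

theorem exT_eq (b : ℝ) (E : Matrix (Fin 2) (Fin 2) ℝ) (x : Fin 2 → Fin 3 → ℝ) :
    exT b E x = E 0 0 * qf b (x 0) (x 0) + (E 0 1 + E 1 0) * qf b (x 0) (x 1) +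
      E 1 1 * qf b (x 1) (x 1) := rfl

theorem pr_eq (D : Dat F) (a1 a2 : F) (h1 : a1 ≠ 0) (h2 : a2 ≠ 0) (η x : XR F (Fin 2)) :
    pr η x = ∑ t, (t a1 * qf (t D.bet) (yy D a1 a2 η t 0) (x t 0) +
      t a2 * qf (t D.bet) (yy D a1 a2 η t 1) (x t 1)) := by
  unfold pr
  refine Finset.sum_congr rfl fun t _ => ?_
  have e1 : t a1 ≠ 0 := by
    intro h
    exact h1 (t.injective (by rw [h, map_zero]))
  have e2 : t a2 ≠ 0 := by
    intro h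
    exact h2 (t.injective (by rw [h, map_zero]))
  have eb : t D.bet ≠ 0 := by
    by_cases ht : t = D.t0
    · rw [ht]; exact D.bet_pos.ne'
    · exact (D.bet_neg t ht).ne
  rw [Fin.sum_univ_two, Fin.sum_univ_three, Fin.sum_univ_three]
  unfold qf yy
  simp only [Matrix.cons_val_zero, Matrix.cons_val_one, Matrix.cons_val_two,
    Matrix.tail_cons, Matrix.head_cons]
  field_simp
  ring

theorem t0_part (D : Dat F) (a1 a2 : F) (h1 : 0 < D.t0 a1) (h2 : 0 < D.t0 a2) (z : ℂ × ℂ)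
    (R Y x : Fin 2 → Fin 3 → ℝ) :
    (Complex.exp (-(((kap D D.t0 * |D.t0 a1| : ℝ) : ℂ) *
        ex0 (D.t0 D.bet) (x 0 + (1 / 2 : ℝ) • R 0) z)) *
      Complex.exp (-(((kap D D.t0 * |D.t0 a2| : ℝ) : ℂ) *
        ex0 (D.t0 D.bet) (x 1 + (1 / 2 : ℝ) • R 1) z)) *
      wedge (du (D.t0 D.bet) (x 0 + (1 / 2 : ℝ) • R 0) z)
        (du (D.t0 D.bet) (x 1 + (1 / 2 : ℝ) • R 1) z)) *
    conj (Complex.exp (-(((kap D D.t0 * |D.t0 a1| : ℝ) : ℂ) *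
        ex0 (D.t0 D.bet) (x 0 - (1 / 2 : ℝ) • R 0) z)) *
      Complex.exp (-(((kap D D.t0 * |D.t0 a2| : ℝ) : ℂ) *
        ex0 (D.t0 D.bet) (x 1 - (1 / 2 : ℝ) • R 1) z)) *
      wedge (du (D.t0 D.bet) (x 0 - (1 / 2 : ℝ) • R 0) z)
        (du (D.t0 D.bet) (x 1 - (1 / 2 : ℝ) • R 1) z)) *
    Complex.exp (-(2 * (Real.pi : ℂ) * Complex.I *
        ((D.t0 a1 * qf (D.t0 D.bet) (Y 0) (x 0) + D.t0 a2 * qf (D.t0 D.bet) (Y 1) (x 1) : ℝ) : ℂ)))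
    = f0 (D.t0 D.bet) (D.t0 a1) (D.t0 a2) (Real.sqrt (D.t0 D.del)) z R Y x := by
  have e3 : Complex.exp (-(2 * (Real.pi : ℂ) * Complex.I *
        ((D.t0 a1 * qf (D.t0 D.bet) (Y 0) (x 0) + D.t0 a2 * qf (D.t0 D.bet) (Y 1) (x 1) : ℝ) : ℂ)))
      = Complex.exp (-(2 * (Real.pi : ℂ) * Complex.I *
          ((D.t0 a1 * qf (D.t0 D.bet) (Y 0) (x 0) : ℝ) : ℂ))) *
        Complex.exp (-(2 * (Real.pi : ℂ) * Complex.I *
          ((D.t0 a2 * qf (D.t0 D.bet) (Y 1) (x 1) : ℝ) : ℂ))) := by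
    rw [← Complex.exp_add]
    congr 1
    push_cast
    ring
  rw [e3, abs_of_pos h1, abs_of_pos h2]
  unfold f0 pp h0 wedge duc kap
  simp only [map_mul, map_sub, if_true, one_ne_zero, if_false]
  ring

end LI

open LI

/-- The global integral. -/
theorem pLocInt (g0 : S_Loc0) (g0I : S_Loc0I) (gT : S_LocT) : S_LocInt := by
  classical
  intro F _ _ D a1 a2 h1 h2 E E' hE hE'
  have n1 : a1 ≠ 0 := by
    rintro rfl
    simp at h1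
  have n2 : a2 ≠ 0 := by
    rintro rfl
    simp at h2
  have sd : ∀ t : F →+* ℝ, 0 < Real.sqrt (t D.del) := fun t => Real.sqrt_pos.2 (D.del_pos t)
  obtain ⟨C1, hC1⟩ := g0 (D.t0 D.bet) (D.t0 a1) (Real.sqrt (D.t0 D.del)) D.bet_pos h1 (sd _)
  obtain ⟨C2, hC2⟩ := g0 (D.t0 D.bet) (D.t0 a2) (Real.sqrt (D.t0 D.del)) D.bet_pos h2 (sd _)
  have hT : ∀ t : F →+* ℝ, ∃ C : ℂ, t ≠ D.t0 → ∀ R Y : Fin 2 → Fin 3 → ℝ,
      ∫ x, fT (t D.bet) (t a1) (t a2) (Real.sqrt (t D.del)) (E t) (E' t) R Y x =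
      C * TT (t D.bet) (kap D t) (PT (t a1) (t a2) (E t) (E' t))
        (fun a i => ((R a i : ℝ) : ℂ) + Complex.I * ((Real.sqrt (t D.del) : ℝ) : ℂ) *
          ((Y a i : ℝ) : ℂ)) := by
    intro t
    by_cases ht : t = D.t0
    · exact ⟨0, fun h => absurd ht h⟩
    · obtain ⟨C, hC⟩ := gT (t D.bet) (t a1) (t a2) (Real.sqrt (t D.del)) (D.bet_neg t ht)
        (fun h => n1 (t.injective (by rw [h, map_zero])))
        (fun h => n2 (t.injective (by rw [h, map_zero]))) (sd t) (E t) (E' t) (hE t ht) (hE' t ht)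
      exact ⟨C, fun _ R Y => hC R Y⟩
  choose CT hCT using hT
  refine ⟨(∏ t ∈ Finset.univ.erase D.t0, CT t) * (C1 * C2), ?_⟩
  intro z hz R η
  have hz' : ‖z.1‖ ^ 2 + ‖z.2‖ ^ 2 < D.t0 D.bet := hz
  set Y := yy D a1 a2 η with hY
  set f : (F →+* ℝ) → (Fin 2 → Fin 3 → ℝ) → ℂ := fun t x =>
    if t = D.t0 then f0 (D.t0 D.bet) (D.t0 a1) (D.t0 a2) (Real.sqrt (D.t0 D.del)) z (R D.t0)
      (Y D.t0) x
    else fT (t D.bet) (t a1) (t a2) (Real.sqrt (t D.del)) (E t) (E' t) (R t) (Y t) x with hf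
  have key : ∀ x : XR F (Fin 2), amb (gK D a1 a2 E z) (gK D a1 a2 E' z) R x *
      Complex.exp (-(2 * (Real.pi : ℂ) * Complex.I * ((pr η x : ℝ) : ℂ))) = ∏ t, f t (x t) := by
    intro x
    rw [← Finset.mul_prod_erase Finset.univ (fun t => f t (x t)) (Finset.mem_univ D.t0)]
    have e1 : ∏ t ∈ Finset.univ.erase D.t0, f t (x t) = ∏ t ∈ Finset.univ.erase D.t0,
        fT (t D.bet) (t a1) (t a2) (Real.sqrt (t D.del)) (E t) (E' t) (R t) (Y t) (x t) :=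
      Finset.prod_congr rfl fun t ht => by
        simp only [hf, if_neg (Finset.ne_of_mem_erase ht)]
    have e0 : f D.t0 (x D.t0) = f0 (D.t0 D.bet) (D.t0 a1) (D.t0 a2) (Real.sqrt (D.t0 D.del)) z
        (R D.t0) (Y D.t0) (x D.t0) := by
      simp only [hf, if_true]
    rw [e1, e0, prodT (Finset.univ.erase D.t0) (fun t => t D.bet) (fun t => t a1) (fun t => t a2)
      (fun t => Real.sqrt (t D.del)) E E' R Y x, ← t0_part D a1 a2 h1 h2 z (R D.t0) (Y D.t0)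
      (x D.t0), pr_eq D a1 a2 n1 n2 η x,
      ← Finset.add_sum_erase Finset.univ (fun t : F →+* ℝ => t a1 * qf (t D.bet)
        (yy D a1 a2 η t 0) (x t 0) + t a2 * qf (t D.bet) (yy D a1 a2 η t 1) (x t 1))
        (Finset.mem_univ D.t0)]
    have e4 : ∀ (A B : ℝ), Complex.exp (-(2 * (Real.pi : ℂ) * Complex.I * ((A + B : ℝ) : ℂ))) =
        Complex.exp (-(2 * (Real.pi : ℂ) * Complex.I * (A : ℂ))) *
          Complex.exp (-(2 * (Real.pi : ℂ) * Complex.I * (B : ℂ))) := by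
      intro A B
      rw [← Complex.exp_add]
      congr 1
      push_cast
      ring
    rw [e4]
    have e5 : ∀ (E : (F →+* ℝ) → Matrix (Fin 2) (Fin 2) ℝ) (y : XR F (Fin 2)),
        gK D a1 a2 E z y = Complex.exp (-((∑ t ∈ Finset.univ.erase D.t0,
          Real.pi / Real.sqrt (t D.del) * exT (t D.bet) (E t) (y t) : ℝ) : ℂ)) *
        (Complex.exp (-(((kap D D.t0 * |D.t0 a1| : ℝ) : ℂ) * ex0 (D.t0 D.bet) (y D.t0 0) z)) *
        Complex.exp (-(((kap D D.t0 * |D.t0 a2| : ℝ) : ℂ) * ex0 (D.t0 D.bet) (y D.t0 1) z)) *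
        wedge (du (D.t0 D.bet) (y D.t0 0) z) (du (D.t0 D.bet) (y D.t0 1) z)) := by
      intro E y
      unfold gK
      rw [← mul_assoc, ← Complex.exp_add, ← Complex.exp_add]
      congr 2
      unfold ex0 exT kap
      ring
    unfold amb
    rw [e5, e5]
    have e6 : ∀ r : ℝ, conj (Complex.exp (-(r : ℂ))) = Complex.exp (-(r : ℂ)) := by
      intro r
      rw [← Complex.exp_conj, map_neg, Complex.conj_ofReal]
    simp only [map_mul, e6]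
    simp only [Pi.add_apply, Pi.sub_apply, Pi.smul_apply]
    ring
  unfold ft
  simp_rw [key]
  rw [integral_fintype_prod_volume_eq_prod,
    ← Finset.mul_prod_erase Finset.univ (fun t => ∫ x, f t x) (Finset.mem_univ D.t0)]
  have e1 : ∏ t ∈ Finset.univ.erase D.t0, ∫ x, f t x = ∏ t ∈ Finset.univ.erase D.t0,
      (CT t * TT (t D.bet) (kap D t) (PT (t a1) (t a2) (E t) (E' t)) (vv D R Y t)) :=
    Finset.prod_congr rfl fun t ht => by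
      have hne := Finset.ne_of_mem_erase ht
      simp only [hf, if_neg hne]
      exact hCT t hne (R t) (Y t)
  have e0 : ∫ x, f D.t0 x = (C1 * C2) * DD (D.t0 D.bet) (kap D D.t0 * D.t0 a1)
      (kap D D.t0 * D.t0 a2) (hat z) (vv D R Y D.t0 0) (vv D R Y D.t0 1) := by
    simp only [hf, if_true]
    rw [f0_integral g0I D.bet_pos h1 h2 (sd D.t0) hz']
    have w1 : ∀ j j', ∫ x, h0 (D.t0 D.bet) (D.t0 a1) (Real.sqrt (D.t0 D.del)) z (R D.t0 0)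
        (Y D.t0 0) j j' x = C1 * W1 (D.t0 D.bet) (kap D D.t0 * D.t0 a1) (hat z)
          (vv D R Y D.t0 0) (ee j) (ee j') := fun j j' => hC1 z hz' (R D.t0 0) (Y D.t0 0) j j'
    have w2 : ∀ j j', ∫ x, h0 (D.t0 D.bet) (D.t0 a2) (Real.sqrt (D.t0 D.del)) z (R D.t0 1)
        (Y D.t0 1) j j' x = C2 * W1 (D.t0 D.bet) (kap D D.t0 * D.t0 a2) (hat z)
          (vv D R Y D.t0 1) (ee j) (ee j') := fun j j' => hC2 z hz' (R D.t0 1) (Y D.t0 1) j j'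
    simp only [w1, w2]
    unfold DD
    ring
  rw [e1, e0, Finset.prod_mul_distrib]
  unfold AR
  ring

end IP
end CMT
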