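import Pool.Agent.Lib.CMT.I.Def

/-!
# PROJECT CMT, part I: the local integral at the places `t ≠ t0` (`S_LocT`)
-/

open scoped BigOperators ComplexConjugate
open MeasureTheory Matrix

noncomputable section

namespace CMT
namespace IP

namespace LocT

/-- The form `∑ N_jk (x_j, y_k)`. -/
def QN (b : ℝ) (N : Matrix (Fin 2) (Fin 2) ℝ) (x y : Fin 2 → Fin 3 → ℝ) : ℝ :=
  ∑ j, ∑ k, N j k * qf b (x j) (y k)

/-- The action of a matrix. -/
def ac (P : Matrix (Fin 2) (Fin 2) ℝ) (x : Fin 2 → Fin 3 → ℝ) : Fin 2 → Fin 3 → ℝ :=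
  fun j i => ∑ k, P j k * x k i

theorem QN_ac_right (b : ℝ) (N P : Matrix (Fin 2) (Fin 2) ℝ) (x y : Fin 2 → Fin 3 → ℝ) :
    QN b N x (ac P y) = QN b (N * P) x y := by
  simp only [QN, ac, qf, Matrix.mul_apply, Fin.sum_univ_two]
  ring

theorem QN_ac_left (b : ℝ) (N P : Matrix (Fin 2) (Fin 2) ℝ) (x y : Fin 2 → Fin 3 → ℝ) :
    QN b N (ac P x) y = QN b (Pᵀ * N) x y := by
  simp only [QN, ac, qf, Matrix.mul_apply, Matrix.transpose_apply, Fin.sum_univ_two]
  ring

theorem QN_swap (b : ℝ) (N : Matrix (Fin 2) (Fin 2) ℝ) (x y : Fin 2 → Fin 3 → ℝ) :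
    QN b N x y = QN b Nᵀ y x := by
  simp only [QN, qf, Matrix.transpose_apply, Fin.sum_univ_two]
  ring

theorem QN_add (b : ℝ) (N P : Matrix (Fin 2) (Fin 2) ℝ) (x y : Fin 2 → Fin 3 → ℝ) :
    QN b (N + P) x y = QN b N x y + QN b P x y := by
  simp only [QN, Matrix.add_apply, Fin.sum_univ_two]
  ring

theorem QN_sub (b : ℝ) (N P : Matrix (Fin 2) (Fin 2) ℝ) (x y : Fin 2 → Fin 3 → ℝ) :
    QN b (N - P) x y = QN b N x y - QN b P x y := by
  simp only [QN, Matrix.sub_apply, Fin.sum_univ_two]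
  ring

theorem QN_smul (b c : ℝ) (N : Matrix (Fin 2) (Fin 2) ℝ) (x y : Fin 2 → Fin 3 → ℝ) :
    QN b (c • N) x y = c * QN b N x y := by
  simp only [QN, Matrix.smul_apply, Fin.sum_univ_two, smul_eq_mul]
  ring

theorem QN_anti (b : ℝ) (N : Matrix (Fin 2) (Fin 2) ℝ) (h : Nᵀ = -N) (x : Fin 2 → Fin 3 → ℝ) :
    QN b N x x = 0 := by
  have h1 := QN_swap b N x x
  have h2 : QN b Nᵀ x x = - QN b N x x := by
    rw [h]
    simp only [QN, Matrix.neg_apply, Fin.sum_univ_two]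
    ring
  linarith

/-- positivity -/
theorem QN_pos {b : ℝ} (hb : b < 0) {A : Matrix (Fin 2) (Fin 2) ℝ} (hA : A.PosDef)
    {x : Fin 2 → Fin 3 → ℝ} (hx : x ≠ 0) : 0 < QN b A x x := by
  have key : QN b A x x = ∑ i : Fin 3, (![1, 1, -b] i) *
      (star (fun j => x j i) ⬝ᵥ (A *ᵥ (fun j => x j i))) := by
    simp only [QN, qf, Matrix.mulVec, dotProduct, Fin.sum_univ_two, Fin.sum_univ_three,
      Pi.star_apply, star_trivial]
    simp
    ring
  rw [key]
  obtain ⟨j, hj⟩ := Function.ne_iff.mp hx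
  obtain ⟨i, hi⟩ := Function.ne_iff.mp hj
  have hnn : ∀ i : Fin 3, 0 ≤ (![1, 1, -b] i) *
      (star (fun j => x j i) ⬝ᵥ (A *ᵥ (fun j => x j i))) := by
    intro i
    have h1 : 0 ≤ ![1, 1, -b] i := by
      fin_cases i
      · exact zero_le_one
      · exact zero_le_one
      · show 0 ≤ -b
        linarith
    exact mul_nonneg h1 (hA.posSemidef.dotProduct_mulVec_nonneg _)
  refine Finset.sum_pos' (fun i _ => hnn i) ⟨i, Finset.mem_univ i, ?_⟩
  have h1 : 0 < ![1, 1, -b] i := by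
    fin_cases i
    · exact zero_lt_one
    · exact zero_lt_one
    · show 0 < -b
      linarith
  refine mul_pos h1 (hA.dotProduct_mulVec_pos ?_)
  intro h0
  exact hi (congrFun h0 j)

/-- The form as a bilinear map. -/
def BB (b κ : ℝ) (A : Matrix (Fin 2) (Fin 2) ℝ) :
    (Fin 2 → Fin 3 → ℝ) →ₗ[ℝ] (Fin 2 → Fin 3 → ℝ) →ₗ[ℝ] ℝ :=
  LinearMap.mk₂ ℝ (fun x y => κ * QN b A x y)
    (by intro x x' y; simp only [QN, qf, Pi.add_apply, Fin.sum_univ_two]; ring)
    (by intro c x y; simp only [QN, qf, Pi.smul_apply, smul_eq_mul, Fin.sum_univ_two]; ring)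
    (by intro x y y'; simp only [QN, qf, Pi.add_apply, Fin.sum_univ_two]; ring)
    (by intro c x y; simp only [QN, qf, Pi.smul_apply, smul_eq_mul, Fin.sum_univ_two]; ring)

theorem BB_apply (b κ : ℝ) (A : Matrix (Fin 2) (Fin 2) ℝ) (x y : Fin 2 → Fin 3 → ℝ) :
    BB b κ A x y = κ * QN b A x y := rfl

/-- The matrix identities. -/
theorem mat_id {E E' q r : Matrix (Fin 2) (Fin 2) ℝ} (hqr : q * r = 1) (hrq : r * q = 1)
    (hE : E * r * E = q) (hE' : E' * r * E' = q) (hET : Eᵀ = E) (hET' : E'ᵀ = E') (hqT : qᵀ = q)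
    {Ai : Matrix (Fin 2) (Fin 2) ℝ} (hA1 : (E + E') * Ai = 1) (hA2 : Ai * (E + E') = 1)
    (hAiT : Aiᵀ = Ai) :
    ((E - E') * Ai * q)ᵀ = -((E - E') * Ai * q) ∧
    (E + E') - (E - E') * Ai * (E - E') = (4 : ℝ) • (q * Ai * q) := by
  have h1 : (E + E') * r * (E - E') = -((E - E') * r * (E + E')) := by
    have a1 : (E + E') * r * (E - E') = E * r * E - E * r * E' + E' * r * E - E' * r * E' := by
      noncomm_ring
    have a2 : (E - E') * r * (E + E') = E * r * E + E * r * E' - E' * r * E - E' * r * E' := by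
      noncomm_ring
    rw [a1, a2, hE, hE']
    noncomm_ring
  -- multiply by `Ai` on both sides
  have h2 : r * (E - E') * Ai = -(Ai * (E - E') * r) := by
    calc r * (E - E') * Ai = (Ai * (E + E')) * r * (E - E') * Ai := by rw [hA2, Matrix.one_mul]
      _ = Ai * ((E + E') * r * (E - E')) * Ai := by simp only [Matrix.mul_assoc]
      _ = Ai * (-((E - E') * r * (E + E'))) * Ai := by rw [h1]
      _ = -(Ai * (E - E') * r * ((E + E') * Ai)) := by
        simp only [Matrix.mul_assoc, Matrix.mul_neg, Matrix.neg_mul]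
      _ = -(Ai * (E - E') * r) := by rw [hA1, Matrix.mul_one]
  have h3 : (E - E') * Ai = -(q * Ai * (E - E') * r) := by
    calc (E - E') * Ai = (q * r) * (E - E') * Ai := by rw [hqr, Matrix.one_mul]
      _ = q * (r * (E - E') * Ai) := by simp only [Matrix.mul_assoc]
      _ = -(q * Ai * (E - E') * r) := by
        rw [h2, Matrix.mul_neg]
        simp only [Matrix.mul_assoc]
  have h4 : (E - E') * Ai * q = -(q * Ai * (E - E')) := by
    rw [h3, Matrix.neg_mul, Matrix.mul_assoc, hrq, Matrix.mul_one]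
  refine ⟨?_, ?_⟩
  · rw [h4, Matrix.transpose_neg, Matrix.transpose_mul, Matrix.transpose_mul,
      Matrix.transpose_sub, hET, hET', hAiT, hqT, ← Matrix.mul_assoc, h4, neg_neg]
    -- the right hand side
  · have h5 : (E + E') * r * (E + E') + (E - E') * r * (E - E') = (4 : ℝ) • q := by
      have a1 : (E + E') * r * (E + E') + (E - E') * r * (E - E') =
          (2 : ℝ) • (E * r * E) + (2 : ℝ) • (E' * r * E') := by
        rw [two_smul, two_smul]
        noncomm_ring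
      rw [a1, hE, hE', ← add_smul]
      norm_num
    have h6 : (E - E') * r * (E - E') = (4 : ℝ) • q - (E + E') * r * (E + E') := by
      rw [← h5]; abel
    calc (E + E') - (E - E') * Ai * (E - E')
        = (E + E') + q * Ai * ((E - E') * r * (E - E')) := by
          rw [h3]
          simp only [Matrix.neg_mul, sub_neg_eq_add, Matrix.mul_assoc]
      _ = (E + E') + q * Ai * ((4 : ℝ) • q - (E + E') * r * (E + E')) := by rw [h6]
      _ = (E + E') + (4 : ℝ) • (q * Ai * q) - q * (Ai * (E + E')) * r * (E + E') := by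
          rw [Matrix.mul_sub, Matrix.mul_smul]
          simp only [Matrix.mul_assoc]
          abel
      _ = (4 : ℝ) • (q * Ai * q) := by
          rw [hA2, Matrix.mul_one, hqr, Matrix.one_mul]
          abel

theorem exT_shift (b : ℝ) {E E' : Matrix (Fin 2) (Fin 2) ℝ} (hE : Eᵀ = E) (hE' : E'ᵀ = E')
    (x R : Fin 2 → Fin 3 → ℝ) :
    exT b E (x + (1 / 2 : ℝ) • R) + exT b E' (x - (1 / 2 : ℝ) • R) =
      QN b (E + E') x x + QN b (E - E') x R + (1 / 4 : ℝ) * QN b (E + E') R R := by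
  have h1 : E 1 0 = E 0 1 := by
    have := congrFun (congrFun hE 0) 1
    simpa [Matrix.transpose_apply] using this
  have h2 : E' 1 0 = E' 0 1 := by
    have := congrFun (congrFun hE' 0) 1
    simpa [Matrix.transpose_apply] using this
  simp only [exT, QN, qf, Pi.add_apply, Pi.sub_apply, Pi.smul_apply, smul_eq_mul,
    Matrix.add_apply, Matrix.sub_apply, Fin.sum_univ_two, h1, h2]
  ring

theorem q_form (b α1 α2 : ℝ) (Y x : Fin 2 → Fin 3 → ℝ) :
    α1 * qf b (Y 0) (x 0) + α2 * qf b (Y 1) (x 1) =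
      QN b (Matrix.diagonal ![α1, α2]) x Y := by
  simp [QN, qf, Fin.sum_univ_two, Matrix.diagonal_apply]
  ring

theorem hh_form (b sd : ℝ) (M : Matrix (Fin 2) (Fin 2) ℝ) (R Y : Fin 2 → Fin 3 → ℝ) :
    ∑ j, ∑ k, ((M j k : ℝ) : ℂ) *
      hh b ((fun a i => ((R a i : ℝ) : ℂ) + Complex.I * (sd : ℂ) * ((Y a i : ℝ) : ℂ)) k)
        ((fun a i => ((R a i : ℝ) : ℂ) + Complex.I * (sd : ℂ) * ((Y a i : ℝ) : ℂ)) j) =
      ((QN b M R R + sd ^ 2 * QN b M Y Y : ℝ) : ℂ) +
        Complex.I * ((sd * (QN b M R Y - QN b Mᵀ R Y) : ℝ) : ℂ) := by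
  simp only [QN, qf, hh, Fin.sum_univ_two, Matrix.transpose_apply, map_add, map_mul,
    Complex.conj_ofReal, Complex.conj_I]
  push_cast
  ring_nf
  simp only [Complex.I_sq]
  ring

end LocT

open LocT in
theorem pLocT (h : S_Gau) : S_LocT := by
  intro b α1 α2 sd hb h1 h2 hsd E E' hE hE'
  set q : Matrix (Fin 2) (Fin 2) ℝ := Matrix.diagonal ![α1, α2] with hq
  set r : Matrix (Fin 2) (Fin 2) ℝ := Matrix.diagonal ![α1⁻¹, α2⁻¹] with hr
  have hqr : q * r = 1 := by
    rw [hq, hr, Matrix.diagonal_mul_diagonal, ← Matrix.diagonal_one]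
    congr 1
    funext i
    fin_cases i
    · exact mul_inv_cancel₀ h1
    · exact mul_inv_cancel₀ h2
  have hrq : r * q = 1 := by
    rw [hq, hr, Matrix.diagonal_mul_diagonal, ← Matrix.diagonal_one]
    congr 1
    funext i
    fin_cases i
    · exact inv_mul_cancel₀ h1
    · exact inv_mul_cancel₀ h2
  have hET : Eᵀ = E := by
    have := hE.1.isHermitian
    rwa [Matrix.IsHermitian, Matrix.conjTranspose_eq_transpose_of_trivial] at this
  have hET' : E'ᵀ = E' := by
    have := hE'.1.isHermitian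
    rwa [Matrix.IsHermitian, Matrix.conjTranspose_eq_transpose_of_trivial] at this
  have hA : (E + E').PosDef := hE.1.add hE'.1
  have hAu : IsUnit (E + E').det := isUnit_iff_ne_zero.mpr hA.det_pos.ne'
  have hA1 : (E + E') * (E + E')⁻¹ = 1 := Matrix.mul_nonsing_inv _ hAu
  have hA2 : (E + E')⁻¹ * (E + E') = 1 := Matrix.nonsing_inv_mul _ hAu
  have hAiT : ((E + E')⁻¹)ᵀ = (E + E')⁻¹ := by
    rw [Matrix.transpose_nonsing_inv, Matrix.transpose_add, hET, hET']
  have hqT : qᵀ = q := Matrix.diagonal_transpose _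
  obtain ⟨hT, hP⟩ := mat_id hqr hrq hE.2 hE'.2 hET hET' hqT hA1 hA2 hAiT
  set Ai := (E + E')⁻¹ with hAi
  set κ : ℝ := Real.pi / sd with hκ
  have hκ0 : 0 < κ := div_pos Real.pi_pos hsd
  have hBs : ∀ x y, BB b κ (E + E') x y = BB b κ (E + E') y x := by
    intro x y
    rw [BB_apply, BB_apply, QN_swap, Matrix.transpose_add, hET, hET']
  have hBp : ∀ x, x ≠ 0 → 0 < BB b κ (E + E') x x := by
    intro x hx
    rw [BB_apply]
    exact mul_pos hκ0 (QN_pos hb hA hx)
  refine ⟨∫ x, Complex.exp (-((BB b κ (E + E') x x : ℝ) : ℂ)), fun R Y => ?_⟩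
  have hsd' : sd ≠ 0 := hsd.ne'
  have hκsd : κ * sd = Real.pi := by
    rw [hκ]; field_simp
  set u := ac (Ai * (E - E')) R with hu
  set w := ac ((2 * sd) • (Ai * q)) Y with hw
  have G := h (Fin 2 → Fin 3 → ℝ) volume (BB b κ (E + E')) hBs hBp u w
  have eu : ∀ x, BB b κ (E + E') x u = κ * QN b (E - E') x R := by
    intro x
    rw [BB_apply, hu, QN_ac_right, ← Matrix.mul_assoc, hA1, Matrix.one_mul]
  have ew : ∀ x, BB b κ (E + E') x w = 2 * Real.pi * QN b q x Y := by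
    intro x
    rw [BB_apply, hw, QN_ac_right, Matrix.mul_smul, ← Matrix.mul_assoc, hA1, Matrix.one_mul,
      QN_smul, ← hκsd]
    ring
  have euu : BB b κ (E + E') u u = κ * QN b ((E - E') * Ai * (E - E')) R R := by
    rw [eu, hu, QN_ac_left, Matrix.transpose_mul, Matrix.transpose_sub, hET, hET', hAiT]
  have eww : BB b κ (E + E') w w = κ * (4 * sd ^ 2) * QN b (q * Ai * q) Y Y := by
    rw [ew, hw, QN_swap, QN_ac_right, hqT, Matrix.mul_smul, QN_smul, ← hκsd, Matrix.mul_assoc]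
    ring
  have euw : BB b κ (E + E') u w = κ * (2 * sd) * QN b ((E - E') * Ai * q) R Y := by
    rw [ew, hu, QN_ac_left, Matrix.transpose_mul, Matrix.transpose_sub, hET, hET', hAiT, ← hκsd]
    ring
  have I1 : ∀ x : Fin 2 → Fin 3 → ℝ,
      Complex.exp (-((κ * (exT b E (x + (1 / 2 : ℝ) • R) +
          exT b E' (x - (1 / 2 : ℝ) • R)) : ℝ) : ℂ)) *
        Complex.exp (-(2 * (Real.pi : ℂ) * Complex.I *
          ((α1 * qf b (Y 0) (x 0) + α2 * qf b (Y 1) (x 1) : ℝ) : ℂ))) =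
      Complex.exp (-((κ / 4 * QN b (E + E') R R : ℝ) : ℂ)) *
        Complex.exp (-(((BB b κ (E + E') x x : ℝ) : ℂ) + ((BB b κ (E + E') x u : ℝ) : ℂ) +
          Complex.I * ((BB b κ (E + E') x w : ℝ) : ℂ))) := by
    intro x
    rw [← Complex.exp_add, ← Complex.exp_add, eu, ew, BB_apply, exT_shift b hET hET', q_form]
    congr 1
    push_cast
    ring
  have I2 : ∫ x : Fin 2 → Fin 3 → ℝ,
      Complex.exp (-((κ * (exT b E (x + (1 / 2 : ℝ) • R) +
          exT b E' (x - (1 / 2 : ℝ) • R)) : ℝ) : ℂ)) *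
        Complex.exp (-(2 * (Real.pi : ℂ) * Complex.I *
          ((α1 * qf b (Y 0) (x 0) + α2 * qf b (Y 1) (x 1) : ℝ) : ℂ))) =
      Complex.exp (-((κ / 4 * QN b (E + E') R R : ℝ) : ℂ)) *
        (Complex.exp ((1 / 4 : ℂ) * (((BB b κ (E + E') u u : ℝ) : ℂ) -
          ((BB b κ (E + E') w w : ℝ) : ℂ) + 2 * Complex.I * ((BB b κ (E + E') u w : ℝ) : ℂ))) *
        ∫ x, Complex.exp (-((BB b κ (E + E') x x : ℝ) : ℂ))) := by
    rw [← G, ← MeasureTheory.integral_const_mul]
    exact integral_congr_ae (Filter.Eventually.of_forall I1)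
  rw [I2]
  have hPT : PT α1 α2 E E' = q * Ai * q - (1 / 2 : ℝ) • ((E - E') * Ai * q) := rfl
  have hPsym : (q * Ai * q)ᵀ = q * Ai * q := by
    rw [Matrix.transpose_mul, Matrix.transpose_mul, hqT, hAiT, Matrix.mul_assoc]
  have k1 : QN b (E + E') R R - QN b ((E - E') * Ai * (E - E')) R R =
      4 * QN b (q * Ai * q) R R := by
    rw [← QN_sub, hP, QN_smul]
  have k2 : QN b ((E - E') * Ai * q) R R = 0 := QN_anti b _ hT R
  have k3 : QN b ((E - E') * Ai * q) Y Y = 0 := QN_anti b _ hT Y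
  have k4 : QN b (PT α1 α2 E E') R R = QN b (q * Ai * q) R R := by
    rw [hPT, QN_sub, QN_smul, k2]; ring
  have k5 : QN b (PT α1 α2 E E') Y Y = QN b (q * Ai * q) Y Y := by
    rw [hPT, QN_sub, QN_smul, k3]; ring
  have k6 : QN b (PT α1 α2 E E') R Y - QN b (PT α1 α2 E E')ᵀ R Y =
      - QN b ((E - E') * Ai * q) R Y := by
    rw [← QN_sub, hPT, Matrix.transpose_sub, Matrix.transpose_smul, hT, hPsym]
    have : q * Ai * q - (1 / 2 : ℝ) • ((E - E') * Ai * q) -
        (q * Ai * q - (1 / 2 : ℝ) • -((E - E') * Ai * q)) =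
        (-1 : ℝ) • ((E - E') * Ai * q) := by
      module
    rw [this, QN_smul]
    ring
  rw [TT, hh_form, k4, k5, k6, euu, eww, euw]
  rw [mul_comm (∫ x, Complex.exp (-((BB b κ (E + E') x x : ℝ) : ℂ))), ← mul_assoc,
    ← Complex.exp_add]
  congr 2
  have k1' : ((QN b (E + E') R R : ℝ) : ℂ) = (4 * QN b (q * Ai * q) R R +
      QN b ((E - E') * Ai * (E - E')) R R : ℝ) := by
    congr 1
    linarith
  push_cast at k1' ⊢
  rw [k1']
  ring

end IP
end CMT
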