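import Pool.Agent.Lib.CMT.I.Def
import Pool.Agent.Lib.CMT.E.SBn

/-!
# PROJECT CMT, part I : `S_KerG`, and `S_PF` from `S_Prod`, `S_LocInt`, `S_EDg`, `S_EDa`
-/

set_option autoImplicit false

open scoped BigOperators ComplexConjugate
open MeasureTheory

noncomputable section

namespace CMT
namespace IP

variable {F : Type} [Field F] [NumberField F]

theorem gK_emb (D : Dat F) (a1 a2 : F) (E : (F →+* ℝ) → Matrix (Fin 2) (Fin 2) ℝ) (z : ℂ × ℂ)
    (x : Fin 2 → Fin 3 → F) :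
    gK D a1 a2 E z (emb x) = tm2 D a1 a2 E (x 0) (x 1) z *
      wedge (du (D.t0 D.bet) (rx D.t0 (x 0)) z) (du (D.t0 D.bet) (rx D.t0 (x 1)) z) := rfl

theorem pKerG : S_KerG := by
  intro F _ _ D a1 a2 E ψ z
  unfold ker
  rw [← (finTwoArrowEquiv (Fin 3 → F)).tsum_eq]
  refine tsum_congr fun x => ?_
  rw [gK_emb, ← mul_assoc]
  rfl

/-- `a_a h_i`. -/
def aah (D : Dat F) (a1 a2 : F) (a : Fin 2) (i : Fin 3) : F := ![a1, a2] a * ![1, 1, -D.bet] i

theorem bet_ne_zero (D : Dat F) : D.bet ≠ 0 := by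
  intro h
  have := D.bet_pos
  rw [h, map_zero] at this
  exact lt_irrefl _ this

theorem aah_ne (D : Dat F) {a1 a2 : F} (h1 : a1 ≠ 0) (h2 : a2 ≠ 0) (a : Fin 2) (i : Fin 3) :
    aah D a1 a2 a i ≠ 0 := by
  have hb := bet_ne_zero D
  refine mul_ne_zero ?_ ?_
  · fin_cases a
    · exact h1
    · exact h2
  · fin_cases i
    · exact one_ne_zero
    · exact one_ne_zero
    · exact neg_ne_zero.2 hb

theorem map_aah (D : Dat F) (a1 a2 : F) (t : F →+* ℝ) (a : Fin 2) (i : Fin 3) :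
    t (aah D a1 a2 a i) = t (![a1, a2] a) * ![1, 1, -(t D.bet)] i := by
  unfold aah
  rw [map_mul]
  congr 1
  fin_cases i
  · exact map_one t
  · exact map_one t
  · exact map_neg t D.bet

/-- The coordinates `(re v, a h im v)`. -/
def eKF (D : Dat F) {a1 a2 : F} (h1 : a1 ≠ 0) (h2 : a2 ≠ 0) :
    (Fin 2 → Fin 3 → KD D) ≃ (Fin 2 → Fin 3 → F) × (Fin 2 → Fin 3 → F) where
  toFun v := (fun a i => (v a i).re, fun a i => aah D a1 a2 a i * (v a i).im)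
  invFun p := fun a i => ⟨p.1 a i, (aah D a1 a2 a i)⁻¹ * p.2 a i⟩
  left_inv v := by
    funext a i
    apply QuadraticAlgebra.ext
    · rfl
    · show (aah D a1 a2 a i)⁻¹ * (aah D a1 a2 a i * (v a i).im) = (v a i).im
      rw [inv_mul_cancel_left₀ (aah_ne D h1 h2 a i)]
  right_inv p := by
    apply Prod.ext
    · rfl
    · funext a i
      show aah D a1 a2 a i * ((aah D a1 a2 a i)⁻¹ * p.2 a i) = p.2 a i
      rw [mul_inv_cancel_left₀ (aah_ne D h1 h2 a i)]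

theorem vv_eKF (D : Dat F) {a1 a2 : F} (h1 : a1 ≠ 0) (h2 : a2 ≠ 0) (v : Fin 2 → Fin 3 → KD D) :
    vv D (emb (eKF D h1 h2 v).1) (yy D a1 a2 (emb (eKF D h1 h2 v).2)) = evv D v := by
  funext t a i
  have hne : t (aah D a1 a2 a i) ≠ 0 := (map_ne_zero t).2 (aah_ne D h1 h2 a i)
  have h3 : yy D a1 a2 (emb (eKF D h1 h2 v).2) t a i = t (v a i).im := by
    show t (aah D a1 a2 a i * (v a i).im) / (t (![a1, a2] a) * ![1, 1, -(t D.bet)] i) = _
    rw [← map_aah, map_mul, mul_div_cancel_left₀ _ hne]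
  show ((t (v a i).re : ℝ) : ℂ) + Complex.I * ((Real.sqrt (t D.del) : ℝ) : ℂ) *
    ((yy D a1 a2 (emb (eKF D h1 h2 v).2) t a i : ℝ) : ℂ) = _
  rw [h3]
  rfl

theorem re_nat_mul (D : Dat F) (M : ℕ) (v : KD D) : ((M : KD D) * v).re = (M : F) * v.re := by
  simp [QuadraticAlgebra.re_mul]

theorem im_nat_mul (D : Dat F) (M : ℕ) (v : KD D) : ((M : KD D) * v).im = (M : F) * v.im := by
  simp [QuadraticAlgebra.im_mul]

omit [NumberField F] in
theorem SBk_of_SB2 {n : ℕ} {ψ : (Fin 3 → F) × (Fin 3 → F) → ℂ} (h : SB2 n ψ) :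
    SBk n (fun x : Fin 2 → Fin 3 → F => ψ (x 0, x 1)) := by
  refine ⟨fun x hx a i => ?_, fun x y hy => ?_⟩
  · have h1 := h.1 _ hx
    fin_cases a
    · exact h1.1 i
    · exact h1.2 i
  · exact h.2 (x 0, x 1) (y 0) (y 1) (hy 0) (hy 1)

theorem SBK_of_SBk2 (D : Dat F) {a1 a2 : F} (h1 : a1 ≠ 0) (h2 : a2 ≠ 0) {M₀ : ℕ}
    {Φ₀ : (Fin 2 → Fin 3 → F) × (Fin 2 → Fin 3 → F) → ℂ} (hΦ : SBk2 M₀ Φ₀) {d : ℕ}
    (hd1 : ∀ a i, IsIntegral ℤ ((d : F) * aah D a1 a2 a i))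
    (hd2 : ∀ a i, IsIntegral ℤ ((d : F) * (aah D a1 a2 a i)⁻¹)) :
    SBK D (M₀ * (d * d)) (fun v => Φ₀ (eKF D h1 h2 v)) := by
  have hnat : ∀ n : ℕ, IsIntegral ℤ (n : F) := fun n => by
    have := isIntegral_algebraMap (R := ℤ) (A := F) (x := (n : ℤ))
    simpa using this
  refine ⟨fun v hv a i => ?_, fun v w hw => ?_⟩
  · obtain ⟨h3, h4⟩ := hΦ.1 _ hv
    have h3' : IsIntegral ℤ ((M₀ : F) * (v a i).re) := h3 a i
    have h4' : IsIntegral ℤ ((M₀ : F) * (aah D a1 a2 a i * (v a i).im)) := h4 a i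
    refine ⟨?_, ?_⟩
    · rw [re_nat_mul]
      have e : ((M₀ * (d * d) : ℕ) : F) * (v a i).re =
          ((d * d : ℕ) : F) * ((M₀ : F) * (v a i).re) := by
        push_cast
        ring
      rw [e]
      exact (hnat _).mul h3'
    · rw [im_nat_mul]
      have hne := aah_ne D h1 h2 a i
      have e : ((M₀ * (d * d) : ℕ) : F) * (v a i).im =
          (d : F) * (((d : F) * (aah D a1 a2 a i)⁻¹) *
            ((M₀ : F) * (aah D a1 a2 a i * (v a i).im))) := by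
        push_cast
        field_simp
      rw [e]
      exact (hnat _).mul ((hd2 a i).mul h4')
  · have h3 := hΦ.2 (eKF D h1 h2 v) (fun a i => ((d * d : ℕ) : F) * (w a i).re)
      (fun a i => (d : F) * (((d : F) * aah D a1 a2 a i) * (w a i).im))
      (fun a i => (hnat _).mul (hw a i).1)
      (fun a i => (hnat _).mul ((hd1 a i).mul (hw a i).2))
    show Φ₀ _ = Φ₀ _
    rw [← h3]
    congr 1
    apply Prod.ext
    · funext a i
      show (v a i + ((M₀ * (d * d) : ℕ) : KD D) * w a i).re =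
        (v a i).re + (M₀ : F) * (((d * d : ℕ) : F) * (w a i).re)
      rw [QuadraticAlgebra.re_add, re_nat_mul]
      push_cast
      ring
    · funext a i
      show aah D a1 a2 a i * (v a i + ((M₀ * (d * d) : ℕ) : KD D) * w a i).im =
        aah D a1 a2 a i * (v a i).im +
          (M₀ : F) * ((d : F) * (((d : F) * aah D a1 a2 a i) * (w a i).im))
      rw [QuadraticAlgebra.im_add, im_nat_mul]
      push_cast
      ring

theorem pPF (h1 : S_Prod) (h2 : S_LocInt) (h3 : S_EDg) (h4 : S_EDa) : S_PF := by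
  classical
  intro F _ _ _ D a1 a2 ha1 ha2 ψ hψ
  have hne1 : a1 ≠ 0 := by
    intro h
    rw [h, map_zero] at ha1
    exact lt_irrefl _ ha1
  have hne2 : a2 ≠ 0 := by
    intro h
    rw [h, map_zero] at ha2
    exact lt_irrefl _ ha2
  obtain ⟨n, hn, hψn⟩ := hψ
  obtain ⟨M₀, hM₀, Φ₀, hΦ₀, hprod⟩ := h1 F (Fin 2) n hn _ (SBk_of_SB2 hψn)
  obtain ⟨d, hd, hdi⟩ := exists_nat_mul_integral
    ((Finset.univ.image fun p : Fin 2 × Fin 3 => aah D a1 a2 p.1 p.2) ∪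
      (Finset.univ.image fun p : Fin 2 × Fin 3 => (aah D a1 a2 p.1 p.2)⁻¹))
  have hd1 : ∀ a i, IsIntegral ℤ ((d : F) * aah D a1 a2 a i) := fun a i =>
    hdi _ (Finset.mem_union_left _ (Finset.mem_image.2 ⟨(a, i), Finset.mem_univ _, rfl⟩))
  have hd2 : ∀ a i, IsIntegral ℤ ((d : F) * (aah D a1 a2 a i)⁻¹) := fun a i =>
    hdi _ (Finset.mem_union_right _ (Finset.mem_image.2 ⟨(a, i), Finset.mem_univ _, rfl⟩))
  refine ⟨M₀ * (d * d), by positivity, fun v => Φ₀ (eKF D hne1 hne2 v),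
    SBK_of_SBk2 D hne1 hne2 hΦ₀ hd1 hd2, fun E E' hE hE' => ?_⟩
  obtain ⟨C, hC⟩ := h2 F D a1 a2 ha1 ha2 E E' hE hE'
  refine ⟨C, fun z hz => ?_⟩
  obtain ⟨hc, hed⟩ := h3 F D a1 a2 hne1 hne2 E (fun t ht => (hE t ht).1) z hz
  obtain ⟨hc', hed'⟩ := h3 F D a1 a2 hne1 hne2 E' (fun t ht => (hE' t ht).1) z hz
  have hCz : ∀ R η : XR F (Fin 2), ft (amb (gK D a1 a2 E z) (gK D a1 a2 E' z) R) η =
      C * AR D a1 a2 E E' z (vv D R (yy D a1 a2 η)) := hC z hz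
  have hED : ED (fun p : XR F (Fin 2) × XR F (Fin 2) =>
      ft (amb (gK D a1 a2 E z) (gK D a1 a2 E' z) p.1) p.2) := by
    obtain ⟨B, ε, hε, hB⟩ := h4 F D a1 a2 ha1 ha2 E E' hE hE' z hz
    refine ⟨‖C‖ * B, ε, hε, fun p => ?_⟩
    show ‖ft (amb (gK D a1 a2 E z) (gK D a1 a2 E' z) p.1) p.2‖ ≤ _
    rw [hCz, norm_mul, mul_assoc]
    exact mul_le_mul_of_nonneg_left (hB p) (norm_nonneg _)
  have h5 := hprod (gK D a1 a2 E z) (gK D a1 a2 E' z) hc hc' hed hed' hED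
  rw [pKerG F D a1 a2 E ψ z, pKerG F D a1 a2 E' ψ z, h5, ← tsum_mul_left,
    ← (eKF D hne1 hne2).tsum_eq]
  refine tsum_congr fun v => ?_
  rw [hCz, vv_eKF]
  show _ = C * (Φ₀ (eKF D hne1 hne2 v) * AR D a1 a2 E E' z (evv D v))
  ring

end IP
end CMT
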