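import Pool.Agent.Lib.CMT.I.Def

/-!
# PROJECT CMT, part I: Schwartz-Bruhat functions are invariant under a congruence group (helper75)
-/

open scoped BigOperators ComplexConjugate
open MeasureTheory

noncomputable section

namespace CMT
namespace IP

variable {F : Type} [Field F] [NumberField F]

theorem gv_mul (D : Dat F) (g k : SG D) (v : Fin 2 → Fin 3 → KD D) :
    gv D (g * k) v = gv D g (gv D k v) := by
  funext a
  unfold gv
  rw [Matrix.mulVec_mulVec]
  rfl

theorem gv_one (D : Dat F) (v : Fin 2 → Fin 3 → KD D) : gv D 1 v = v := by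
  funext a
  unfold gv
  show (1 : Matrix (Fin 3) (Fin 3) (KD D)).mulVec (v a) = v a
  rw [Matrix.one_mulVec]

/-- on the support -/
theorem phi_aux (D : Dat F) (M : ℕ) (Φ : (Fin 2 → Fin 3 → KD D) → ℂ) (hΦ : SBK D M Φ) (g : SG D)
    (hg : g ∈ Gam D (M ^ 2)) (v : Fin 2 → Fin 3 → KD D) (hv : Φ v ≠ 0) : Φ (gv D g v) = Φ v := by
  obtain ⟨_, X, hX, hgX⟩ := hg
  have hint := hΦ.1 v hv
  have h1 := hΦ.2 v (fun a i => (X.mulVec (fun l => (M : KD D) * v a l)) i) (by
    intro a i
    show (∑ l, X i l * ((M : KD D) * v a l)) ∈ RR D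
    exact (RR D).sum_mem (fun l _ => (RR D).mul_mem (hX i l) (hint a l)))
  rw [← h1]
  congr 1
  funext a i
  unfold gv
  rw [hgX, Matrix.add_mulVec, Matrix.one_mulVec, Pi.add_apply]
  congr 1
  show (((M ^ 2 : ℕ) : KD D) • X).mulVec (v a) i = (M : KD D) * ∑ l, X i l * ((M : KD D) * v a l)
  rw [Matrix.smul_mulVec, Pi.smul_apply, smul_eq_mul]
  show ((M ^ 2 : ℕ) : KD D) * ∑ l, X i l * v a l = _
  rw [Finset.mul_sum, Finset.mul_sum]
  refine Finset.sum_congr rfl (fun l _ => ?_)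
  push_cast
  ring

/-- **Invariance under a congruence group.** -/
theorem tPhiG : S_PhiG := by
  intro F _ _ D M _ Φ hΦ g hg v
  by_cases hv : Φ v = 0
  · by_cases hg2 : Φ (gv D g v) = 0
    · rw [hg2, hv]
    · have h := phi_aux D M Φ hΦ g⁻¹ ((Gam D (M ^ 2)).inv_mem hg) (gv D g v) hg2
      rw [← gv_mul, inv_mul_cancel, gv_one] at h
      exact h.symm
  · exact phi_aux D M Φ hΦ g hg v hv

end IP
end CMT
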