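import Pool.Agent.Lib.CMT.I.PoisA

/-!
# CMT, part I, Pois (2): Poisson summation on `F ^ {3k}` with Schwartz-Bruhat functions (helper8)
-/

open scoped BigOperators ComplexConjugate
open MeasureTheory NumberField Pool.Agent.CMT

noncomputable section

namespace CMT
namespace IP
namespace Pois

/-! ## change of variables -/

theorem exists_cov {ι X : Type} [Fintype ι] [NormedAddCommGroup X] [NormedSpace ℝ X]
    [FiniteDimensional ℝ X] [MeasureSpace X] [BorelSpace X]
    [(volume : Measure X).IsAddHaarMeasure] (e : (ι → ℝ) ≃L[ℝ] X) :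
    ∃ c : ℝ, 0 < c ∧ ∀ f : X → ℂ, ∫ x, f x = (c : ℂ) * ∫ u, f (e u) := by
  have : (Measure.map e (volume : Measure (ι → ℝ))).IsAddHaarMeasure := inferInstance
  refine ⟨Measure.addHaarScalarFactor (volume : Measure X) (Measure.map e (volume : Measure (ι → ℝ))),
    by exact_mod_cast Measure.addHaarScalarFactor_pos_of_isAddHaarMeasure _ _, fun f => ?_⟩
  have h1 := Measure.isAddLeftInvariant_eq_smul (volume : Measure X)
    (Measure.map e (volume : Measure (ι → ℝ)))
  have h2 : ∫ x, f x = ∫ x, f x ∂(Measure.addHaarScalarFactor (volume : Measure X)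
      (Measure.map e (volume : Measure (ι → ℝ))) • Measure.map e (volume : Measure (ι → ℝ))) := by
    rw [← h1]
  rw [h2, integral_smul_nnreal_measure]
  have h3 : ∫ x, f x ∂(Measure.map e (volume : Measure (ι → ℝ))) = ∫ u, f (e u) :=
    e.toHomeomorph.measurableEmbedding.integral_map f
  rw [h3, NNReal.smul_def, Complex.real_smul]

section main

theorem ah1 : (volume : Measure (Fin 3 → ℝ)).IsAddHaarMeasure := inferInstance

theorem ah2 {k : Type} [Fintype k] : (volume : Measure (k → Fin 3 → ℝ)).IsAddHaarMeasure := by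
  have := ah1
  exact (inferInstance : (Measure.pi (fun _ : k => (volume : Measure (Fin 3 → ℝ)))).IsAddHaarMeasure)

theorem ah3 {F : Type} [Field F] [NumberField F] {k : Type} [Fintype k] :
    (volume : Measure (XR F k)).IsAddHaarMeasure := by
  have := ah2 (k := k)
  have h2 : SigmaFinite (volume : Measure (k → Fin 3 → ℝ)) := inferInstance
  exact Measure.pi.isAddHaarMeasure (fun _ : F →+* ℝ => (volume : Measure (k → Fin 3 → ℝ)))

set_option linter.unusedSectionVars false

variable {F : Type} [Field F] [NumberField F] {k : Type} [Fintype k]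

/-- the index set -/
abbrev II (F k : Type) [Field F] [NumberField F] : Type := (k × Fin 3) × JF F

/-- the real coordinates attached to the vectors `s w_j` -/
def eM (k : Type) [Fintype k] (w : JF F → F) (s : ℝ) : (II F k → ℝ) →ₗ[ℝ] XR F k where
  toFun u := fun t a i => s * ∑ j, t (w j) * u ((a, i), j)
  map_add' u v := by
    funext t a i
    simp only [Pi.add_apply, mul_add, Finset.sum_add_distrib]
  map_smul' c u := by
    funext t a i
    simp only [Pi.smul_apply, smul_eq_mul, RingHom.id_apply, Finset.mul_sum]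
    refine Finset.sum_congr rfl fun j _ => ?_
    ring

theorem eM_apply (w : JF F → F) (s : ℝ) (u : II F k → ℝ) (t : F →+* ℝ) (a : k) (i : Fin 3) :
    eM k w s u t a i = s * ∑ j, t (w j) * u ((a, i), j) := rfl

/-- the points of the lattice spanned by the `s w_j` -/
def pM (k : Type) (w : JF F → F) (s : F) (m : II F k → ℤ) : k → Fin 3 → F :=
  fun a i => s * ∑ j, (m ((a, i), j) : F) * w j

theorem pM_apply (w : JF F → F) (s : F) (m : II F k → ℤ) (a : k) (i : Fin 3) :
    pM k w s m a i = s * ∑ j, (m ((a, i), j) : F) * w j := rfl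

theorem pM_add (w : JF F → F) (s : F) (m m' : II F k → ℤ) :
    pM k w s (m + m') = pM k w s m + pM k w s m' := by
  funext a i
  simp only [pM_apply, Pi.add_apply, Int.cast_add, add_mul, Finset.sum_add_distrib, mul_add]

theorem emb_pM (w : JF F → F) (s : F) (r : ℝ) (hs : ∀ t : F →+* ℝ, t s = r) (m : II F k → ℤ) :
    emb (pM k w s m) = eM k w r (castL _ m) := by
  funext t a i
  rw [eM_apply]
  show t (s * ∑ j, (m ((a, i), j) : F) * w j) = _
  rw [map_mul, hs, map_sum]
  congr 1
  refine Finset.sum_congr rfl fun j _ => ?_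
  rw [map_mul, map_intCast, mul_comm]
  rfl

variable [IsTotallyReal F]

/-- orthogonality -/
theorem sum_bd_bb [DecidableEq (JF F)] (i j : JF F) :
    ∑ t : F →+* ℝ, t (bd F i) * t (bb F j) = if j = i then 1 else 0 := by
  have h := trace_eq F (bd F i * bb F j)
  rw [trace_bd_bb] at h
  rw [show (∑ t : F →+* ℝ, t (bd F i) * t (bb F j)) = ∑ t : F →+* ℝ, t (bd F i * bb F j) from
    Finset.sum_congr rfl fun t _ => (map_mul t _ _).symm, ← h]
  split_ifs <;> simp

theorem pairing (s r : ℝ) (h : r * s = 1) (m u : II F k → ℝ) :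
    pr (eM k (bd F) r m) (eM k (bb F) s u) = ∑ p, m p * u p := by
  classical
  unfold pr
  rw [Finset.sum_comm]
  rw [Fintype.sum_prod_type, Fintype.sum_prod_type]
  refine Finset.sum_congr rfl fun a _ => ?_
  rw [Finset.sum_comm]
  refine Finset.sum_congr rfl fun i _ => ?_
  simp only [eM_apply]
  calc ∑ t : F →+* ℝ, (r * ∑ j, t (bd F j) * m ((a, i), j)) * (s * ∑ j, t (bb F j) * u ((a, i), j))
      = ∑ t : F →+* ℝ, ∑ j, ∑ l, (m ((a, i), j) * u ((a, i), l)) * (t (bd F j) * t (bb F l)) := by
        refine Finset.sum_congr rfl fun t _ => ?_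
        calc (r * ∑ j, t (bd F j) * m ((a, i), j)) * (s * ∑ j, t (bb F j) * u ((a, i), j))
            = (r * s) * ((∑ j, t (bd F j) * m ((a, i), j)) * ∑ j, t (bb F j) * u ((a, i), j)) := by ring
          _ = (∑ j, t (bd F j) * m ((a, i), j)) * ∑ j, t (bb F j) * u ((a, i), j) := by rw [h, one_mul]
          _ = _ := by
            rw [Finset.sum_mul_sum]
            refine Finset.sum_congr rfl fun j _ => Finset.sum_congr rfl fun l _ => ?_
            ring
    _ = ∑ j, ∑ l, (m ((a, i), j) * u ((a, i), l)) * ∑ t : F →+* ℝ, t (bd F j) * t (bb F l) := by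
        rw [Finset.sum_comm]
        refine Finset.sum_congr rfl fun j _ => ?_
        rw [Finset.sum_comm]
        refine Finset.sum_congr rfl fun l _ => ?_
        rw [Finset.mul_sum]
    _ = ∑ j, m ((a, i), j) * u ((a, i), j) := by
        refine Finset.sum_congr rfl fun j _ => ?_
        simp only [sum_bd_bb]
        rw [Finset.sum_eq_single j]
        · rw [if_pos rfl, mul_one]
        · intro l _ hl
          rw [if_neg hl, mul_zero]
        · intro h; exact absurd (Finset.mem_univ j) h

theorem eM_bb_inj (s : ℝ) (hs : s ≠ 0) : Function.Injective (eM (F := F) k (bb F) s) := by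
  rw [injective_iff_map_eq_zero]
  intro u hu
  have h1 : ∑ p, u p * u p = 0 := by
    rw [← pairing s s⁻¹ (inv_mul_cancel₀ hs) u u, hu]
    simp [pr]
  funext p
  have h2 := (Finset.sum_eq_zero_iff_of_nonneg fun p _ => mul_self_nonneg (u p)).1 h1 p (Finset.mem_univ p)
  exact mul_self_eq_zero.1 h2

theorem eM_bd_inj (r : ℝ) (hr : r ≠ 0) : Function.Injective (eM (F := F) k (bd F) r) := by
  rw [injective_iff_map_eq_zero]
  intro u hu
  have h1 : ∑ p, u p * u p = 0 := by
    rw [← pairing r⁻¹ r (mul_inv_cancel₀ hr) u u, hu]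
    simp [pr]
  funext p
  have h2 := (Finset.sum_eq_zero_iff_of_nonneg fun p _ => mul_self_nonneg (u p)).1 h1 p (Finset.mem_univ p)
  exact mul_self_eq_zero.1 h2

theorem finrank_eq : Module.finrank ℝ (II F k → ℝ) = Module.finrank ℝ (XR F k) := by
  rw [Module.finrank_fintype_fun_eq_card, Module.finrank_pi_fintype, Fintype.card_prod,
    Fintype.card_prod, card_JF, ← card_eq]
  simp only [Module.finrank_pi_fintype, Module.finrank_self, Finset.sum_const, Finset.card_univ,
    smul_eq_mul, Fintype.card_fin, mul_one]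
  ring

/-! ## digits -/

/-- `(r, q) ↦ q N + r` -/
def dig (ι : Type) (N : ℕ) [NeZero N] : (ι → Fin N) × (ι → ℤ) ≃ (ι → ℤ) :=
  ((Equiv.prodComm _ _).trans
    (Equiv.arrowProdEquivProdArrow ι (fun _ => ℤ) (fun _ => Fin N)).symm).trans
    (Equiv.piCongrRight fun _ => (Int.divModEquiv N).symm)

theorem dig_apply {ι : Type} (N : ℕ) [NeZero N] (r : ι → Fin N) (q : ι → ℤ) (i : ι) :
    dig ι N (r, q) i = q i * N + (r i : ℕ) := rfl

/-- the digit `r` as an integral vector -/
def rz {ι : Type} {N : ℕ} (r : ι → Fin N) : ι → ℤ := fun i => ((r i : ℕ) : ℤ)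

theorem dig_eq {ι : Type} (N : ℕ) [NeZero N] (r : ι → Fin N) (q : ι → ℤ) :
    dig ι N (r, q) = rz r + (N : ℤ) • q := by
  funext i
  rw [dig_apply]
  simp only [rz, Pi.add_apply, Pi.smul_apply, smul_eq_mul]
  ring

/-- the digit `r`, divided by `N` -/
def rn {ι : Type} {N : ℕ} (r : ι → Fin N) : ι → ℝ := fun i => ((r i : ℕ) : ℝ) / N

theorem ePi_mul_rn {ι : Type} [Fintype ι] {N : ℕ} [NeZero N] (r : ι → Fin N) (q : ι → ℤ) :
    ePi ((N : ℤ) • q) (rn r) = 1 := by
  unfold ePi
  have hN : (N : ℂ) ≠ 0 := by exact_mod_cast NeZero.ne N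
  have h1 : 2 * (Real.pi : ℂ) * Complex.I * ∑ i, ((((N : ℤ) • q) i : ℤ) : ℂ) * ((rn r i : ℝ) : ℂ) =
      ((∑ i, q i * ((r i : ℕ) : ℤ) : ℤ) : ℂ) * (2 * (Real.pi : ℂ) * Complex.I) := by
    have h2 : ∑ i, ((((N : ℤ) • q) i : ℤ) : ℂ) * ((rn r i : ℝ) : ℂ) =
        ((∑ i, q i * ((r i : ℕ) : ℤ) : ℤ) : ℂ) := by
      push_cast
      refine Finset.sum_congr rfl fun i _ => ?_
      simp only [Pi.smul_apply, smul_eq_mul, rn]
      push_cast
      field_simp
    rw [h2]
    ring
  rw [h1, Complex.exp_int_mul, Complex.exp_two_pi_mul_I, one_zpow]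

theorem ePi_add_left {ι : Type} [Fintype ι] (m m' : ι → ℤ) (x : ι → ℝ) :
    ePi (m + m') x = ePi m x * ePi m' x := by
  unfold ePi
  rw [← Complex.exp_add]
  congr 1
  rw [← mul_add, ← Finset.sum_add_distrib]
  congr 1
  refine Finset.sum_congr rfl fun i _ => ?_
  simp only [Pi.add_apply]
  push_cast
  ring

theorem norm_ePi {ι : Type} [Fintype ι] (m : ι → ℤ) (x : ι → ℝ) : ‖ePi m x‖ = 1 := by
  unfold ePi
  rw [Complex.norm_exp]
  have h1 : (2 * (Real.pi : ℂ) * Complex.I * ∑ i, (m i : ℂ) * (x i : ℂ)).re = 0 := by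
    have h2 : ∑ i, (m i : ℂ) * (x i : ℂ) = ((∑ i, (m i : ℝ) * x i : ℝ) : ℂ) := by push_cast; rfl
    rw [h2]
    simp
  rw [h1, Real.exp_zero]

end main

end Pois

open Pois

/-- **Poisson summation** on `F ^ {3k}`. -/
theorem pPois : S_Pois := by
  intro F _ _ _ k _ _ n hn
  classical
  obtain ⟨d, hd, hdint⟩ := exists_den F
  refine ⟨n * d, Nat.mul_pos hn hd, fun φ hφ => ?_⟩
  obtain ⟨hsupp, hper⟩ := hφ
  have hN0 : n ^ 2 ≠ 0 := (pow_pos hn 2).ne'
  have : NeZero (n ^ 2) := ⟨hN0⟩
  have hnR : (n : ℝ) ≠ 0 := by exact_mod_cast hn.ne'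
  have hnF : (n : F) ≠ 0 := by exact_mod_cast hn.ne'
  set P : (II F k → ℤ) → (k → Fin 3 → F) := pM k (bb F) ((n : F)⁻¹) with hPdef
  set P' : (II F k → ℤ) → (k → Fin 3 → F) := pM k (bd F) ((n : F)⁻¹) with hP'def
  have hPe : ∀ m, emb (P m) = eM k (bb F) ((n : ℝ)⁻¹) (castL _ m) := emb_pM _ _ _ (fun t => by simp)
  have hP'e : ∀ m, emb (P' m) = eM k (bd F) ((n : ℝ)⁻¹) (castL _ m) := emb_pM _ _ _ (fun t => by simp)
  have hPinj : Function.Injective P := fun m m' h => by
    have h1 : emb (P m) = emb (P m') := by rw [h]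
    rw [hPe, hPe] at h1
    exact castL_inj (eM_bb_inj _ (inv_ne_zero hnR) h1)
  have hP'inj : Function.Injective P' := fun m m' h => by
    have h1 : emb (P' m) = emb (P' m') := by rw [h]
    rw [hP'e, hP'e] at h1
    exact castL_inj (eM_bd_inj _ (inv_ne_zero hnR) h1)
  -- the change of variables
  set eL : (II F k → ℝ) ≃L[ℝ] XR F k := (LinearMap.linearEquivOfInjective (eM k (bb F) (n : ℝ))
    (eM_bb_inj _ hnR) finrank_eq).toContinuousLinearEquiv with heL
  have heLa : ∀ u, eL u = eM k (bb F) (n : ℝ) u := fun u => rfl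
  have : (volume : Measure (XR F k)).IsAddHaarMeasure := ah3
  obtain ⟨c, hc, hint⟩ := exists_cov eL
  have hc' : (c : ℂ) ≠ 0 := by exact_mod_cast hc.ne'
  -- the coefficients
  set f' : (II F k → ℤ) → ℂ := fun m =>
    (c : ℂ)⁻¹ * ∑ r : II F k → Fin (n ^ 2), φ (P (rz r)) * ePi m (rn r) with hf'
  -- periodicity of `φ`
  have hPper : ∀ (m q : II F k → ℤ), φ (P (m + ((n ^ 2 : ℕ) : ℤ) • q)) = φ (P m) := by
    intro m q
    have h1 : P (m + ((n ^ 2 : ℕ) : ℤ) • q) = fun a i => P m a i + (n : F) *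
        (∑ j, (q ((a, i), j) : F) * bb F j) := by
      funext a i
      rw [hPdef, pM_add]
      simp only [Pi.add_apply, pM_apply, Pi.smul_apply, smul_eq_mul]
      congr 1
      rw [Finset.mul_sum, Finset.mul_sum]
      refine Finset.sum_congr rfl fun j _ => ?_
      push_cast
      field_simp
    rw [h1]
    exact hper _ _ fun a i => IsIntegral.sum _ fun j _ =>
      (isIntegral_algebraMap (R := ℤ) (A := F) (x := q ((a, i), j))).mul (bb_int F j)
  refine ⟨Function.extend P' f' 0, ⟨?_, ?_⟩, fun G hG hED hEDft => ?_⟩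
  · -- support
    intro y hy a i
    have hy' : ∃ m, P' m = y := by
      by_contra hcon
      exact hy (Function.extend_apply' _ _ _ hcon)
    obtain ⟨m, rfl⟩ := hy'
    have h1 : ((n * d : ℕ) : F) * P' m a i = ∑ j, (m ((a, i), j) : F) * ((d : F) * bd F j) := by
      rw [hP'def, pM_apply, Finset.mul_sum, Finset.mul_sum]
      refine Finset.sum_congr rfl fun j _ => ?_
      push_cast
      field_simp
    rw [h1]
    exact IsIntegral.sum _ fun j _ =>
      (isIntegral_algebraMap (R := ℤ) (A := F) (x := m ((a, i), j))).mul (hdint j)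
  · -- periodicity
    intro x y hy
    have h1 : ∀ a i, ∃ m : JF F → ℤ, (d : F) * y a i = ∑ j, (m j : F) * bd F j := fun a i =>
      exp_bd F ((isIntegral_natCast _).mul (hy a i))
    choose m'' hm'' using h1
    set q : II F k → ℤ := fun p => m'' p.1.1 p.1.2 p.2 with hq
    have h2 : (fun a i => x a i + ((n * d : ℕ) : F) * y a i) = x + P' (((n ^ 2 : ℕ) : ℤ) • q) := by
      funext a i
      simp only [Pi.add_apply, hP'def, pM_apply, Pi.smul_apply, smul_eq_mul]
      congr 1
      have h3 : ((n * d : ℕ) : F) * y a i = (n : F) * ((d : F) * y a i) := by push_cast; ring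
      rw [h3, hm'', Finset.mul_sum, Finset.mul_sum]
      refine Finset.sum_congr rfl fun j _ => ?_
      simp only [hq]
      push_cast
      field_simp
    rw [h2]
    by_cases hx : ∃ m, P' m = x
    · obtain ⟨m, rfl⟩ := hx
      have h3 : P' m + P' (((n ^ 2 : ℕ) : ℤ) • q) = P' (m + ((n ^ 2 : ℕ) : ℤ) • q) := (pM_add _ _ _ _).symm
      rw [h3, hP'inj.extend_apply, hP'inj.extend_apply, hf']
      simp only
      congr 1
      refine Finset.sum_congr rfl fun r _ => ?_
      rw [ePi_add_left, ePi_mul_rn, mul_one]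
    · have h3 : ¬ ∃ m, P' m = x + P' (((n ^ 2 : ℕ) : ℤ) • q) := by
        rintro ⟨m, hm⟩
        apply hx
        refine ⟨m - ((n ^ 2 : ℕ) : ℤ) • q, ?_⟩
        have h4 := pM_add (k := k) (bd F) ((n : F)⁻¹) (m - ((n ^ 2 : ℕ) : ℤ) • q) (((n ^ 2 : ℕ) : ℤ) • q)
        rw [sub_add_cancel] at h4
        have h5 : P' (m - ((n ^ 2 : ℕ) : ℤ) • q) + P' (((n ^ 2 : ℕ) : ℤ) • q) =
            x + P' (((n ^ 2 : ℕ) : ℤ) • q) := by rw [← hm]; exact h4.symm
        exact add_right_cancel h5
      rw [Function.extend_apply' _ _ _ h3, Function.extend_apply' _ _ _ hx]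
      rfl
  · -- the formula
    set g : (II F k → ℝ) → ℂ := fun u => G (eM k (bb F) (n : ℝ) u) with hg
    have hgc : Continuous g := hG.comp (LinearMap.continuous_of_finiteDimensional _)
    have hgE : ED g := ed_comp _ (eM_bb_inj _ hnR) hED
    have hgD : DomPi g := domPi hgE
    -- Fourier transforms
    have hft : ∀ m : II F k → ℤ, ft G (emb (P' m)) = (c : ℂ) * ftPi g m := by
      intro m
      unfold ft ftPi
      rw [hint, hP'e]
      congr 1
      refine integral_congr_ae (Filter.Eventually.of_forall fun u => ?_)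
      simp only
      rw [heLa, pairing (n : ℝ) ((n : ℝ)⁻¹) (inv_mul_cancel₀ hnR), mul_comm (G _)]
      congr 2
      have h1 : ((∑ p, castL _ m p * u p : ℝ) : ℂ) = ∑ p, (m p : ℂ) * (u p : ℂ) := by
        push_cast
        rfl
      rw [h1]
      ring
    have hsF : Summable (ftPi g) := by
      have h1 : ED (fun u => ft G (eM k (bd F) ((n : ℝ)⁻¹) u)) := ed_comp _ (eM_bd_inj _ (inv_ne_zero hnR)) hEDft
      have h2 := (summable_ed h1).mul_left (c : ℂ)⁻¹
      refine h2.congr fun m => ?_
      rw [← hP'e, hft, ← mul_assoc, inv_mul_cancel₀ hc', one_mul]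
    -- the terms
    have hterm : ∀ (r : II F k → Fin (n ^ 2)) (q : II F k → ℤ),
        φ (P (dig _ _ (r, q))) * G (emb (P (dig _ _ (r, q)))) =
          φ (P (rz r)) * g (rn r + fun p => (q p : ℝ)) := by
      intro r q
      rw [hPe, dig_eq, hPper]
      congr 2
      funext t a i
      rw [eM_apply, eM_apply, Finset.mul_sum, Finset.mul_sum]
      refine Finset.sum_congr rfl fun j _ => ?_
      simp only [castL_apply, rz, rn, Pi.add_apply, Pi.smul_apply, smul_eq_mul]
      push_cast
      field_simp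
    have hsum : Summable fun m : II F k → ℤ => φ (P m) * G (emb (P m)) := by
      have h1 : ED (fun u => G (eM k (bb F) ((n : ℝ)⁻¹) u)) := ed_comp _ (eM_bb_inj _ (inv_ne_zero hnR)) hED
      have h2 := (summable_ed h1).norm.mul_left (∑ r : II F k → Fin (n ^ 2), ‖φ (P (rz r))‖)
      refine Summable.of_norm_bounded h2 fun m => ?_
      rw [norm_mul, hPe]
      refine mul_le_mul_of_nonneg_right ?_ (norm_nonneg _)
      obtain ⟨⟨r, q⟩, rfl⟩ := (dig (II F k) (n ^ 2)).surjective m
      rw [dig_eq, hPper]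
      exact Finset.single_le_sum (f := fun r : II F k → Fin (n ^ 2) => ‖φ (P (rz r))‖)
        (fun _ _ => norm_nonneg _) (Finset.mem_univ r)
    have hsum2 : Summable fun rq : (II F k → Fin (n ^ 2)) × (II F k → ℤ) =>
        φ (P (dig _ _ rq)) * G (emb (P (dig _ _ rq))) :=
      (dig (II F k) (n ^ 2)).summable_iff.2 hsum
    calc ∑' x : k → Fin 3 → F, φ x * G (emb x)
        = ∑' m : II F k → ℤ, φ (P m) * G (emb (P m)) := by
          symm
          refine hPinj.tsum_eq (f := fun x => φ x * G (emb x)) ?_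
          intro x hx
          have hx' : φ x ≠ 0 := fun h => hx (by simp [h])
          have h1 : ∀ a i, ∃ m : JF F → ℤ, (n : F) * x a i = ∑ j, (m j : F) * bb F j := fun a i =>
            exp_bb F (hsupp x hx' a i)
          choose m hm using h1
          refine ⟨fun p => m p.1.1 p.1.2 p.2, ?_⟩
          funext a i
          rw [hPdef, pM_apply, ← hm, ← mul_assoc, inv_mul_cancel₀ hnF, one_mul]
      _ = ∑' rq : (II F k → Fin (n ^ 2)) × (II F k → ℤ), φ (P (dig _ _ rq)) * G (emb (P (dig _ _ rq))) :=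
          ((dig (II F k) (n ^ 2)).tsum_eq (fun m => φ (P m) * G (emb (P m)))).symm
      _ = ∑' r : II F k → Fin (n ^ 2), ∑' q : II F k → ℤ, φ (P (dig _ _ (r, q))) * G (emb (P (dig _ _ (r, q)))) :=
          hsum2.tsum_prod
      _ = ∑ r : II F k → Fin (n ^ 2), φ (P (rz r)) * ∑' q : II F k → ℤ, g (rn r + fun p => (q p : ℝ)) := by
          rw [tsum_fintype]
          refine Finset.sum_congr rfl fun r _ => ?_
          rw [← tsum_mul_left]
          exact tsum_congr fun q => hterm r q
      _ = ∑ r : II F k → Fin (n ^ 2), ∑' m : II F k → ℤ, φ (P (rz r)) * (ftPi g m * ePi m (rn r)) := by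
          refine Finset.sum_congr rfl fun r _ => ?_
          rw [tPois hgc hgD hsF, tsum_mul_left]
      _ = ∑' m : II F k → ℤ, ∑ r : II F k → Fin (n ^ 2), φ (P (rz r)) * (ftPi g m * ePi m (rn r)) := by
          refine (Summable.tsum_finsetSum fun r _ => Summable.mul_left _ ?_).symm
          refine Summable.of_norm_bounded hsF.norm fun m => ?_
          rw [norm_mul, norm_ePi, mul_one]
      _ = ∑' m : II F k → ℤ, f' m * ft G (emb (P' m)) := by
          refine tsum_congr fun m => ?_
          rw [hft, hf']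
          simp only
          have h1 : (c : ℂ)⁻¹ * (∑ r : II F k → Fin (n ^ 2), φ (P (rz r)) * ePi m (rn r)) * ((c : ℂ) * ftPi g m) =
              (∑ r : II F k → Fin (n ^ 2), φ (P (rz r)) * ePi m (rn r)) * ftPi g m := by
            field_simp
          rw [h1, Finset.sum_mul]
          refine Finset.sum_congr rfl fun r _ => ?_
          ring
      _ = ∑' m : II F k → ℤ, Function.extend P' f' 0 (P' m) * ft G (emb (P' m)) := by
          refine tsum_congr fun m => ?_
          rw [hP'inj.extend_apply]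
      _ = ∑' y : k → Fin 3 → F, Function.extend P' f' 0 y * ft G (emb y) := by
          refine hP'inj.tsum_eq (f := fun y => Function.extend P' f' 0 y * ft G (emb y)) ?_
          intro y hy
          by_contra hcon
          apply hy
          have : ¬ ∃ m, P' m = y := hcon
          show Function.extend P' f' 0 y * ft G (emb y) = 0
          rw [Function.extend_apply' _ _ _ this]
          simp

end IP
end CMT
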