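import Pool.Agent.Lib.CMT.I.Def
import Pool.Agent.Lib.CMT.A.Pois
import Pool.Agent.Lib.CMT.NV.Tend

/-!
# CMT, part I, Pois (1): exponential decay and sums over `ℤ ^ ι`; the trace dual basis (helper8)
-/

open scoped BigOperators ComplexConjugate
open MeasureTheory NumberField Pool.Agent.CMT

noncomputable section

namespace CMT
namespace IP
namespace Pois

/-! ## exponential decay on `ι → ℝ` -/

section decay

variable {ι : Type} [Fintype ι]

theorem ed_const_nonneg {E : Type} [NormedAddCommGroup E] {f : E → ℂ} {C ε : ℝ}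
    (h : ∀ x, ‖f x‖ ≤ C * Real.exp (-(ε * ‖x‖))) : 0 ≤ C := by
  have := (norm_nonneg _).trans (h 0)
  simpa using this

theorem ed_comp {X : Type} [NormedAddCommGroup X] [NormedSpace ℝ X] (f : (ι → ℝ) →ₗ[ℝ] X)
    (hf : Function.Injective f) {H : X → ℂ} (h : ED H) : ED (fun u => H (f u)) := by
  obtain ⟨C, ε, hε, hH⟩ := h
  obtain ⟨K, hK, hanti⟩ := f.exists_antilipschitzWith (LinearMap.ker_eq_bot.2 hf)
  have hC := ed_const_nonneg hH
  have hK' : (0 : ℝ) < K := by exact_mod_cast hK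
  refine ⟨C, ε / K, div_pos hε hK', fun u => (hH _).trans ?_⟩
  refine mul_le_mul_of_nonneg_left (Real.exp_le_exp.2 (neg_le_neg ?_)) hC
  have h1 : ‖u‖ ≤ K * ‖f u‖ := by
    have := hanti.le_mul_dist u 0
    simpa using this
  rw [div_mul_eq_mul_div, div_le_iff₀ hK']
  have := mul_le_mul_of_nonneg_left h1 hε.le
  linarith

/-- the inclusion `ℤ ^ ι → ℝ ^ ι` -/
def castL (ι : Type) [Fintype ι] : (ι → ℤ) →ₗ[ℤ] (ι → ℝ) where
  toFun q := fun i => (q i : ℝ)
  map_add' p q := by funext i; simp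
  map_smul' m q := by funext i; simp

theorem castL_apply (q : ι → ℤ) : castL ι q = fun i => (q i : ℝ) := rfl

theorem castL_inj : Function.Injective (castL ι) := fun p q h => by
  funext i
  have := congrFun h i
  exact Int.cast_injective this

theorem one_le_norm_castL {q : ι → ℤ} (h : q ≠ 0) : 1 ≤ ‖castL ι q‖ := by
  obtain ⟨i, hi⟩ : ∃ i, q i ≠ 0 := by
    by_contra hcon
    push Not at hcon
    exact h (funext hcon)
  have h1 : (1 : ℝ) ≤ ‖castL ι q i‖ := by
    show (1 : ℝ) ≤ ‖((q i : ℤ) : ℝ)‖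
    rw [Real.norm_eq_abs]
    exact_mod_cast Int.one_le_abs hi
  exact h1.trans (norm_le_pi_norm _ i)

/-- the lattice `ℤ ^ ι` in `ℝ ^ ι` -/
def Lz (ι : Type) [Fintype ι] : Submodule ℤ (ι → ℝ) := LinearMap.range (castL ι)

theorem castL_mem (q : ι → ℤ) : castL ι q ∈ Lz ι := ⟨q, rfl⟩

instance : DiscreteTopology (Lz ι) := by
  refine DiscreteTopology.of_forall_le_norm (r := 1) one_pos ?_
  rintro ⟨l, q, rfl⟩ hl
  refine one_le_norm_castL ?_
  rintro rfl
  exact hl (Subtype.ext (map_zero (castL ι)))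

/-- the points of the lattice -/
def toLz (q : ι → ℤ) : Lz ι := ⟨castL ι q, castL_mem q⟩

theorem toLz_inj : Function.Injective (toLz (ι := ι)) := fun _ _ hpq =>
  castL_inj (congrArg Subtype.val hpq)

theorem summable_exp {a : ℝ} (ha : 0 < a) :
    Summable fun q : ι → ℤ => Real.exp (-a * ‖castL ι q‖) := by
  have h := Pool.Agent.Lib.CMT.NV.summable_exp_neg_norm (Lz ι) ha
  have h2 := h.comp_injective toLz_inj
  exact h2

theorem domPi {g : (ι → ℝ) → ℂ} (h : ED g) : DomPi g := by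
  obtain ⟨C, ε, hε, hg⟩ := h
  have hC := ed_const_nonneg hg
  intro R
  refine ⟨fun q => C * Real.exp (ε * |R|) * Real.exp (-ε * ‖castL ι q‖),
    (summable_exp hε).mul_left _, fun q x hx => (hg _).trans ?_⟩
  show C * Real.exp (-(ε * ‖x + fun i => (q i : ℝ)‖)) ≤
    C * Real.exp (ε * |R|) * Real.exp (-ε * ‖castL ι q‖)
  rw [mul_assoc, ← Real.exp_add]
  refine mul_le_mul_of_nonneg_left (Real.exp_le_exp.2 ?_) hC
  have h1 : ‖x‖ ≤ |R| := by
    rw [pi_norm_le_iff_of_nonneg (abs_nonneg _)]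
    exact fun i => (hx i).trans (le_abs_self _)
  have h2 : ‖castL ι q‖ ≤ ‖x + castL ι q‖ + ‖x‖ := by
    have := norm_sub_le (x + castL ι q) x
    simpa using this
  have h3 : ‖x + castL ι q‖ = ‖x + fun i => (q i : ℝ)‖ := rfl
  rw [← h3]
  nlinarith

theorem summable_ed {g : (ι → ℝ) → ℂ} (h : ED g) : Summable fun q : ι → ℤ => g (castL ι q) := by
  obtain ⟨C, ε, hε, hg⟩ := h
  refine Summable.of_norm_bounded ((summable_exp (ι := ι) hε).mul_left C) fun q => ?_
  have := hg (castL ι q)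
  rwa [← neg_mul] at this

end decay

/-! ## the trace -/

section trace

variable (F : Type) [Field F] [NumberField F]

/-- A real embedding as a complex one. -/
private def tre (t : F →+* ℝ) : F →ₐ[ℚ] ℂ :=
  (Complex.ofRealHom.comp t : F →+* ℂ).toRatAlgHom

private theorem tre_apply (t : F →+* ℝ) (x : F) : tre F t x = ((t x : ℝ) : ℂ) := rfl

private theorem tre_bij [IsTotallyReal F] : Function.Bijective (tre F) := by
  constructor
  · intro s t hst
    ext x
    have h := DFunLike.congr_fun hst x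
    rw [tre_apply, tre_apply] at h
    exact Complex.ofReal_injective h
  · intro σ
    have hr : ComplexEmbedding.IsReal (σ : F →+* ℂ) := IsTotallyReal.complexEmbedding_isReal _
    refine ⟨hr.embedding, ?_⟩
    refine AlgHom.ext fun x => ?_
    rw [tre_apply]
    exact ComplexEmbedding.IsReal.coe_embedding_apply hr x

theorem trace_eq [IsTotallyReal F] (x : F) :
    ((Algebra.trace ℚ F x : ℚ) : ℝ) = ∑ t : F →+* ℝ, t x := by
  have h1 : algebraMap ℚ ℂ (Algebra.trace ℚ F x) = ∑ σ : F →ₐ[ℚ] ℂ, σ x :=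
    trace_eq_sum_embeddings ℂ
  have h2 : (∑ t : F →+* ℝ, ((t x : ℝ) : ℂ)) = ∑ σ : F →ₐ[ℚ] ℂ, σ x :=
    Fintype.sum_bijective (tre F) (tre_bij F) _ _ fun t => (tre_apply F t x).symm
  have h3 : ((((Algebra.trace ℚ F x : ℚ) : ℝ)) : ℂ) = ((∑ t : F →+* ℝ, t x : ℝ) : ℂ) := by
    rw [Complex.ofReal_sum, h2, ← h1, eq_ratCast, Complex.ofReal_ratCast]
  exact Complex.ofReal_injective h3

theorem card_eq [IsTotallyReal F] : Fintype.card (F →+* ℝ) = Module.finrank ℚ F := by
  rw [Fintype.card_of_bijective (tre_bij F), AlgHom.card]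

/-- the index set of an integral basis -/
abbrev JF : Type := Module.Free.ChooseBasisIndex ℤ (𝓞 F)

theorem card_JF : Fintype.card (JF F) = Module.finrank ℚ F :=
  (Module.finrank_eq_card_basis (integralBasis F)).symm

/-- an integral basis -/
def bb (j : JF F) : F := integralBasis F j

open Classical in
/-- the dual basis -/
def bd (j : JF F) : F :=
  (Algebra.traceForm ℚ F).dualBasis (traceForm_nondegenerate ℚ F) (integralBasis F) j

open Classical in
theorem trace_bd_bb (i j : JF F) : Algebra.trace ℚ F (bd F i * bb F j) = if j = i then 1 else 0 := by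
  have := (Algebra.traceForm ℚ F).apply_dualBasis_left (traceForm_nondegenerate ℚ F) (integralBasis F) i j
  rwa [Algebra.traceForm_apply] at this

theorem bb_eq (j : JF F) : bb F j = algebraMap (𝓞 F) F (RingOfIntegers.basis F j) :=
  integralBasis_apply F j

theorem bb_int (j : JF F) : IsIntegral ℤ (bb F j) := by
  rw [bb_eq]
  exact RingOfIntegers.isIntegral_coe _

theorem exp_bb {w : F} (hw : IsIntegral ℤ w) : ∃ m : JF F → ℤ, w = ∑ j, (m j : F) * bb F j := by
  refine ⟨fun j => (RingOfIntegers.basis F).repr (⟨w, hw⟩ : 𝓞 F) j, ?_⟩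
  have h1 := congrArg (algebraMap (𝓞 F) F) ((RingOfIntegers.basis F).sum_repr (⟨w, hw⟩ : 𝓞 F))
  rw [map_sum] at h1
  have h2 : algebraMap (𝓞 F) F (⟨w, hw⟩ : 𝓞 F) = w := rfl
  rw [h2] at h1
  refine h1.symm.trans (Finset.sum_congr rfl fun j _ => ?_)
  rw [map_zsmul, zsmul_eq_mul, bb_eq]

theorem exp_bd {w : F} (hw : IsIntegral ℤ w) : ∃ m : JF F → ℤ, w = ∑ j, (m j : F) * bd F j := by
  classical
  have h1 : ∀ j : JF F, ∃ m : ℤ, (m : ℚ) = Algebra.trace ℚ F (w * bb F j) := by
    intro j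
    have h2 : IsIntegral ℤ (Algebra.trace ℚ F (w * bb F j)) :=
      Algebra.isIntegral_trace (hw.mul (bb_int F j))
    obtain ⟨m, hm⟩ := (IsIntegrallyClosed.isIntegral_iff (R := ℤ) (K := ℚ)).1 h2
    exact ⟨m, by rw [← hm]; simp⟩
  choose m hm using h1
  refine ⟨m, ?_⟩
  set B := (Algebra.traceForm ℚ F).dualBasis (traceForm_nondegenerate ℚ F) (integralBasis F) with hB
  refine (B.sum_repr w).symm.trans (Finset.sum_congr rfl fun j _ => ?_)
  have h4 : B.repr w j = (m j : ℚ) := by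
    rw [hm, hB, LinearMap.BilinForm.dualBasis_repr_apply, Algebra.traceForm_apply]
    rfl
  have h5 : B j = bd F j := rfl
  rw [h4, h5, Algebra.smul_def]
  congr 1
  simp

theorem exists_den_one (x : F) : ∃ d : ℕ, 0 < d ∧ IsIntegral ℤ ((d : F) * x) := by
  have halg : IsAlgebraic ℤ x := by
    have : IsAlgebraic ℚ x := Algebra.IsAlgebraic.isAlgebraic x
    exact (IsFractionRing.isAlgebraic_iff ℤ ℚ F).mpr this
  obtain ⟨y, hy0, hy⟩ := halg.exists_integral_multiple
  refine ⟨y.natAbs, Int.natAbs_pos.2 hy0, ?_⟩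
  rw [Algebra.smul_def, eq_intCast] at hy
  rcases Int.natAbs_eq y with h | h
  · have h1 : ((y.natAbs : ℕ) : F) = (y : F) := by
      rw [← Int.cast_natCast, ← h]
    rw [h1]
    exact hy
  · have h1 : ((y.natAbs : ℕ) : F) = -(y : F) := by
      rw [← Int.cast_natCast, ← Int.cast_neg]
      congr 1
      omega
    rw [h1, neg_mul]
    exact hy.neg

theorem exists_den : ∃ d : ℕ, 0 < d ∧ ∀ j : JF F, IsIntegral ℤ ((d : F) * bd F j) := by
  classical
  choose d hd h using fun j : JF F => exists_den_one F (bd F j)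
  refine ⟨∏ j, d j, Finset.prod_pos fun j _ => hd j, fun j => ?_⟩
  have h1 : ((∏ l, d l : ℕ) : F) * bd F j =
      ((∏ l ∈ Finset.univ.erase j, d l : ℕ) : F) * ((d j : F) * bd F j) := by
    rw [← Finset.mul_prod_erase Finset.univ d (Finset.mem_univ j)]
    push_cast
    ring
  rw [h1]
  exact (isIntegral_natCast _).mul (h j)

end trace

end Pois
end IP
end CMT
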