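import Pool.Agent.Lib.CMT.I.Def
import Pool.Agent.Lib.CMT.C.Bd

/-!
# PROJECT CMT, part I: summability (`S_Lsum`, `S_Lsum2`) and the product formula (`S_Prod`)
-/

open scoped BigOperators ComplexConjugate
open MeasureTheory Finset NumberField

noncomputable section

namespace CMT
namespace IP

/-! ## sums of exponentials over lattices -/

theorem summable_exp_neg_abs (c : ℝ) (hc : 0 < c) :
    Summable fun n : ℤ => Real.exp (-c * |(n : ℝ)|) := by
  have h1 : Summable fun n : ℕ => Real.exp (-c * (n : ℝ)) := by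
    have := (Real.summable_exp_nat_mul_iff (a := -c)).2 (by linarith)
    refine this.congr fun n => by rw [mul_comm]
  refine Summable.of_nat_of_neg (f := fun n : ℤ => Real.exp (-c * |(n : ℝ)|)) ?_ ?_
  · simpa using h1
  · simpa using h1

theorem summable_exp_neg_abs_pi {κ : Type*} [Fintype κ] (c : ℝ) (hc : 0 < c) :
    Summable fun n : κ → ℤ => Real.exp (-c * ∑ j, |(n j : ℝ)|) := by
  classical
  set S : ℝ := ∑' n : ℤ, Real.exp (-c * |(n : ℝ)|)
  refine summable_of_sum_le (c := S ^ Fintype.card κ) (fun _ => (Real.exp_pos _).le) fun s => ?_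
  have hsub : s ⊆ Fintype.piFinset (fun j => s.image (fun n => n j)) := by
    intro n hn
    rw [Fintype.mem_piFinset]
    exact fun j => mem_image_of_mem _ hn
  calc ∑ n ∈ s, Real.exp (-c * ∑ j, |(n j : ℝ)|)
      ≤ ∑ n ∈ Fintype.piFinset (fun j => s.image (fun n : κ → ℤ => n j)),
          Real.exp (-c * ∑ j, |((n j : ℤ) : ℝ)|) :=
        sum_le_sum_of_subset_of_nonneg hsub (fun _ _ _ => (Real.exp_pos _).le)
    _ = ∑ n ∈ Fintype.piFinset (fun j => s.image (fun n : κ → ℤ => n j)),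
          ∏ j, Real.exp (-c * |((n j : ℤ) : ℝ)|) := by
        refine sum_congr rfl fun n _ => ?_
        rw [mul_sum, Real.exp_sum]
    _ = ∏ j, ∑ m ∈ s.image (fun n : κ → ℤ => n j), Real.exp (-c * |((m : ℤ) : ℝ)|) := by
        rw [Finset.prod_univ_sum]
    _ ≤ ∏ _j : κ, S := by
        refine prod_le_prod (fun j _ => sum_nonneg fun _ _ => (Real.exp_pos _).le) fun j _ => ?_
        exact (summable_exp_neg_abs c hc).sum_le_tsum _ (fun _ _ => (Real.exp_pos _).le)
    _ = S ^ Fintype.card κ := by simp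

variable {F : Type} [Field F] [NumberField F]

/-- `|x|₁ = ∑_i ∑_t |t x_i|`. -/
def sn {ι : Type*} [Fintype ι] (x : ι → F) : ℝ := ∑ i, ∑ t : F →+* ℝ, |t (x i)|

theorem sn_nonneg {ι : Type*} [Fintype ι] (x : ι → F) : 0 ≤ sn x :=
  sum_nonneg fun _ _ => sum_nonneg fun _ _ => abs_nonneg _

theorem sn_smul {ι : Type*} [Fintype ι] (N : ℕ) (x : ι → F) :
    sn (fun i => (N : F) * x i) = (N : ℝ) * sn x := by
  unfold sn
  rw [mul_sum]
  refine sum_congr rfl fun i _ => ?_
  rw [mul_sum]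
  refine sum_congr rfl fun t _ => ?_
  rw [map_mul, map_natCast, abs_mul, Nat.abs_cast]

theorem repr_abs_le (F : Type) [Field F] [NumberField F] [IsTotallyReal F] :
    ∃ C : ℝ, 0 < C ∧ ∀ (y : 𝓞 F) (j),
      |(((RingOfIntegers.basis F).repr y j : ℤ) : ℝ)| ≤ C * ∑ t : F →+* ℝ, |t (y : F)| := by
  obtain ⟨C, hC, h⟩ := repr_sq_le F
  refine ⟨Real.sqrt C, Real.sqrt_pos.mpr hC, fun y j => ?_⟩
  have h0 : 0 ≤ ∑ t : F →+* ℝ, |t (y : F)| := sum_nonneg fun _ _ => abs_nonneg _
  have h1 : ∑ t : F →+* ℝ, (t (y : F)) ^ 2 ≤ (∑ t : F →+* ℝ, |t (y : F)|) ^ 2 := by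
    calc ∑ t : F →+* ℝ, (t (y : F)) ^ 2
        ≤ ∑ t : F →+* ℝ, |t (y : F)| * ∑ s : F →+* ℝ, |s (y : F)| := by
          refine sum_le_sum fun t _ => ?_
          rw [← sq_abs, sq]
          refine mul_le_mul_of_nonneg_left ?_ (abs_nonneg _)
          exact single_le_sum (f := fun s : F →+* ℝ => |s (y : F)|) (fun _ _ => abs_nonneg _)
            (mem_univ t)
      _ = (∑ t : F →+* ℝ, |t (y : F)|) ^ 2 := by rw [← sum_mul, sq]
  apply abs_le_of_sq_le_sq _ (by positivity)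
  rw [mul_pow, Real.sq_sqrt hC.le]
  exact (h y j).trans (mul_le_mul_of_nonneg_left h1 hC.le)

/-- Exponential sums over the lattice. -/
theorem summable_lat_abs [IsTotallyReal F] {ι : Type*} [Fintype ι] (N : ℕ) (hN : 0 < N)
    (c : ℝ) (hc : 0 < c) : Summable fun x : lat F ι N => Real.exp (-c * sn (x : ι → F)) := by
  classical
  obtain ⟨C, hC, hrepr⟩ := repr_abs_le F
  have hNr : (0 : ℝ) < N := by exact_mod_cast hN
  let J := Module.Free.ChooseBasisIndex ℤ (𝓞 F)
  let n : lat F ι N → (ι × J → ℤ) := fun x p =>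
    (RingOfIntegers.basis F).repr (⟨(N : F) * x.1 p.1, x.2 p.1⟩ : 𝓞 F) p.2
  have hinj : Function.Injective n := by
    intro x y hxy
    apply Subtype.ext
    funext i
    have h1 : (⟨(N : F) * x.1 i, x.2 i⟩ : 𝓞 F) = ⟨(N : F) * y.1 i, y.2 i⟩ := by
      apply (RingOfIntegers.basis F).repr.injective
      ext j
      exact congrFun hxy (i, j)
    have h2 : (N : F) * x.1 i = (N : F) * y.1 i := congrArg (fun a : 𝓞 F => (a : F)) h1
    exact mul_left_cancel₀ (by exact_mod_cast hN.ne') h2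
  have hcard : (0 : ℝ) < (Fintype.card J : ℝ) + 1 := by positivity
  set c' : ℝ := c / (C * ((Fintype.card J : ℝ) + 1) * (N : ℝ)) with hc'
  have hc'0 : 0 < c' := by positivity
  have hs := (summable_exp_neg_abs_pi (κ := ι × J) c' hc'0).comp_injective hinj
  refine hs.of_nonneg_of_le (fun _ => (Real.exp_pos _).le) fun x => ?_
  apply Real.exp_le_exp.2
  have hsum : ∑ p : ι × J, |((n x p : ℤ) : ℝ)|
      ≤ C * ((Fintype.card J : ℝ) + 1) * (N : ℝ) * sn (x : ι → F) := by
    have h1 : ∀ i : ι, ∑ j : J, |((n x (i, j) : ℤ) : ℝ)|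
        ≤ ((Fintype.card J : ℝ) + 1) * (C * ∑ t : F →+* ℝ, |t ((N : F) * x.1 i)|) := by
      intro i
      have h2 : 0 ≤ C * ∑ t : F →+* ℝ, |t ((N : F) * x.1 i)| :=
        mul_nonneg hC.le (sum_nonneg fun _ _ => abs_nonneg _)
      calc ∑ j : J, |((n x (i, j) : ℤ) : ℝ)|
          ≤ ∑ _j : J, C * ∑ t : F →+* ℝ, |t ((N : F) * x.1 i)| :=
            sum_le_sum fun j _ => hrepr ⟨(N : F) * x.1 i, x.2 i⟩ j
        _ = (Fintype.card J : ℝ) * (C * ∑ t : F →+* ℝ, |t ((N : F) * x.1 i)|) := by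
            rw [sum_const, nsmul_eq_mul]
            rfl
        _ ≤ _ := by nlinarith
    rw [Fintype.sum_prod_type]
    calc ∑ i : ι, ∑ j : J, |((n x (i, j) : ℤ) : ℝ)|
        ≤ ∑ i : ι, ((Fintype.card J : ℝ) + 1) * (C * ∑ t : F →+* ℝ, |t ((N : F) * x.1 i)|) :=
          sum_le_sum fun i _ => h1 i
      _ = ((Fintype.card J : ℝ) + 1) * C * sn (fun i => (N : F) * x.1 i) := by
          rw [← mul_sum, ← mul_sum]
          unfold sn
          ring
      _ = _ := by rw [sn_smul]; ring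
  have h3 : c' * ∑ p : ι × J, |((n x p : ℤ) : ℝ)| ≤ c * sn (x : ι → F) := by
    calc c' * ∑ p : ι × J, |((n x p : ℤ) : ℝ)|
        ≤ c' * (C * ((Fintype.card J : ℝ) + 1) * (N : ℝ) * sn (x : ι → F)) := by
          gcongr
      _ = c * sn (x : ι → F) := by
          rw [hc']
          field_simp
  linarith

/-- Exponential sums for bounded functions supported in a lattice. -/
theorem summable_of_supp_abs [IsTotallyReal F] {ι : Type*} [Fintype ι] {φ : (ι → F) → ℂ} {N : ℕ}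
    (hN : 0 < N) {M : ℝ} (hM : ∀ x, ‖φ x‖ ≤ M) (hs : ∀ x, φ x ≠ 0 → x ∈ lat F ι N)
    (c : ℝ) (hc : 0 < c) :
    Summable fun x => ‖φ x‖ * Real.exp (-c * sn x) := by
  have h1 := ((summable_lat_abs (F := F) (ι := ι) N hN c hc).mul_left M)
  refine (Function.Injective.summable_iff
    (Subtype.val_injective : Function.Injective (Subtype.val : lat F ι N → (ι → F))) ?_).1 ?_
  rotate_left
  · refine h1.of_nonneg_of_le (fun x => ?_) (fun x => ?_)
    · simp only [Function.comp_apply]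
      positivity
    · simp only [Function.comp_apply]
      gcongr
      exact hM _
  · intro x hx
    have : φ x = 0 := by
      by_contra h
      exact hx ⟨⟨x, hs x h⟩, rfl⟩
    simp [this]

/-! ## the summability statements -/

variable {k : Type} [Fintype k]

/-- long vectors -/
def curryE (F : Type) (k : Type) : (k → Fin 3 → F) ≃ (k × Fin 3 → F) :=
  (Equiv.curry k (Fin 3) F).symm

theorem sn_curryE (x : k → Fin 3 → F) :
    sn (curryE F k x) ≤ ((Fintype.card k : ℝ) * 3 * Fintype.card (F →+* ℝ)) * ‖emb x‖ := by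
  unfold sn
  have h1 : ∀ (p : k × Fin 3) (t : F →+* ℝ), |t (curryE F k x p)| ≤ ‖emb x‖ := by
    intro p t
    have h2 : ‖emb x t p.1 p.2‖ ≤ ‖emb x‖ :=
      (norm_le_pi_norm (emb x t p.1) p.2).trans
        ((norm_le_pi_norm (emb x t) p.1).trans (norm_le_pi_norm (emb x) t))
    exact h2
  calc ∑ p : k × Fin 3, ∑ t : F →+* ℝ, |t (curryE F k x p)|
      ≤ ∑ _p : k × Fin 3, ∑ _t : F →+* ℝ, ‖emb x‖ :=
        sum_le_sum fun p _ => sum_le_sum fun t _ => h1 p t
    _ = _ := by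
        simp only [sum_const, card_univ, nsmul_eq_mul, Fintype.card_prod, Fintype.card_fin]
        push_cast
        ring

omit [NumberField F] [Fintype k] in
theorem SBk.sbg {n : ℕ} {φ : (k → Fin 3 → F) → ℂ} (h : SBk n φ) :
    SBg n (fun x => φ ((curryE F k).symm x)) :=
  ⟨fun _ hx p => h.1 _ hx p.1 p.2, fun x y hy => h.2 ((curryE F k).symm x) ((curryE F k).symm y)
    (fun a i => hy (a, i))⟩

theorem pLsum : S_Lsum := by
  intro F _ _ _ k _ n hn φ hφ G hG
  obtain ⟨M, hM0, hM⟩ := hφ.sbg.exists_bound hn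
  obtain ⟨C, ε, hε, hC⟩ := hG
  have hC0 : 0 ≤ C := by
    have := (norm_nonneg _).trans (hC 0)
    rw [norm_zero, mul_zero, neg_zero, Real.exp_zero, mul_one] at this
    exact this
  set L : ℝ := (Fintype.card k : ℝ) * 3 * Fintype.card (F →+* ℝ) + 1 with hL
  have hL0 : 0 < L := by positivity
  have h1 := summable_of_supp_abs (F := F) hn hM hφ.sbg.1 (ε / L) (by positivity)
  rw [← (curryE F k).summable_iff] at h1
  refine (h1.mul_left C).of_nonneg_of_le (fun _ => norm_nonneg _) fun x => ?_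
  simp only [Function.comp_apply, Equiv.symm_apply_apply]
  rw [norm_mul]
  have h2 : ‖G (emb x)‖ ≤ C * Real.exp (-(ε / L) * sn (curryE F k x)) := by
    refine (hC _).trans (mul_le_mul_of_nonneg_left (Real.exp_le_exp.2 ?_) hC0)
    have h3 : sn (curryE F k x) ≤ L * ‖emb x‖ := by
      refine (sn_curryE x).trans ?_
      have := norm_nonneg (emb x)
      rw [hL]
      nlinarith
    have h4 : (ε / L) * sn (curryE F k x) ≤ ε * ‖emb x‖ := by
      calc (ε / L) * sn (curryE F k x) ≤ (ε / L) * (L * ‖emb x‖) := by gcongr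
        _ = ε * ‖emb x‖ := by field_simp
    linarith
  calc ‖φ x‖ * ‖G (emb x)‖ ≤ ‖φ x‖ * (C * Real.exp (-(ε / L) * sn (curryE F k x))) := by
        gcongr
    _ = _ := by ring

/-- pairs as long vectors -/
def curryE2 (F : Type) (k : Type) :
    (k → Fin 3 → F) × (k → Fin 3 → F) ≃ ((k × Fin 3) ⊕ (k × Fin 3) → F) :=
  ((curryE F k).prodCongr (curryE F k)).trans (pairE F (k × Fin 3))

theorem sn_curryE2 (p : (k → Fin 3 → F) × (k → Fin 3 → F)) :
    sn (curryE2 F k p) = sn (curryE F k p.1) + sn (curryE F k p.2) := by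
  unfold sn
  rw [Fintype.sum_sum_type]
  rfl

omit [NumberField F] [Fintype k] in
theorem SBk2.sbg {n : ℕ} {Φ : (k → Fin 3 → F) × (k → Fin 3 → F) → ℂ} (h : SBk2 n Φ) :
    SBg n (fun x => Φ ((curryE2 F k).symm x)) := by
  refine ⟨fun x hx p => ?_, fun x y hy => ?_⟩
  · obtain ⟨h1, h2⟩ := h.1 _ hx
    rcases p with p | p
    · exact h1 p.1 p.2
    · exact h2 p.1 p.2
  · exact h.2 ((curryE2 F k).symm x) ((curryE2 F k).symm y).1 ((curryE2 F k).symm y).2
      (fun a i => hy (Sum.inl (a, i))) (fun a i => hy (Sum.inr (a, i)))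

theorem pLsum2 : S_Lsum2 := by
  intro F _ _ _ k _ n hn Φ hΦ G hG
  obtain ⟨M, hM0, hM⟩ := hΦ.sbg.exists_bound hn
  obtain ⟨C, ε, hε, hC⟩ := hG
  have hC0 : 0 ≤ C := by
    have := (norm_nonneg _).trans (hC 0)
    rw [norm_zero, mul_zero, neg_zero, Real.exp_zero, mul_one] at this
    exact this
  set L : ℝ := (Fintype.card k : ℝ) * 3 * Fintype.card (F →+* ℝ) + 1 with hL
  have hL0 : 0 < L := by positivity
  have h1 := summable_of_supp_abs (F := F) hn hM hΦ.sbg.1 (ε / (2 * L)) (by positivity)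
  rw [← (curryE2 F k).summable_iff] at h1
  refine (h1.mul_left C).of_nonneg_of_le (fun _ => norm_nonneg _) fun p => ?_
  simp only [Function.comp_apply, Equiv.symm_apply_apply]
  rw [norm_mul]
  have h2 : ‖G (emb p.1, emb p.2)‖ ≤ C * Real.exp (-(ε / (2 * L)) * sn (curryE2 F k p)) := by
    refine (hC _).trans (mul_le_mul_of_nonneg_left (Real.exp_le_exp.2 ?_) hC0)
    have h3 : ∀ x : k → Fin 3 → F, sn (curryE F k x) ≤ L * ‖emb x‖ := by
      intro x
      refine (sn_curryE x).trans ?_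
      have := norm_nonneg (emb x)
      rw [hL]
      nlinarith
    have h5 : ‖emb p.1‖ ≤ ‖(emb p.1, emb p.2)‖ := le_max_left _ _
    have h6 : ‖emb p.2‖ ≤ ‖(emb p.1, emb p.2)‖ := le_max_right _ _
    have h4 : (ε / (2 * L)) * sn (curryE2 F k p) ≤ ε * ‖(emb p.1, emb p.2)‖ := by
      rw [sn_curryE2]
      calc (ε / (2 * L)) * (sn (curryE F k p.1) + sn (curryE F k p.2))
          ≤ (ε / (2 * L)) * (L * ‖(emb p.1, emb p.2)‖ + L * ‖(emb p.1, emb p.2)‖) := by
            gcongr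
            · exact (h3 p.1).trans (by gcongr)
            · exact (h3 p.2).trans (by gcongr)
        _ = ε * ‖(emb p.1, emb p.2)‖ := by field_simp; ring
    linarith
  calc ‖Φ p‖ * ‖G (emb p.1, emb p.2)‖
      ≤ ‖Φ p‖ * (C * Real.exp (-(ε / (2 * L)) * sn (curryE2 F k p))) := by
        gcongr
    _ = _ := by ring

/-! ## the product formula -/

omit [NumberField F] in
theorem natCast_mul_int (m : ℕ) {x : F} (hx : IsIntegral ℤ x) : IsIntegral ℤ ((m : F) * x) := by
  have h : IsIntegral ℤ ((m : F)) := by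
    have := isIntegral_algebraMap (R := ℤ) (A := F) (x := (m : ℤ))
    simpa using this
  exact h.mul hx

/-- `Θ_R(S) = ψ(S + R/2) conj ψ(S - R/2)`. -/
def Th (ψ : (k → Fin 3 → F) → ℂ) (R S : k → Fin 3 → F) : ℂ :=
  ψ (fun a i => S a i + R a i / 2) * conj (ψ (fun a i => S a i - R a i / 2))

omit [Fintype k] in
theorem Th_supp {n : ℕ} {ψ : (k → Fin 3 → F) → ℂ} (h : SBk n ψ) {R S : k → Fin 3 → F}
    (h0 : Th ψ R S ≠ 0) : (∀ a i, IsIntegral ℤ ((n : F) * R a i)) ∧
      ∀ a i, IsIntegral ℤ (((2 * n : ℕ) : F) * S a i) := by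
  have h1 : ψ (fun a i => S a i + R a i / 2) ≠ 0 := fun h => h0 (by simp [Th, h])
  have h2 : ψ (fun a i => S a i - R a i / 2) ≠ 0 := fun h => h0 (by simp [Th, h])
  have e1 := h.1 _ h1
  have e2 := h.1 _ h2
  refine ⟨fun a i => ?_, fun a i => ?_⟩
  · have := (e1 a i).sub (e2 a i)
    have e : (n : F) * (S a i + R a i / 2) - (n : F) * (S a i - R a i / 2) = (n : F) * R a i := by
      ring
    rwa [e] at this
  · have := (e1 a i).add (e2 a i)
    have e : (n : F) * (S a i + R a i / 2) + (n : F) * (S a i - R a i / 2)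
        = ((2 * n : ℕ) : F) * S a i := by
      push_cast; ring
    rwa [e] at this

omit [Fintype k] in
theorem Th_SBk {n : ℕ} {ψ : (k → Fin 3 → F) → ℂ} (h : SBk n ψ) (R : k → Fin 3 → F) :
    SBk (2 * n) (Th ψ R) := by
  refine ⟨fun S hS => (Th_supp h hS).2, fun S y hy => ?_⟩
  have h2 : ∀ a i, IsIntegral ℤ ((2 : F) * y a i) := by
    intro a i
    have := natCast_mul_int 2 (hy a i)
    simpa using this
  have e1 := h.2 (fun a i => S a i + R a i / 2) (fun a i => 2 * y a i) h2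
  have e2 := h.2 (fun a i => S a i - R a i / 2) (fun a i => 2 * y a i) h2
  unfold Th
  rw [← e1, ← e2]
  congr 2
  · funext a i; push_cast; ring
  · congr 1; funext a i; push_cast; ring

omit [Fintype k] in
theorem Th_per {n : ℕ} {ψ : (k → Fin 3 → F) → ℂ} (h : SBk n ψ) (R r : k → Fin 3 → F)
    (hr : ∀ a i, IsIntegral ℤ (r a i)) :
    Th ψ (fun a i => R a i + ((2 * n : ℕ) : F) * r a i) = Th ψ R := by
  funext S
  have e1 := h.2 (fun a i => S a i + R a i / 2) r hr
  have e2 := h.2 (fun a i => S a i - R a i / 2) (fun a i => - r a i) (fun a i => (hr a i).neg)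
  unfold Th
  rw [← e1, ← e2]
  congr 2
  · funext a i; push_cast; ring
  · congr 1; funext a i; push_cast; ring

/-- the substitution `(R, S) ↦ (S + R/2, S - R/2)` -/
def subE (F : Type) [Field F] [NumberField F] (k : Type) :
    (k → Fin 3 → F) × (k → Fin 3 → F) ≃ (k → Fin 3 → F) × (k → Fin 3 → F) where
  toFun p := (fun a i => p.2 a i + p.1 a i / 2, fun a i => p.2 a i - p.1 a i / 2)
  invFun p := (fun a i => p.1 a i - p.2 a i, fun a i => (p.1 a i + p.2 a i) / 2)
  left_inv p := by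
    ext a i
    · simp only; ring
    · simp only; ring
  right_inv p := by
    ext a i
    · simp only; ring
    · simp only; ring

omit [Fintype k] in
theorem amb_emb (G G' : XR F k → ℂ) (R S : k → Fin 3 → F) :
    amb G G' (emb R) (emb S) =
      G (emb (fun a i => S a i + R a i / 2)) * conj (G' (emb (fun a i => S a i - R a i / 2))) := by
  unfold amb
  have e1 : emb S + (1 / 2 : ℝ) • emb R = emb (fun a i => S a i + R a i / 2) := by
    funext t a i
    show t (S a i) + (1 / 2 : ℝ) * t (R a i) = t (S a i + R a i / 2)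
    rw [map_add, map_div₀, map_ofNat]; ring
  have e2 : emb S - (1 / 2 : ℝ) • emb R = emb (fun a i => S a i - R a i / 2) := by
    funext t a i
    show t (S a i) - (1 / 2 : ℝ) * t (R a i) = t (S a i - R a i / 2)
    rw [map_sub, map_div₀, map_ofNat]; ring
  rw [e1, e2]

theorem ED.nonneg {E : Type} [NormedAddCommGroup E] {f : E → ℂ} {C ε : ℝ}
    (h : ∀ x, ‖f x‖ ≤ C * Real.exp (-(ε * ‖x‖))) : 0 ≤ C := by
  have := (norm_nonneg _).trans (h 0)
  rw [norm_zero, mul_zero, neg_zero, Real.exp_zero, mul_one] at this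
  exact this

theorem ED_amb {G G' : XR F k → ℂ} (hG : ED G) (hG' : ED G') (R : XR F k) :
    ED (amb G G' R) := by
  obtain ⟨C, ε, hε, hC⟩ := hG
  obtain ⟨C', ε', hε', hC'⟩ := hG'
  have hC0 := ED.nonneg hC
  have hC0' := ED.nonneg hC'
  refine ⟨C * C' * Real.exp (ε * ‖(1 / 2 : ℝ) • R‖), ε, hε, fun x => ?_⟩
  unfold amb
  rw [norm_mul, RCLike.norm_conj]
  have h1 : ‖G' (x - (1 / 2 : ℝ) • R)‖ ≤ C' := by
    refine (hC' _).trans ?_
    have : Real.exp (-(ε' * ‖x - (1 / 2 : ℝ) • R‖)) ≤ 1 := by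
      rw [Real.exp_le_one_iff]
      have := norm_nonneg (x - (1 / 2 : ℝ) • R)
      nlinarith
    nlinarith
  have h2 : ‖G (x + (1 / 2 : ℝ) • R)‖ ≤
      C * (Real.exp (ε * ‖(1 / 2 : ℝ) • R‖) * Real.exp (-(ε * ‖x‖))) := by
    refine (hC _).trans (mul_le_mul_of_nonneg_left ?_ hC0)
    rw [← Real.exp_add]
    apply Real.exp_le_exp.2
    have h3 : ‖x‖ ≤ ‖x + (1 / 2 : ℝ) • R‖ + ‖(1 / 2 : ℝ) • R‖ := by
      have := norm_sub_le (x + (1 / 2 : ℝ) • R) ((1 / 2 : ℝ) • R)
      simpa using this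
    nlinarith
  calc ‖G (x + (1 / 2 : ℝ) • R)‖ * ‖G' (x - (1 / 2 : ℝ) • R)‖
      ≤ C * (Real.exp (ε * ‖(1 / 2 : ℝ) • R‖) * Real.exp (-(ε * ‖x‖))) * C' := by
        gcongr
    _ = _ := by ring

omit [NumberField F] [Fintype k] in
theorem continuous_amb {G G' : XR F k → ℂ} (hG : Continuous G) (hG' : Continuous G')
    (R : XR F k) : Continuous (amb G G' R) := by
  unfold amb
  exact (hG.comp (continuous_id.add continuous_const)).mul
    (Complex.continuous_conj.comp (hG'.comp (continuous_id.sub continuous_const)))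

theorem double_sum {ι : Type} (f g : ι → ℂ) (e : ι × ι ≃ ι × ι) (A B : ι × ι → ℂ)
    (s1 : Summable fun x => ‖f x‖) (s2 : Summable fun x => ‖g x‖)
    (hA : ∀ p, A p = f (e p).1 * conj (g (e p).2)) (hB : Summable B)
    (hR : ∀ R, ∑' S, A (R, S) = ∑' y, B (R, y)) :
    (∑' x, f x) * conj (∑' x, g x) = ∑' p, B p := by
  have s2' : Summable fun x => ‖conj (g x)‖ := by
    refine s2.congr fun x => ?_
    rw [RCLike.norm_conj]
  have s3 := (summable_mul_of_summable_norm s1 s2')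
  have hAs : Summable A := by
    have := e.summable_iff.2 s3
    refine this.congr fun p => ?_
    rw [hA]
    rfl
  calc (∑' x, f x) * conj (∑' x, g x)
      = (∑' x, f x) * ∑' x, conj (g x) := by rw [Complex.conj_tsum]
    _ = ∑' p : ι × ι, f p.1 * conj (g p.2) :=
        tsum_mul_tsum_of_summable_norm s1 s2'
    _ = ∑' p, A p := by
        rw [← e.tsum_eq]
        exact tsum_congr fun p => (hA p).symm
    _ = ∑' R, ∑' S, A (R, S) := hAs.tsum_prod
    _ = ∑' R, ∑' y, B (R, y) := tsum_congr hR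
    _ = _ := (hB.tsum_prod).symm

theorem ED_snd {G G' : XR F k → ℂ}
    (hJ : ED (fun p : XR F k × XR F k => ft (amb G G' p.1) p.2)) (R : XR F k) :
    ED (ft (amb G G' R)) := by
  obtain ⟨C, ε, hε, hC⟩ := hJ
  have hC0 := ED.nonneg hC
  refine ⟨C, ε, hε, fun η => (hC (R, η)).trans ?_⟩
  refine mul_le_mul_of_nonneg_left (Real.exp_le_exp.2 ?_) hC0
  have h1 : ‖η‖ ≤ ‖((R, η) : XR F k × XR F k)‖ := le_max_right _ _
  exact neg_le_neg (mul_le_mul_of_nonneg_left h1 hε.le)

/-- The choice of the dual functions. -/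
theorem exists_dual (h : S_Pois) (F : Type) [Field F] [NumberField F] [IsTotallyReal F]
    (k : Type) [Fintype k] [DecidableEq k] (n : ℕ) (hn : 0 < n) :
    ∃ M : ℕ, 0 < M ∧ ∃ T : ((k → Fin 3 → F) → ℂ) → ((k → Fin 3 → F) → ℂ),
      T 0 = 0 ∧ ∀ θ, SBk n θ → SBk M (T θ) ∧
      ∀ G : XR F k → ℂ, Continuous G → ED G → ED (ft G) →
        ∑' x : k → Fin 3 → F, θ x * G (emb x) = ∑' y : k → Fin 3 → F, T θ y * ft G (emb y) := by
  classical
  obtain ⟨M1, hM1, hP⟩ := h F k n hn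
  refine ⟨M1, hM1, fun θ => if hθ : SBk n θ ∧ θ ≠ 0 then (hP θ hθ.1).choose else 0, ?_, ?_⟩
  · have : ¬ (SBk n (0 : (k → Fin 3 → F) → ℂ) ∧ (0 : (k → Fin 3 → F) → ℂ) ≠ 0) :=
      fun hc => hc.2 rfl
    simp only [dif_neg this]
  · intro θ hθ
    by_cases h0 : θ = 0
    · have hc : ¬ (SBk n θ ∧ θ ≠ 0) := fun hc => hc.2 h0
      simp only [dif_neg hc]
      refine ⟨⟨fun x hx => absurd rfl hx, fun _ _ _ => rfl⟩, fun G _ _ _ => ?_⟩
      rw [h0]
      simp
    · have hc : SBk n θ ∧ θ ≠ 0 := ⟨hθ, h0⟩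
      simp only [dif_pos hc]
      exact (hP θ hc.1).choose_spec

omit [Fintype k] in
/-- The dual functions of `Θ_R` form a Schwartz-Bruhat function of two vectors. -/
theorem dual_SBk2 {n M1 : ℕ} {ψ : (k → Fin 3 → F) → ℂ} (hψ : SBk n ψ)
    (T : ((k → Fin 3 → F) → ℂ) → ((k → Fin 3 → F) → ℂ)) (hT0 : T 0 = 0)
    (hT1 : ∀ R, SBk M1 (T (Th ψ R))) :
    SBk2 (2 * n * M1) (fun p : (k → Fin 3 → F) × (k → Fin 3 → F) => T (Th ψ p.1) p.2) := by
  have hT3 : ∀ R y, T (Th ψ R) y ≠ 0 → ∀ a i, IsIntegral ℤ ((n : F) * R a i) := by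
    intro R y hy
    have hR : Th ψ R ≠ 0 := by
      intro h0
      apply hy
      rw [h0, hT0]
      rfl
    obtain ⟨S, hS⟩ := Function.ne_iff.1 hR
    exact (Th_supp hψ hS).1
  refine ⟨fun p hp => ?_, fun p x y hx hy => ?_⟩
  · have h1 := hT3 p.1 p.2 hp
    have h2 := (hT1 p.1).1 p.2 hp
    refine ⟨fun a i => ?_, fun a i => ?_⟩
    · have := natCast_mul_int (2 * M1) (h1 a i)
      have e : ((2 * M1 : ℕ) : F) * ((n : F) * p.1 a i) = ((2 * n * M1 : ℕ) : F) * p.1 a i := by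
        push_cast; ring
      rwa [e] at this
    · have := natCast_mul_int (2 * n) (h2 a i)
      have e : ((2 * n : ℕ) : F) * ((M1 : F) * p.2 a i) = ((2 * n * M1 : ℕ) : F) * p.2 a i := by
        push_cast; ring
      rwa [e] at this
  · show T (Th ψ (fun a i => p.1 a i + ((2 * n * M1 : ℕ) : F) * x a i))
      (fun a i => p.2 a i + ((2 * n * M1 : ℕ) : F) * y a i) = T (Th ψ p.1) p.2
    have e1 : (fun a i => p.1 a i + ((2 * n * M1 : ℕ) : F) * x a i) =
        fun a i => p.1 a i + ((2 * n : ℕ) : F) * ((M1 : F) * x a i) := by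
      funext a i; push_cast; ring
    have e2 : (fun a i => p.2 a i + ((2 * n * M1 : ℕ) : F) * y a i) =
        fun a i => p.2 a i + (M1 : F) * (((2 * n : ℕ) : F) * y a i) := by
      funext a i; push_cast; ring
    rw [e1, Th_per hψ p.1 (fun a i => (M1 : F) * x a i) (fun a i => natCast_mul_int _ (hx a i)),
      e2]
    exact (hT1 p.1).2 p.2 (fun a i => ((2 * n : ℕ) : F) * y a i)
      (fun a i => natCast_mul_int _ (hy a i))

theorem pProd (h : S_Pois) : S_Prod := by
  intro F _ _ _ k _ _ n hn ψ hψ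
  obtain ⟨M1, hM1, T, hT0, hT⟩ := exists_dual h F k (2 * n) (by omega)
  have hT1 : ∀ R, SBk M1 (T (Th ψ R)) := fun R => (hT _ (Th_SBk hψ R)).1
  have hSB := dual_SBk2 hψ T hT0 hT1
  refine ⟨2 * n * M1, by positivity, fun p => T (Th ψ p.1) p.2, hSB, ?_⟩
  intro G G' hGc hGc' hG hG' hJ
  have s1 := pLsum F k n hn ψ hψ G hG
  have s2 := pLsum F k n hn ψ hψ G' hG'
  have s4 := pLsum2 F k (2 * n * M1) (by positivity) _ hSB
    (fun p : XR F k × XR F k => ft (amb G G' p.1) p.2) hJ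
  refine double_sum (fun x => ψ x * G (emb x)) (fun x => ψ x * G' (emb x)) (subE F k)
    (fun p => Th ψ p.1 p.2 * amb G G' (emb p.1) (emb p.2)) _ s1 s2 ?_ s4.of_norm ?_
  · intro p
    show Th ψ p.1 p.2 * amb G G' (emb p.1) (emb p.2) = _
    rw [amb_emb]
    simp only [Th, subE, Equiv.coe_fn_mk, map_mul]
    ring
  · intro R
    have key := (hT (Th ψ R) (Th_SBk hψ R)).2 (amb G G' (emb R))
      (continuous_amb hGc hGc' (emb R)) (ED_amb hG hG' (emb R)) (ED_snd hJ (emb R))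
    exact key

end IP
end CMT
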